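import Pool.Agent.Lib.MRF.Defs
import Pool.Agent.Lib.MP_663568_h6.ZeroQ

/-! N_663568 (whole circle): exact statements of the rows.  helper86. -/

set_option autoImplicit false

namespace Pool.Agent.WC86

open Finset Pool.Agent.Lib.MP_663568_nt Pool.Agent.Lib.MP_663568_nt.Katai
  Pool.Agent.Lib.MP_663568_nt.Nul Pool.Agent.Lib.MP_663568_nt.H6

noncomputable section

/-- the Möbius function with complex values. -/
def mu (n : ℕ) : ℂ := ((ArithmeticFunction.moebius n : ℤ) : ℂ)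

/-- the linear phases `n ↦ e(yn)`. -/
def lin (y : ℝ) (n : ℕ) : ℂ := ee (y * n)

/-- the input: short sums of `λ χ` for all Dirichlet characters. -/
def ShortAll : Prop := ∀ (q : ℕ) [NeZero q] (χ : DirichletCharacter ℂ q), MRF.ShortF (MRF.lamChi χ)

/-- ROW W1: short sums of `μ` in progressions. -/
def MuAP : Prop := ∀ q b : ℕ, 1 ≤ q → ∀ ε : ℝ, 0 < ε → ∃ h0 : ℕ, ∀ h : ℕ, h0 ≤ h → ∃ X0 : ℝ,
  ∀ X : ℝ, X0 ≤ X →
    ∑ x ∈ Icc ⌈X⌉₊ ⌊2 * X⌋₊, ‖∑ j ∈ Icc 1 h, (if (x + j) % q = b % q then mu (x + j) else 0)‖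
      ≤ ε * h * X

/-- the major arcs. -/
def Maj (Q d : ℝ) : Set ℝ := {y | ∃ q : ℕ, 1 ≤ q ∧ (q : ℝ) ≤ Q ∧ ∃ b : ℤ, |(q : ℝ) * y - b| < d}

/-- ROW W2: the supremum over the major arcs. -/
def MajorSmall : Prop := ∀ ε Q : ℝ, 0 < ε → ∃ d : ℝ, 0 < d ∧ d ≤ 1 ∧ ∃ H0 : ℕ, ∀ H N : ℕ,
  H0 ≤ H → H ≤ N →
    ∑ n ∈ Icc 1 N, (1 / (n : ℝ)) * GS lin mu (Maj Q d) H n ≤ ε * H * Real.log N

/-- the measure of the closed `1 / R`-neighbourhood modulo `1`. -/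
def outer (A : Set ℝ) (R : ℝ) : ℝ :=
  (MeasureTheory.volume {y : ℝ | y ∈ Set.Icc 0 1 ∧ ∃ α ∈ A, ∃ b : ℤ, |α - y - b| ≤ 1 / R}).toReal

/-- the measure of the set of points whose closed `1 / R`-neighbourhood is in `A` modulo `1`. -/
def inner (A : Set ℝ) (R : ℝ) : ℝ :=
  (MeasureTheory.volume {y : ℝ | y ∈ Set.Icc 0 1 ∧ ∀ z : ℝ, |z - y| ≤ 1 / R →
    ∃ b : ℤ, z + b ∈ A}).toReal

/-- members with frequency in `A` modulo `1`. -/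
def InM (A : Set ℝ) : Set ℝ := {y | ∃ b : ℤ, y + b ∈ A}

/-- ROW W3 (helper86): the square root law. -/
def SqrtLaw : Prop := ∀ ε R : ℝ, 0 < ε → 1 ≤ R → ∃ H0 : ℕ, ∀ H N : ℕ, H0 ≤ H → H ≤ N →
  ∀ A : Set ℝ, ∑ n ∈ Icc 1 N, (1 / (n : ℝ)) * GS lin mu (InM A) H n ≤
    (√(6 * outer A R) / Real.pi + ε) * H * Real.log N

/-- ROW W4: the logarithmic density of the squarefree numbers. -/
def SqfreeLog : Prop := ∃ C : ℝ, ∀ N : ℕ, 1 ≤ N →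
  ∑ n ∈ Icc 1 N, (1 / (n : ℝ)) * ‖mu n‖ ^ 2 ≤ 6 / Real.pi ^ 2 * Real.log N + C

/-- ROW W5: the zero-one inequality on the whole circle. -/
def ZeroOneAll : Prop := ∀ η R : ℝ, 0 < η → 1 ≤ R → ∃ H0 : ℕ, ∀ H N : ℕ, H0 ≤ H → H ≤ N →
  ∀ (A : Set ℝ) (κ : ℝ),
    (∀ L : ℕ, (H : ℝ) ^ (1 - η) ≤ L → L ≤ H →
      ∑ n ∈ Icc 1 N, (1 / (n : ℝ)) * GS lin mu (InM A) L n ≤ κ * L * Real.log N) →
    inner A R * ∑ n ∈ Icc 1 N, (1 / (n : ℝ)) * GS lin mu Set.univ H n ≤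
      (κ + η) * H * Real.log N

end

end Pool.Agent.WC86
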