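import Pool.Agent.Lib.WC86.Sqrt

/-! N_663568 (whole circle): the final form.  helper86. -/

set_option autoImplicit false

namespace Pool.Agent.WC86

open Finset MeasureTheory Pool.Agent.Lib.MP_663568_nt Pool.Agent.Lib.MP_663568_nt.Katai
  Pool.Agent.Lib.MP_663568_nt.Nul Pool.Agent.Lib.MP_663568_nt.H6

noncomputable section

/-- the average of Q1 for the circle with frequencies in `A`. -/
def Avg (A : Set ℝ) (N H : ℕ) : ℝ :=
  ∑ n ∈ Icc 1 N, (1 / (n : ℝ)) * ⨆ y : {y : ℝ // y ∈ A},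
    ‖∑ h ∈ Icc 1 H, Complex.exp (2 * Real.pi * Complex.I * (((h + n : ℕ) : ℝ) * (y : ℝ) : ℝ)) *
      ((ArithmeticFunction.moebius (n + h) : ℤ) : ℂ)‖

lemma Avg_eq (A : Set ℝ) (N H : ℕ) :
    Avg A N H = ∑ n ∈ Icc 1 N, (1 / (n : ℝ)) * GS lin mu A H n := by
  unfold Avg GS GG
  refine sum_congr rfl fun n _ => ?_
  congr 1
  refine iSup_congr fun y => ?_
  congr 1
  refine sum_congr rfl fun h _ => ?_
  unfold lin mu ee
  congr 3
  push_cast
  ring

lemma Avg_InM (A : Set ℝ) (N H : ℕ) : Avg A N H ≤ Avg (InM A) N H := by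
  rw [Avg_eq, Avg_eq]
  refine sum_le_sum fun n _ => mul_le_mul_of_nonneg_left (GS_mono _ _ ?_ H n) (by positivity)
  intro y hy
  exact ⟨0, by simpa using hy⟩

lemma lin_add_int (y : ℝ) (b : ℤ) (n : ℕ) : lin (y + b) n = lin y n := by
  unfold lin
  rw [show (y + b) * (n : ℝ) = y * n + ((b * n : ℤ) : ℝ) by push_cast; ring, ee_add]
  rw [ee_int, mul_one]

lemma InM_Avg (A : Set ℝ) (N H : ℕ) : Avg (InM A) N H ≤ Avg A N H := by
  rw [Avg_eq, Avg_eq]
  refine sum_le_sum fun n _ => mul_le_mul_of_nonneg_left ?_ (by positivity)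
  have h0 : 0 ≤ GS lin mu A H n := GG_nonneg _ _ _ _
  unfold GS GG
  refine Real.iSup_le (fun i => ?_) h0
  obtain ⟨b, hb⟩ := i.2
  have h1 := le_GG (fun i : {i // i ∈ A} => lin i.1) mu (fun i n => norm_lin_le i.1 n)
      norm_mu_le H n ⟨_, hb⟩
  have e : ∀ m, lin (i.1 + b) m = lin i.1 m := fun m => lin_add_int _ _ _
  simp only [e] at h1
  exact h1

/-- the final form of the two laws. -/
theorem final (h1 : MinorLaw) (h2 : MajorSmall) (ε R : ℝ) (hε : 0 < ε) (hR : 1 ≤ R) :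
    ∃ H0 : ℕ, ∀ H N : ℕ, H0 ≤ H → H ≤ N → ∀ A : Set ℝ,
      Avg A N H ≤ (√(6 * outer A R) / Real.pi + ε) * H * Real.log N ∧
      ∃ L : ℕ, (H : ℝ) ^ (1 - ε) ≤ L ∧ L ≤ H ∧
        inner A R * Avg Set.univ N H / H - ε * Real.log N ≤ Avg A N L / L := by
  obtain ⟨Ha, ha⟩ := sqrtLaw h1 h2 ε R hε hR
  obtain ⟨Hb, hb⟩ := zeroOneAll h2 (min (ε / 2) 1) R (by positivity) hR
  refine ⟨max (max Ha Hb) 2, fun H N hH hHN A => ⟨?_, ?_⟩⟩
  · refine (Avg_InM A N H).trans ?_
    rw [Avg_eq]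
    exact ha H N (((le_max_left _ _).trans (le_max_left _ _)).trans hH) hHN A
  · have hH2 : 2 ≤ H := (le_max_right _ _).trans hH
    have hHr : (2 : ℝ) ≤ H := by exact_mod_cast hH2
    have hH0 : (0 : ℝ) < H := by linarith
    have hNr : (H : ℝ) ≤ N := by exact_mod_cast hHN
    have hlog : 0 < Real.log N := Real.log_pos (by linarith)
    by_contra hcon
    push Not at hcon
    set κ : ℝ := inner A R * Avg Set.univ N H / H / Real.log N - ε with hκ
    have hm : min (ε / 2) 1 ≤ ε / 2 := min_le_left _ _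
    have hm0 : 0 < min (ε / 2) 1 := by positivity
    have key := hb H N (((le_max_right _ _).trans (le_max_left _ _)).trans hH) hHN A κ
      (fun L hL1 hL2 => by
        rw [← Avg_eq]
        have h5 : (H : ℝ) ^ (1 - ε) ≤ L := by
          refine le_trans ?_ hL1
          exact Real.rpow_le_rpow_of_exponent_le (by linarith) (by linarith)
        have h6 := hcon L h5 hL2
        have hL0 : (0 : ℝ) < L := lt_of_lt_of_le (by positivity) h5
        rw [div_lt_iff₀ hL0] at h6
        refine (InM_Avg A N L).trans (h6.le.trans (le_of_eq ?_))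
        rw [hκ]
        field_simp)
    rw [← Avg_eq] at key
    have h7 : (κ + min (ε / 2) 1) * H * Real.log N ≤ (κ + ε / 2) * H * Real.log N := by
      gcongr
    have h8 : (κ + ε / 2) * H * Real.log N =
        inner A R * Avg Set.univ N H - ε / 2 * H * Real.log N := by
      rw [hκ]
      field_simp
      ring
    have h9 : 0 < ε / 2 * H * Real.log N := by positivity
    linarith

end

end Pool.Agent.WC86
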