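import Pool.Agent.Lib.WC86.Stat
import Pool.Agent.Lib.MP_663568_h6.UpQ

/-! N_663568, ROW W2: the supremum over the major arcs (`MuAP → MajorSmall`).  helper20. -/

set_option autoImplicit false

namespace Pool.Agent.WC86

open Finset Pool.Agent.Lib.MP_663568_nt Pool.Agent.Lib.MP_663568_nt.Katai
  Pool.Agent.Lib.MP_663568_nt.Nul Pool.Agent.Lib.MP_663568_nt.H6

namespace Maj2

theorem norm_mu_le (n : ℕ) : ‖mu n‖ ≤ 1 := by
  unfold mu
  rw [Complex.norm_intCast]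
  exact_mod_cast ArithmeticFunction.abs_moebius_le_one

theorem norm_lin (y : ℝ) (n : ℕ) : ‖lin y n‖ ≤ 1 := (norm_ee _).le

/-- a sum over a shifted interval -/
theorem shift_err (G : ℕ → ℂ) (hG : ∀ n, ‖G n‖ ≤ 1) (n H j : ℕ) (hj : 1 ≤ j) :
    ‖∑ i ∈ Icc 1 H, G (n + i) - ∑ m ∈ Ico n (n + H), G (m + j)‖ ≤ 2 * j := by
  have e1 : ∑ i ∈ Icc 1 H, G (n + i) = ∑ k ∈ Ico (n + 1) (n + H + 1), G k := by
    rw [icc_ioc]
    congr 1
    ext x
    simp only [mem_Ioc, mem_Ico]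
    omega
  have e2 : ∑ m ∈ Ico n (n + H), G (m + j) = ∑ k ∈ Ico (n + j) (n + H + j), G k :=
    sum_Ico_add' G n (n + H) j
  have e3 : ∑ k ∈ Ico (n + 1) (n + H + 1), G k - ∑ k ∈ Ico (n + j) (n + H + j), G k =
      ∑ k ∈ Ico (n + 1) (n + j), G k - ∑ k ∈ Ico (n + H + 1) (n + H + j), G k := by
    rw [sum_Ico_eq_sub _ (by omega), sum_Ico_eq_sub _ (by omega), sum_Ico_eq_sub _ (by omega),
      sum_Ico_eq_sub _ (by omega)]
    ring
  have e4 : ∀ a b : ℕ, ‖∑ k ∈ Ico a b, G k‖ ≤ ((b - a : ℕ) : ℝ) := by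
    intro a b
    calc ‖∑ k ∈ Ico a b, G k‖ ≤ ∑ k ∈ Ico a b, ‖G k‖ := norm_sum_le _ _
      _ ≤ ∑ k ∈ Ico a b, (1 : ℝ) := sum_le_sum fun k _ => hG k
      _ = ((b - a : ℕ) : ℝ) := by simp
  rw [e1, e2, e3]
  refine (norm_sub_le _ _).trans ?_
  have h1 := e4 (n + 1) (n + j)
  have h2 := e4 (n + H + 1) (n + H + j)
  have h3 : ((n + j - (n + 1) : ℕ) : ℝ) ≤ j := by
    exact_mod_cast (by omega : n + j - (n + 1) ≤ j)
  have h4 : ((n + H + j - (n + H + 1) : ℕ) : ℝ) ≤ j := by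
    exact_mod_cast (by omega : n + H + j - (n + H + 1) ≤ j)
  linarith

/-- a window of length `H` as an average of windows of length `h` -/
theorem ws_avg (F a : ℕ → ℂ) (hF : ∀ n, ‖F n‖ ≤ 1) (ha : ∀ n, ‖a n‖ ≤ 1) (n H h : ℕ) :
    (h : ℝ) * ws F a n H ≤ ∑ m ∈ Ico n (n + H), ws F a m h + 2 * h * h := by
  set G : ℕ → ℂ := fun k => F k * a k with hGd
  have hG : ∀ k, ‖G k‖ ≤ 1 := fun k => by
    rw [hGd]
    simp only [norm_mul]
    exact mul_le_one₀ (hF k) (norm_nonneg _) (ha k)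
  have h1 : (h : ℝ) * ws F a n H = ‖∑ j ∈ Icc 1 h, ∑ i ∈ Icc 1 H, G (n + i)‖ := by
    rw [sum_const, Nat.card_Icc, Nat.add_sub_cancel, nsmul_eq_mul, norm_mul, Complex.norm_natCast]
    rfl
  have h2 : ∑ j ∈ Icc 1 h, ∑ i ∈ Icc 1 H, G (n + i) =
      ∑ j ∈ Icc 1 h, (∑ i ∈ Icc 1 H, G (n + i) - ∑ m ∈ Ico n (n + H), G (m + j)) +
        ∑ m ∈ Ico n (n + H), ∑ j ∈ Icc 1 h, G (m + j) := by
    rw [sum_sub_distrib, sum_comm (s := Ico n (n + H))]
    ring
  rw [h1, h2]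
  refine (norm_add_le _ _).trans ?_
  have h3 : ‖∑ j ∈ Icc 1 h, (∑ i ∈ Icc 1 H, G (n + i) - ∑ m ∈ Ico n (n + H), G (m + j))‖ ≤
      2 * h * h := by
    refine (norm_sum_le _ _).trans ?_
    calc ∑ j ∈ Icc 1 h, ‖∑ i ∈ Icc 1 H, G (n + i) - ∑ m ∈ Ico n (n + H), G (m + j)‖
        ≤ ∑ j ∈ Icc 1 h, (2 * h : ℝ) := by
          refine sum_le_sum fun j hj => ?_
          rw [mem_Icc] at hj
          refine (shift_err G hG n H j hj.1).trans ?_
          have : (j : ℝ) ≤ h := by exact_mod_cast hj.2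
          linarith
      _ = 2 * h * h := by
          rw [sum_const, Nat.card_Icc, Nat.add_sub_cancel, nsmul_eq_mul]
          ring
  have h4 : ‖∑ m ∈ Ico n (n + H), ∑ j ∈ Icc 1 h, G (m + j)‖ ≤ ∑ m ∈ Ico n (n + H), ws F a m h :=
    norm_sum_le _ _
  linarith

theorem GS_avg {ι : Type} (F : ι → ℕ → ℂ) (a : ℕ → ℂ) (hF : ∀ i n, ‖F i n‖ ≤ 1)
    (ha : ∀ n, ‖a n‖ ≤ 1) (S : Set ι) (n H h : ℕ) :
    (h : ℝ) * GS F a S H n ≤ ∑ m ∈ Ico n (n + H), GS F a S h m + 2 * h * h := by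
  have h0 : 0 ≤ ∑ m ∈ Ico n (n + H), GS F a S h m :=
    sum_nonneg fun m _ => GS_nonneg F a S h m
  rw [GS, GG, Real.mul_iSup_of_nonneg (by positivity)]
  refine Real.iSup_le (fun i => ?_) (by positivity)
  obtain ⟨i, hi⟩ := i
  refine (ws_avg (F i) a (hF i) ha n H h).trans ?_
  have h1 : ∑ m ∈ Ico n (n + H), ws (F i) a m h ≤ ∑ m ∈ Ico n (n + H), GS F a S h m :=
    sum_le_sum fun m _ => ws_le_GS F a hF ha S h m i hi
  linarith

/-- the major arc majorant -/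
noncomputable def EE (Q : ℝ) (h m : ℕ) : ℝ :=
  ∑ q ∈ Icc 1 ⌊Q⌋₊, ∑ c ∈ range q,
    ‖∑ j ∈ Icc 1 h, (if (m + j) % q = c % q then mu (m + j) else 0)‖

theorem EE_nonneg (Q : ℝ) (h m : ℕ) : 0 ≤ EE Q h m :=
  sum_nonneg fun _ _ => sum_nonneg fun _ _ => norm_nonneg _

theorem norm_ee_sub_one (x : ℝ) : ‖ee x - 1‖ ≤ 2 * Real.pi * |x| := by
  have h := Real.norm_exp_I_mul_ofReal_sub_one_le (x := 2 * Real.pi * x)
  have e : ee x = Complex.exp (Complex.I * ((2 * Real.pi * x : ℝ) : ℂ)) := by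
    rw [ee]
    congr 1
    push_cast
    ring
  rw [e]
  refine h.trans ?_
  rw [Real.norm_eq_abs, abs_mul, abs_of_pos (by positivity : (0:ℝ) < 2 * Real.pi)]

/-- a phase with rational frequency splits into residue classes -/
theorem rat_phase (q : ℕ) (hq : 1 ≤ q) (b : ℤ) (f : ℕ → ℂ) (h m : ℕ) :
    ‖∑ j ∈ Icc 1 h, ee (b / q * ((m + j : ℕ) : ℝ)) * f (m + j)‖ ≤
      ∑ c ∈ range q, ‖∑ j ∈ Icc 1 h, (if (m + j) % q = c % q then f (m + j) else 0)‖ := by
  have hq0 : (q : ℝ) ≠ 0 := by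
    have : 0 < q := hq
    positivity
  have h1 : ∀ n : ℕ, ee (b / q * (n : ℝ)) = ee (b / q * ((n % q : ℕ) : ℝ)) := by
    intro n
    obtain ⟨w, hw⟩ : ∃ w : ℕ, n = n % q + q * w := ⟨n / q, (Nat.mod_add_div n q).symm⟩
    have h2 : (n : ℝ) = ((n % q : ℕ) : ℝ) + q * (w : ℝ) := by
      exact_mod_cast hw
    have h3 : (b : ℝ) / q * (n : ℝ) = b / q * ((n % q : ℕ) : ℝ) + ((b * (w : ℤ) : ℤ) : ℝ) := by
      rw [h2]
      push_cast
      field_simp
    rw [h3, ee_add, ee_int, mul_one]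
  have h4 : ∀ j, ee (b / q * ((m + j : ℕ) : ℝ)) * f (m + j) = ∑ c ∈ range q,
      ee (b / q * (c : ℝ)) * (if (m + j) % q = c % q then f (m + j) else 0) := by
    intro j
    rw [sum_eq_single ((m + j) % q)]
    · rw [if_pos (by rw [Nat.mod_mod]), ← h1]
    · intro c hc hne
      rw [if_neg, mul_zero]
      intro h5
      rw [mem_range] at hc
      rw [Nat.mod_eq_of_lt hc] at h5
      exact hne h5.symm
    · intro h5
      exact absurd (mem_range.2 (Nat.mod_lt _ hq)) h5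
  have h5 : ∑ j ∈ Icc 1 h, ee (b / q * ((m + j : ℕ) : ℝ)) * f (m + j) = ∑ c ∈ range q,
      ee (b / q * (c : ℝ)) * ∑ j ∈ Icc 1 h, (if (m + j) % q = c % q then f (m + j) else 0) := by
    rw [sum_congr rfl fun j _ => h4 j, sum_comm]
    refine sum_congr rfl fun c _ => ?_
    rw [mul_sum]
  rw [h5]
  refine (norm_sum_le _ _).trans (sum_le_sum fun c _ => ?_)
  rw [norm_mul, norm_ee, one_mul]

theorem ws_maj {Q d y : ℝ} (hy : y ∈ Maj Q d) (h m : ℕ) :
    ws (lin y) mu m h ≤ EE Q h m + 2 * Real.pi * d * h * h := by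
  obtain ⟨q, hq1, hqQ, b, hb⟩ := hy
  have hq0 : (0 : ℝ) < q := by exact_mod_cast hq1
  set θ : ℝ := y - b / q with hθ
  have hθd : |θ| ≤ d := by
    have h1 : (q : ℝ) * y - b = q * θ := by
      rw [hθ]
      field_simp
    rw [h1, abs_mul, abs_of_pos hq0] at hb
    have h2 : |θ| ≤ q * |θ| := by
      have : (1 : ℝ) ≤ q := by exact_mod_cast hq1
      nlinarith [abs_nonneg θ]
    linarith
  have h1 : ∀ j : ℕ, lin y (m + j) * mu (m + j) = ee (θ * m) *
      (ee (b / q * ((m + j : ℕ) : ℝ)) * mu (m + j) +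
        ee (b / q * ((m + j : ℕ) : ℝ)) * (ee (θ * j) - 1) * mu (m + j)) := by
    intro j
    have h2 : lin y (m + j) = ee (θ * m) * ee (b / q * ((m + j : ℕ) : ℝ)) * ee (θ * j) := by
      unfold lin
      rw [← ee_add, ← ee_add]
      congr 1
      rw [hθ]
      push_cast
      ring
    rw [h2]
    ring
  have h2 : ∑ j ∈ Icc 1 h, lin y (m + j) * mu (m + j) = ee (θ * m) *
      (∑ j ∈ Icc 1 h, ee (b / q * ((m + j : ℕ) : ℝ)) * mu (m + j) +
        ∑ j ∈ Icc 1 h, ee (b / q * ((m + j : ℕ) : ℝ)) * (ee (θ * j) - 1) * mu (m + j)) := by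
    rw [sum_congr rfl fun j _ => h1 j, ← mul_sum, sum_add_distrib]
  have h3 : ws (lin y) mu m h = ‖∑ j ∈ Icc 1 h, lin y (m + j) * mu (m + j)‖ := rfl
  rw [h3, h2, norm_mul, norm_ee, one_mul]
  refine (norm_add_le _ _).trans (add_le_add ?_ ?_)
  · refine (rat_phase q hq1 b mu h m).trans ?_
    have h4 : q ∈ Icc 1 ⌊Q⌋₊ := mem_Icc.2 ⟨hq1, Nat.le_floor hqQ⟩
    exact single_le_sum (f := fun q => ∑ c ∈ range q,
      ‖∑ j ∈ Icc 1 h, (if (m + j) % q = c % q then mu (m + j) else 0)‖)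
      (fun q _ => sum_nonneg fun _ _ => norm_nonneg _) h4
  · refine (norm_sum_le _ _).trans ?_
    calc ∑ j ∈ Icc 1 h, ‖ee (b / q * ((m + j : ℕ) : ℝ)) * (ee (θ * j) - 1) * mu (m + j)‖
        ≤ ∑ j ∈ Icc 1 h, 2 * Real.pi * d * h := by
          refine sum_le_sum fun j hj => ?_
          rw [mem_Icc] at hj
          rw [norm_mul, norm_mul, norm_ee, one_mul]
          have h4 : ‖ee (θ * j) - 1‖ ≤ 2 * Real.pi * d * h := by
            refine (norm_ee_sub_one _).trans ?_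
            rw [abs_mul, Nat.abs_cast, mul_assoc (2 * Real.pi) d (h : ℝ)]
            have h5 : (j : ℝ) ≤ h := by exact_mod_cast hj.2
            have h6 : |θ| * j ≤ d * h :=
              mul_le_mul hθd h5 (by positivity) ((abs_nonneg _).trans hθd)
            exact mul_le_mul_of_nonneg_left h6 (by positivity)
          calc ‖ee (θ * j) - 1‖ * ‖mu (m + j)‖ ≤ ‖ee (θ * j) - 1‖ * 1 :=
                mul_le_mul_of_nonneg_left (norm_mu_le _) (norm_nonneg _)
            _ ≤ 2 * Real.pi * d * h := by rw [mul_one]; exact h4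
      _ = 2 * Real.pi * d * h * h := by
          rw [sum_const, Nat.card_Icc, Nat.add_sub_cancel, nsmul_eq_mul]
          ring

theorem GS_maj {Q d : ℝ} (hd : 0 ≤ d) (h m : ℕ) :
    GS lin mu (Maj Q d) h m ≤ EE Q h m + 2 * Real.pi * d * h * h := by
  have h0 := EE_nonneg Q h m
  rw [GS, GG]
  refine Real.iSup_le (fun i => ?_) (by positivity)
  exact ws_maj i.2 h m

/-- dyadic sums give sums from `1` on -/
theorem dyadic (D : ℕ → ℝ) (hD : ∀ m, 0 ≤ D m) (e X0 : ℝ) (he : 0 ≤ e)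
    (h : ∀ X : ℝ, X0 ≤ X → ∑ x ∈ Icc ⌈X⌉₊ ⌊2 * X⌋₊, D x ≤ e * X) :
    ∃ C : ℝ, 0 ≤ C ∧ ∀ M : ℕ, ∑ m ∈ Icc 1 M, D m ≤ 2 * e * M + C := by
  set M0 : ℕ := ⌈2 * X0⌉₊ with hM0
  refine ⟨∑ m ∈ Icc 1 M0, D m, sum_nonneg fun m _ => hD m, fun M => ?_⟩
  induction M using Nat.strong_induction_on with
  | _ M ih =>
  rcases le_or_gt M M0 with hM | hM
  · have h1 : ∑ m ∈ Icc 1 M, D m ≤ ∑ m ∈ Icc 1 M0, D m :=
      sum_le_sum_of_subset_of_nonneg (Icc_subset_Icc le_rfl hM) fun m _ _ => hD m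
    have h2 : 0 ≤ 2 * e * M := by positivity
    linarith
  · have hM1 : 1 ≤ M := by omega
    have hX : X0 ≤ (M : ℝ) / 2 := by
      have h1 : 2 * X0 ≤ M0 := Nat.le_ceil _
      have h2 : (M0 : ℝ) ≤ M := by exact_mod_cast hM.le
      linarith
    have h1 := h ((M : ℝ) / 2) hX
    have h2 : ⌊2 * ((M : ℝ) / 2)⌋₊ = M := by
      rw [show 2 * ((M : ℝ) / 2) = M by ring]
      exact Nat.floor_natCast M
    rw [h2] at h1
    set K : ℕ := ⌈(M : ℝ) / 2⌉₊ with hK
    have hK1 : 1 ≤ K := Nat.one_le_ceil_iff.2 (by positivity)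
    have hK2 : (K : ℝ) < (M : ℝ) / 2 + 1 := Nat.ceil_lt_add_one (by positivity)
    have hKM : K ≤ M := by
      apply Nat.ceil_le.2
      have : (0 : ℝ) ≤ M := by positivity
      linarith
    have h3 : ∑ m ∈ Icc 1 M, D m = ∑ m ∈ Icc 1 (K - 1), D m + ∑ m ∈ Icc K M, D m := by
      rw [← sum_union]
      · congr 1
        ext m
        rw [mem_union, mem_Icc, mem_Icc, mem_Icc]
        omega
      · rw [disjoint_left]
        intro m
        rw [mem_Icc, mem_Icc]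
        omega
    have h5 := ih (K - 1) (by omega)
    have h6 : ((K - 1 : ℕ) : ℝ) ≤ (M : ℝ) / 2 := by
      rw [Nat.cast_sub hK1]
      push_cast
      linarith
    have h7 : 2 * e * ((K - 1 : ℕ) : ℝ) ≤ 2 * e * ((M : ℝ) / 2) := by gcongr
    have h8 : 0 ≤ e * M := by positivity
    linarith

/-- partial summation -/
theorem abel (D : ℕ → ℝ) (a C : ℝ) (ha : 0 ≤ a) (hC : 0 ≤ C)
    (h : ∀ M : ℕ, ∑ m ∈ Icc 1 M, D m ≤ a * M + C) (M : ℕ) (hM : 1 ≤ M) :
    ∑ m ∈ Icc 1 M, (1 / (m : ℝ)) * D m ≤ a * (2 + Real.log M) + 2 * C := by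
  have h1 : ∀ M : ℕ, ∑ m ∈ Icc 1 M, (1 / (m : ℝ)) * D m =
      ∑ m ∈ Icc 1 M, (1 / ((m : ℝ) * (m + 1))) * ∑ k ∈ Icc 1 m, D k +
        (1 / ((M : ℝ) + 1)) * ∑ k ∈ Icc 1 M, D k := by
    intro M
    induction M with
    | zero => simp
    | succ M ih =>
      rw [sum_Icc_succ_top (by omega), ih, sum_Icc_succ_top (by omega : 1 ≤ M + 1)
        (fun m => (1 / ((m : ℝ) * (m + 1))) * ∑ k ∈ Icc 1 m, D k)]
      rw [sum_Icc_succ_top (by omega : 1 ≤ M + 1) D]
      have h2 : ((M : ℝ) + 1) ≠ 0 := by positivity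
      have h3 : ((M : ℝ) + 1 + 1) ≠ 0 := by positivity
      push_cast
      field_simp
      ring
  rw [h1 M]
  have h2 : ∑ m ∈ Icc 1 M, (1 / ((m : ℝ) * (m + 1))) * ∑ k ∈ Icc 1 m, D k ≤
      a * (1 + Real.log M) + C := by
    have h3 : ∀ m ∈ Icc 1 M, (1 / ((m : ℝ) * (m + 1))) * ∑ k ∈ Icc 1 m, D k ≤
        a * (1 / (m : ℝ)) + C * (1 / (m : ℝ) - 1 / ((m : ℝ) + 1)) := by
      intro m hm
      have hm1 : 1 ≤ m := (mem_Icc.1 hm).1
      have hm0 : (0 : ℝ) < m := by exact_mod_cast hm1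
      calc (1 / ((m : ℝ) * (m + 1))) * ∑ k ∈ Icc 1 m, D k
          ≤ (1 / ((m : ℝ) * (m + 1))) * (a * m + C) :=
            mul_le_mul_of_nonneg_left (h m) (by positivity)
        _ = a * (1 / ((m : ℝ) + 1)) + C * (1 / (m : ℝ) - 1 / ((m : ℝ) + 1)) := by
            field_simp
            ring
        _ ≤ a * (1 / (m : ℝ)) + C * (1 / (m : ℝ) - 1 / ((m : ℝ) + 1)) := by
            gcongr
            linarith
    refine (sum_le_sum h3).trans ?_
    rw [sum_add_distrib, ← mul_sum, ← mul_sum]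
    have h4 : ∀ M : ℕ, ∑ m ∈ Icc 1 M, (1 / (m : ℝ) - 1 / ((m : ℝ) + 1)) = 1 - 1 / ((M : ℝ) + 1) := by
      intro M
      induction M with
      | zero => simp
      | succ M ih =>
        rw [sum_Icc_succ_top (by omega), ih]
        push_cast
        ring
    rw [h4]
    have h5 := sum_inv_le_log M
    have h6 : C * (1 - 1 / ((M : ℝ) + 1)) ≤ C * 1 := by
      gcongr
      have : 0 ≤ 1 / ((M : ℝ) + 1) := by positivity
      linarith
    have h7 : a * ∑ m ∈ Icc 1 M, (1 / (m : ℝ)) ≤ a * (1 + Real.log M) := by gcongr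
    linarith
  have h3 : (1 / ((M : ℝ) + 1)) * ∑ k ∈ Icc 1 M, D k ≤ a + C := by
    calc (1 / ((M : ℝ) + 1)) * ∑ k ∈ Icc 1 M, D k ≤ (1 / ((M : ℝ) + 1)) * (a * M + C) :=
          mul_le_mul_of_nonneg_left (h M) (by positivity)
      _ ≤ a + C := by
          rw [one_div, inv_mul_le_iff₀ (by positivity)]
          have : (0 : ℝ) ≤ M := by positivity
          nlinarith [mul_nonneg hC this]
  linarith

/-- from windows of length `h` to windows of length `H` in logarithmic average -/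
theorem passage {ι : Type} (F : ι → ℕ → ℂ) (a : ℕ → ℂ) (hF : ∀ i n, ‖F i n‖ ≤ 1)
    (ha : ∀ n, ‖a n‖ ≤ 1) (S : Set ι) (h : ℕ) (hh : 1 ≤ h) (b C : ℝ) (hb : 0 ≤ b) (hC : 0 ≤ C)
    (hD : ∀ M : ℕ, ∑ m ∈ Icc 1 M, GS F a S h m ≤ b * M + C) (H N : ℕ) (hH : 1 ≤ H)
    (hHN : H ≤ N) :
    (h : ℝ) * ∑ n ∈ Icc 1 N, (1 / (n : ℝ)) * GS F a S H n ≤
      (2 * b * H + C) * (1 + Real.log H) + 2 * H * (b * (2 + Real.log (2 * N)) + 2 * C) +
        2 * h * h * (1 + Real.log N) := by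
  set D : ℕ → ℝ := fun m => GS F a S h m with hDd
  have hD0 : ∀ m, 0 ≤ D m := fun m => GS_nonneg F a S h m
  have hN : 1 ≤ N := hH.trans hHN
  -- step 1
  have h1 : (h : ℝ) * ∑ n ∈ Icc 1 N, (1 / (n : ℝ)) * GS F a S H n ≤
      ∑ n ∈ Icc 1 N, (1 / (n : ℝ)) * ∑ m ∈ Ico n (n + H), D m +
        2 * h * h * (1 + Real.log N) := by
    rw [mul_sum]
    calc ∑ n ∈ Icc 1 N, (h : ℝ) * ((1 / (n : ℝ)) * GS F a S H n)
        ≤ ∑ n ∈ Icc 1 N, ((1 / (n : ℝ)) * ∑ m ∈ Ico n (n + H), D m +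
            2 * h * h * (1 / (n : ℝ))) := by
          refine sum_le_sum fun n _ => ?_
          have h2 := GS_avg F a hF ha S n H h
          calc (h : ℝ) * ((1 / (n : ℝ)) * GS F a S H n) = (1 / (n : ℝ)) * (h * GS F a S H n) := by
                ring
            _ ≤ (1 / (n : ℝ)) * (∑ m ∈ Ico n (n + H), D m + 2 * h * h) :=
                mul_le_mul_of_nonneg_left h2 (by positivity)
            _ = _ := by ring
      _ = ∑ n ∈ Icc 1 N, (1 / (n : ℝ)) * ∑ m ∈ Ico n (n + H), D m +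
            2 * h * h * ∑ n ∈ Icc 1 N, (1 / (n : ℝ)) := by
          rw [sum_add_distrib, ← mul_sum]
      _ ≤ _ := by
          have := sum_inv_le_log N
          gcongr
  -- step 2
  have h2 : ∑ n ∈ Icc 1 N, (1 / (n : ℝ)) * ∑ m ∈ Ico n (n + H), D m =
      ∑ n ∈ Icc 1 H, (1 / (n : ℝ)) * ∑ m ∈ Ico n (n + H), D m +
        ∑ n ∈ Icc (H + 1) N, (1 / (n : ℝ)) * ∑ m ∈ Ico n (n + H), D m := by
    rw [← sum_union]
    · congr 1
      ext m
      rw [mem_union, mem_Icc, mem_Icc, mem_Icc]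
      omega
    · rw [disjoint_left]
      intro m
      rw [mem_Icc, mem_Icc]
      omega
  have h3 : ∑ n ∈ Icc 1 H, (1 / (n : ℝ)) * ∑ m ∈ Ico n (n + H), D m ≤
      (2 * b * H + C) * (1 + Real.log H) := by
    calc ∑ n ∈ Icc 1 H, (1 / (n : ℝ)) * ∑ m ∈ Ico n (n + H), D m
        ≤ ∑ n ∈ Icc 1 H, (1 / (n : ℝ)) * (2 * b * H + C) := by
          refine sum_le_sum fun n hn => ?_
          rw [mem_Icc] at hn
          refine mul_le_mul_of_nonneg_left ?_ (by positivity)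
          have h4 : ∑ m ∈ Ico n (n + H), D m ≤ ∑ m ∈ Icc 1 (2 * H), D m := by
            apply sum_le_sum_of_subset_of_nonneg
            · intro m hm
              rw [mem_Ico] at hm
              rw [mem_Icc]
              omega
            · intro m _ _
              exact hD0 m
          have h5 := hD (2 * H)
          push_cast at h5
          linarith
      _ = (2 * b * H + C) * ∑ n ∈ Icc 1 H, (1 / (n : ℝ)) := by rw [← sum_mul]; ring
      _ ≤ _ := mul_le_mul_of_nonneg_left (sum_inv_le_log H) (by positivity)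
  have h4 : ∑ n ∈ Icc (H + 1) N, (1 / (n : ℝ)) * ∑ m ∈ Ico n (n + H), D m ≤
      2 * H * (b * (2 + Real.log (2 * N)) + 2 * C) := by
    set f : ℕ → ℝ := fun m => (1 / (m : ℝ)) * D m with hf
    have hf0 : ∀ m, 0 ≤ f m := fun m => mul_nonneg (by positivity) (hD0 m)
    calc ∑ n ∈ Icc (H + 1) N, (1 / (n : ℝ)) * ∑ m ∈ Ico n (n + H), D m
        ≤ ∑ n ∈ Icc (H + 1) N, ∑ k ∈ range H, 2 * f (n + k) := by
          refine sum_le_sum fun n hn => ?_
          rw [mem_Icc] at hn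
          rw [sum_Ico_eq_sum_range, Nat.add_sub_cancel_left, mul_sum]
          refine sum_le_sum fun k hk => ?_
          rw [mem_range] at hk
          rw [hf]
          simp only
          have hn0 : (0 : ℝ) < n := by
            have : 0 < n := by omega
            exact_mod_cast this
          have hk2 : (k : ℝ) ≤ n := by
            have : k ≤ n := by omega
            exact_mod_cast this
          rw [← mul_assoc]
          refine mul_le_mul_of_nonneg_right ?_ (hD0 _)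
          push_cast
          rw [mul_one_div, div_le_div_iff₀ hn0 (by positivity)]
          linarith
      _ = 2 * ∑ k ∈ range H, ∑ n ∈ Icc (H + 1) N, f (n + k) := by
          rw [sum_comm, mul_sum]
          refine sum_congr rfl fun k _ => ?_
          rw [mul_sum]
      _ ≤ 2 * ∑ k ∈ range H, ∑ m ∈ Icc 1 (2 * N), f m := by
          refine mul_le_mul_of_nonneg_left (sum_le_sum fun k hk => ?_) (by norm_num)
          rw [mem_range] at hk
          exact shift_sum f hf0 (H + 1) N k (2 * N) (by omega) (by omega)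
      _ = 2 * H * ∑ m ∈ Icc 1 (2 * N), f m := by
          rw [sum_const, card_range, nsmul_eq_mul]
          ring
      _ ≤ _ := by
          have h5 := abel D b C hb hC hD (2 * N) (by omega)
          push_cast at h5
          exact mul_le_mul_of_nonneg_left h5 (by positivity)
  linarith

end Maj2

open Maj2

/-- ROW W2. -/
theorem major (h1 : MuAP) : MajorSmall := by
  classical
  intro ε Q hε
  set e : ℝ := ε / 45 with he
  have he0 : 0 < e := by positivity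
  set K : ℝ := ∑ q ∈ Icc 1 ⌊Q⌋₊, (q : ℝ) with hK
  have hK0 : 0 ≤ K := sum_nonneg fun q _ => Nat.cast_nonneg q
  have hch : ∀ q c : ℕ, 1 ≤ q → ∃ h0 : ℕ, ∀ h : ℕ, h0 ≤ h → ∃ X0 : ℝ, ∀ X : ℝ, X0 ≤ X →
      ∑ x ∈ Icc ⌈X⌉₊ ⌊2 * X⌋₊, ‖∑ j ∈ Icc 1 h, (if (x + j) % q = c % q then mu (x + j) else 0)‖
        ≤ e / (K + 1) * h * X := fun q c hq => h1 q c hq _ (by positivity)
  choose! h0 hh0 using hch
  set h : ℕ := 1 + ∑ q ∈ Icc 1 ⌊Q⌋₊, ∑ c ∈ range q, h0 q c with hh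
  have hh1 : 1 ≤ h := by omega
  have hle : ∀ q ∈ Icc 1 ⌊Q⌋₊, ∀ c ∈ range q, h0 q c ≤ h := by
    intro q hq c hc
    have e1 : h0 q c ≤ ∑ c ∈ range q, h0 q c :=
      single_le_sum (f := fun c => h0 q c) (fun _ _ => Nat.zero_le _) hc
    have e2 : ∑ c ∈ range q, h0 q c ≤ ∑ q ∈ Icc 1 ⌊Q⌋₊, ∑ c ∈ range q, h0 q c :=
      single_le_sum (f := fun q => ∑ c ∈ range q, h0 q c) (fun _ _ => Nat.zero_le _) hq
    omega
  have hX : ∀ q c : ℕ, q ∈ Icc 1 ⌊Q⌋₊ → c ∈ range q → ∃ X0 : ℝ, ∀ X : ℝ, X0 ≤ X →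
      ∑ x ∈ Icc ⌈X⌉₊ ⌊2 * X⌋₊, ‖∑ j ∈ Icc 1 h, (if (x + j) % q = c % q then mu (x + j) else 0)‖
        ≤ e / (K + 1) * h * X :=
    fun q c hq hc => hh0 q c (mem_Icc.1 hq).1 h (hle q hq c hc)
  choose! X0 hX0 using hX
  set X1 : ℝ := ∑ q ∈ Icc 1 ⌊Q⌋₊, ∑ c ∈ range q, |X0 q c| with hX1
  have hX1n : 0 ≤ X1 := sum_nonneg fun _ _ => sum_nonneg fun _ _ => abs_nonneg _
  have hX1' : ∀ q ∈ Icc 1 ⌊Q⌋₊, ∀ c ∈ range q, X0 q c ≤ X1 := by
    intro q hq c hc
    have e1 : |X0 q c| ≤ ∑ c ∈ range q, |X0 q c| :=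
      single_le_sum (f := fun c => |X0 q c|) (fun _ _ => abs_nonneg _) hc
    have e2 : ∑ c ∈ range q, |X0 q c| ≤ X1 :=
      single_le_sum (f := fun q => ∑ c ∈ range q, |X0 q c|)
        (fun _ _ => sum_nonneg fun _ _ => abs_nonneg _) hq
    exact (le_abs_self _).trans (e1.trans e2)
  have hEE : ∀ X : ℝ, X1 ≤ X → ∑ x ∈ Icc ⌈X⌉₊ ⌊2 * X⌋₊, EE Q h x ≤ e * h * X := by
    intro X hX
    have hXn : 0 ≤ X := hX1n.trans hX
    unfold EE
    rw [sum_comm]
    calc ∑ q ∈ Icc 1 ⌊Q⌋₊, ∑ x ∈ Icc ⌈X⌉₊ ⌊2 * X⌋₊, ∑ c ∈ range q,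
          ‖∑ j ∈ Icc 1 h, (if (x + j) % q = c % q then mu (x + j) else 0)‖
        ≤ ∑ q ∈ Icc 1 ⌊Q⌋₊, (q : ℝ) * (e / (K + 1) * h * X) := by
          refine sum_le_sum fun q hq => ?_
          rw [sum_comm]
          calc _ ≤ ∑ c ∈ range q, (e / (K + 1) * h * X) :=
                sum_le_sum fun c hc => hX0 q c hq hc X ((hX1' q hq c hc).trans hX)
            _ = _ := by rw [sum_const, card_range, nsmul_eq_mul]
      _ = K * (e / (K + 1) * h * X) := by rw [← sum_mul]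
      _ = (K / (K + 1)) * (e * h * X) := by ring
      _ ≤ 1 * (e * h * X) := by
          refine mul_le_mul_of_nonneg_right ?_ (by positivity)
          rw [div_le_one (by positivity)]
          linarith
      _ = e * h * X := one_mul _
  have hhr : (1 : ℝ) ≤ h := by exact_mod_cast hh1
  set d : ℝ := min 1 (e / (2 * Real.pi * h)) with hd
  have hd0 : 0 < d := lt_min one_pos (by positivity)
  have hd1 : 2 * Real.pi * d * h * h ≤ e * h := by
    have e1 : d ≤ e / (2 * Real.pi * h) := min_le_right _ _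
    rw [le_div_iff₀ (by positivity)] at e1
    nlinarith
  have hmu : ∀ n, ‖mu n‖ ≤ 1 := norm_mu_le
  have hlin : ∀ (y : ℝ) (n : ℕ), ‖lin y n‖ ≤ 1 := norm_lin
  obtain ⟨C, hC0, hC⟩ := dyadic (fun m => EE Q h m) (fun m => EE_nonneg Q h m) (e * h) X1
    (by positivity) hEE
  have hDs : ∀ M : ℕ, ∑ m ∈ Icc 1 M, GS lin mu (Maj Q d) h m ≤ 3 * e * h * M + C := by
    intro M
    calc ∑ m ∈ Icc 1 M, GS lin mu (Maj Q d) h m ≤ ∑ m ∈ Icc 1 M, (EE Q h m + e * h) := by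
          refine sum_le_sum fun m _ => (GS_maj hd0.le h m).trans ?_
          linarith
      _ = ∑ m ∈ Icc 1 M, EE Q h m + M * (e * h) := by
          rw [sum_add_distrib, sum_const, Nat.card_Icc, Nat.add_sub_cancel, nsmul_eq_mul]
      _ ≤ _ := by
          have := hC M
          linarith
  set c : ℝ := C / h with hc
  have hc0 : 0 ≤ c := by positivity
  have hCc : C = c * h := by
    rw [hc]
    field_simp
  set e1 : ℝ := 3 * e with he1
  have he10 : 0 < e1 := by positivity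
  refine ⟨d, hd0, min_le_left _ _,
    3 + ⌈Real.exp (4 * c / e1)⌉₊ + ⌈4 * h / e1⌉₊ + ⌈2 * c / e1⌉₊, fun H N hH hHN => ?_⟩
  have hH1 : 1 ≤ H := by omega
  have hp := passage lin mu hlin hmu (Maj Q d) h hh1 (3 * e * h) C (by positivity) hC0 hDs H N hH1 hHN
  have hHr : (3 : ℝ) ≤ H := by
    have : 3 ≤ H := by omega
    exact_mod_cast this
  have hNr : (H : ℝ) ≤ N := by exact_mod_cast hHN
  have hHe : Real.exp (4 * c / e1) ≤ H := by
    have : ⌈Real.exp (4 * c / e1)⌉₊ ≤ H := by omega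
    exact (Nat.le_ceil _).trans (by exact_mod_cast this)
  have hHh : 4 * h / e1 ≤ H := by
    have : ⌈4 * h / e1⌉₊ ≤ H := by omega
    exact (Nat.le_ceil _).trans (by exact_mod_cast this)
  have hHc : 2 * c / e1 ≤ H := by
    have : ⌈2 * c / e1⌉₊ ≤ H := by omega
    exact (Nat.le_ceil _).trans (by exact_mod_cast this)
  rw [div_le_iff₀ he10] at hHh hHc
  set L : ℝ := Real.log N with hL
  have hN0 : (0 : ℝ) < N := by linarith
  have hL1 : 1 ≤ L := by
    rw [hL, Real.le_log_iff_exp_le hN0]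
    have := Real.exp_one_lt_d9
    linarith
  have hLc : 4 * c ≤ e1 * L := by
    have e2 : 4 * c / e1 ≤ L := by
      rw [hL, Real.le_log_iff_exp_le hN0]
      exact hHe.trans hNr
    rw [div_le_iff₀ he10] at e2
    linarith
  have hLH : Real.log H ≤ L := Real.log_le_log (by linarith) hNr
  have hL2 : Real.log (2 * N) ≤ 1 + L := by
    rw [Real.log_mul (by norm_num) hN0.ne']
    have : Real.log 2 < 1 := by
      have := Real.log_two_lt_d9
      linarith
    linarith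
  have hH0 : (0 : ℝ) ≤ H := by linarith
  -- the final estimate
  have hfin : (h : ℝ) * ∑ n ∈ Icc 1 N, (1 / (n : ℝ)) * GS lin mu (Maj Q d) H n ≤
      h * (ε * H * L) := by
    refine hp.trans ?_
    rw [hCc]
    have g1 : (2 * (3 * e * h) * H + c * h) * (1 + Real.log H) ≤
        h * ((2 * e1 * H + c) * (2 * L)) := by
      have : (2 * (3 * e * h) * H + c * h) = h * (2 * e1 * H + c) := by rw [he1]; ring
      rw [this, mul_assoc]
      refine mul_le_mul_of_nonneg_left ?_ (by positivity)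
      refine mul_le_mul_of_nonneg_left ?_ (by positivity)
      linarith
    have g2 : 2 * H * (3 * e * h * (2 + Real.log (2 * N)) + 2 * (c * h)) ≤
        h * (2 * H * (e1 * (4 * L) + 2 * c)) := by
      have : 2 * H * (3 * e * h * (2 + Real.log (2 * N)) + 2 * (c * h)) =
          h * (2 * H * (e1 * (2 + Real.log (2 * N)) + 2 * c)) := by rw [he1]; ring
      rw [this]
      gcongr
      linarith
    have g3 : 2 * h * h * (1 + L) ≤ h * (4 * h * L) := by
      have : 2 * (h : ℝ) * h * (1 + L) = h * (2 * h * (1 + L)) := by ring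
      rw [this]
      refine mul_le_mul_of_nonneg_left ?_ (by positivity)
      nlinarith
    have g4 : (2 * e1 * H + c) * (2 * L) + 2 * H * (e1 * (4 * L) + 2 * c) + 4 * h * L ≤
        ε * H * L := by
      have g5 : c * (2 * L) ≤ e1 * H * L := by nlinarith
      have g6 : 2 * H * (2 * c) ≤ e1 * H * L := by nlinarith
      have g7 : 4 * (h : ℝ) * L ≤ e1 * H * L := by nlinarith
      have g8 : ε = 15 * e1 := by rw [he1, he]; ring
      rw [g8]
      nlinarith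
    have g9 := mul_le_mul_of_nonneg_left g4 (by positivity : (0 : ℝ) ≤ h)
    linarith
  exact le_of_mul_le_mul_left hfin (by linarith)

end Pool.Agent.WC86
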