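import Pool.Agent.Lib.WC86.MuAP
import Pool.Agent.Lib.MRF.Top
import Pool.Agent.Lib.MRF.NR

/-! N_663568 (whole circle): short sums of `λ χ` and of `μ` in progressions, without hypotheses.
helper86. -/

set_option autoImplicit false

namespace Pool.Agent.WC86

theorem shortAll : ShortAll := fun _ _ χ => MRF.shortF (MRF.cm_lamChi χ) (MRF.mrdF_lamChi χ)

theorem muAP_top : MuAP := muAP shortAll

end Pool.Agent.WC86
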