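import Pool.Agent.Lib.WC86.Zero

/-! N_663568 (whole circle): the square root law from the law outside the major arcs.  helper86. -/

set_option autoImplicit false

namespace Pool.Agent.WC86

open Finset MeasureTheory Pool.Agent.Lib.MP_663568_nt Pool.Agent.Lib.MP_663568_nt.Katai
  Pool.Agent.Lib.MP_663568_nt.Nul Pool.Agent.Lib.MP_663568_nt.H6

noncomputable section

/-- ROW W3 (helper6): the square root law outside the major arcs. -/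
def MinorLaw : Prop := ∀ ε R : ℝ, 0 < ε → 1 ≤ R → ∃ Q : ℕ, 1 ≤ Q ∧ ∀ δ : ℝ, 0 < δ → δ ≤ 1 →
  ∃ H0 : ℕ, ∀ N H : ℕ, H0 ≤ H → H ≤ N → ∀ (A : Set ℝ) (v : ℝ), 0 ≤ v →
    volume {y : ℝ | y ∈ Set.Icc 0 1 ∧ ∃ α ∈ A, ∃ b : ℤ, |α - y - b| ≤ 1 / R} ≤ ENNReal.ofReal v →
    ∑ n ∈ Icc 1 N, (1 / (n : ℝ)) *
      ⨆ y : {y : ℝ // y ∈ A ∧ ∀ q : ℕ, 1 ≤ q → q ≤ Q → ∀ b : ℤ, δ ≤ |(q : ℝ) * y - b|},
        ‖∑ h ∈ Icc 1 H, ((ArithmeticFunction.moebius (n + h) : ℤ) : ℂ) *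
          Complex.exp (2 * Real.pi * Complex.I * (y : ℝ) * h)‖ ≤
      (√(6 * v) / Real.pi + ε) * H * Real.log N

lemma window_eq (y : ℝ) (H n : ℕ) :
    ‖∑ h ∈ Icc 1 H, lin y (n + h) * mu (n + h)‖ =
      ‖∑ h ∈ Icc 1 H, ((ArithmeticFunction.moebius (n + h) : ℤ) : ℂ) *
          Complex.exp (2 * Real.pi * Complex.I * (y : ℝ) * h)‖ := by
  have e : ∑ h ∈ Icc 1 H, lin y (n + h) * mu (n + h) =
      ee (y * n) * ∑ h ∈ Icc 1 H, ((ArithmeticFunction.moebius (n + h) : ℤ) : ℂ) *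
          Complex.exp (2 * Real.pi * Complex.I * (y : ℝ) * h) := by
    rw [mul_sum]
    refine sum_congr rfl fun h _ => ?_
    have h1 : lin y (n + h) = ee (y * n) * ee (y * h) := by
      rw [lin, ← ee_add]; congr 1; push_cast; ring
    have h2 : Complex.exp (2 * Real.pi * Complex.I * (y : ℝ) * h) = ee (y * h) := by
      rw [ee]; congr 1; push_cast; ring
    rw [h1, h2, mu]
    ring
  rw [e, norm_mul, norm_ee, one_mul]

lemma outer_le_one (A : Set ℝ) (R : ℝ) :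
    volume {y : ℝ | y ∈ Set.Icc 0 1 ∧ ∃ α ∈ A, ∃ b : ℤ, |α - y - b| ≤ 1 / R} ≤ 1 := by
  refine (measure_mono (fun y hy => hy.1)).trans ?_
  rw [Real.volume_Icc]
  norm_num

theorem sqrtLaw (h1 : MinorLaw) (h2 : MajorSmall) : SqrtLaw := by
  intro ε R hε hR
  obtain ⟨Q, hQ, hm⟩ := h1 (ε / 2) R (by positivity) hR
  obtain ⟨d, hd0, hd1, H₂, h3⟩ := h2 (ε / 2) Q (by positivity)
  obtain ⟨H₁, h4⟩ := hm d hd0 hd1
  refine ⟨max H₁ H₂, fun H N hH hHN A => ?_⟩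
  have hHa : H₁ ≤ H := (le_max_left _ _).trans hH
  have hHb : H₂ ≤ H := (le_max_right _ _).trans hH
  have hvol : {y : ℝ | y ∈ Set.Icc 0 1 ∧ ∃ α ∈ InM A, ∃ b : ℤ, |α - y - b| ≤ 1 / R} =
      {y : ℝ | y ∈ Set.Icc 0 1 ∧ ∃ α ∈ A, ∃ b : ℤ, |α - y - b| ≤ 1 / R} := by
    ext y
    constructor
    · rintro ⟨h5, α, ⟨z, hz⟩, b, hb⟩
      refine ⟨h5, _, hz, b + z, ?_⟩
      rwa [show α + z - y - ((b + z : ℤ) : ℝ) = α - y - b by push_cast; ring]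
    · rintro ⟨h5, α, hα, b, hb⟩
      exact ⟨h5, α, ⟨0, by simpa using hα⟩, b, hb⟩
  have hfin : volume {y : ℝ | y ∈ Set.Icc 0 1 ∧ ∃ α ∈ InM A, ∃ b : ℤ, |α - y - b| ≤ 1 / R} ≤
      ENNReal.ofReal (outer A R) := by
    rw [hvol, outer, ENNReal.ofReal_toReal]
    exact ne_top_of_le_ne_top ENNReal.one_ne_top (outer_le_one A R)
  have key := h4 N H hHa hHN (InM A) (outer A R) ENNReal.toReal_nonneg hfin
  have hmaj := h3 H N hHb hHN
  set U : Set ℝ := {y : ℝ | y ∈ InM A ∧ ∀ q : ℕ, 1 ≤ q → q ≤ Q → ∀ b : ℤ, d ≤ |(q : ℝ) * y - b|}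
    with hU
  have hsub : InM A ⊆ U ∪ Maj Q d := by
    intro y hy
    by_cases h : y ∈ Maj Q d
    · exact Or.inr h
    · refine Or.inl ⟨hy, fun q hq1 hq2 b => ?_⟩
      by_contra hlt
      exact h ⟨q, hq1, by exact_mod_cast hq2, b, not_le.mp hlt⟩
  have e : ∀ n : ℕ, GS lin mu U H n =
      ⨆ y : {y : ℝ // y ∈ InM A ∧ ∀ q : ℕ, 1 ≤ q → q ≤ Q → ∀ b : ℤ, d ≤ |(q : ℝ) * y - b|},
        ‖∑ h ∈ Icc 1 H, ((ArithmeticFunction.moebius (n + h) : ℤ) : ℂ) *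
          Complex.exp (2 * Real.pi * Complex.I * (y : ℝ) * h)‖ := by
    intro n
    unfold GS GG
    exact iSup_congr fun y => window_eq y.1 H n
  calc ∑ n ∈ Icc 1 N, (1 / (n : ℝ)) * GS lin mu (InM A) H n ≤
      ∑ n ∈ Icc 1 N, (1 / (n : ℝ)) * GS lin mu U H n +
      ∑ n ∈ Icc 1 N, (1 / (n : ℝ)) * GS lin mu (Maj Q d) H n := by
        rw [← sum_add_distrib]
        refine sum_le_sum fun n _ => ?_
        rw [← mul_add]
        exact mul_le_mul_of_nonneg_left (GS_union _ _ _ hsub H n) (by positivity)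
    _ ≤ (√(6 * outer A R) / Real.pi + ε / 2) * H * Real.log N + ε / 2 * H * Real.log N := by
        refine add_le_add ?_ hmaj
        refine le_trans (le_of_eq ?_) key
        exact sum_congr rfl fun n _ => by rw [e n]
    _ = _ := by ring

end

end Pool.Agent.WC86
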