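import Pool.Agent.Lib.WC86.Stat

/-! N_663568 (whole circle), row W5: the zero-one inequality on the whole circle.  helper86. -/

set_option autoImplicit false

namespace Pool.Agent.WC86

open Finset MeasureTheory Pool.Agent.Lib.MP_663568_nt Pool.Agent.Lib.MP_663568_nt.Katai
  Pool.Agent.Lib.MP_663568_nt.Nul Pool.Agent.Lib.MP_663568_nt.H6

noncomputable section

lemma norm_mu_le (n : ℕ) : ‖mu n‖ ≤ 1 := by
  rw [mu, Complex.norm_intCast]
  exact_mod_cast ArithmeticFunction.abs_moebius_le_one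

lemma mult_mu : Mult mu := by
  intro p hp m hm
  have hc : Nat.Coprime p m := (Nat.Prime.coprime_iff_not_dvd hp).mpr hm
  rw [mu, mu, mu, ArithmeticFunction.isMultiplicative_moebius.map_mul_of_coprime hc]
  push_cast
  ring

lemma norm_lin_le (y : ℝ) (n : ℕ) : ‖lin y n‖ ≤ 1 := (norm_ee _).le

lemma dil_lin : DilM (σ := Fin 1) lin (fun y _ => y) (fun _ => 1) := by
  intro y d hd
  refine ⟨(d : ℝ) * y, fun n => ?_, fun s => ⟨0, ?_⟩⟩
  · unfold lin
    congr 1
    push_cast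
    ring
  · simp

/-- the set of vectors with coordinate in `A`. -/
def vec (A : Set ℝ) : Set (Fin 1 → ℝ) := {x | x 0 ∈ A}

lemma In_vec (A : Set ℝ) : In (σ := Fin 1) (fun (y : ℝ) _ => y) (vec A) = InM A := by
  ext y
  constructor
  · rintro ⟨z, hz⟩
    exact ⟨z 0, hz⟩
  · rintro ⟨b, hb⟩
    exact ⟨fun _ => b, hb⟩

lemma vol_Inn (A : Set ℝ) (R : ℝ) : (volume (Inn (vec A) R)).toReal = inner A R := by
  unfold inner
  congr 1
  rw [← (volume_preserving_funUnique (Fin 1) ℝ).measure_preimage_equiv]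
  congr 1
  ext x
  constructor
  · rintro ⟨⟨h1, h2⟩, h3⟩
    refine ⟨⟨h1 _, h2 _⟩, fun z hz => ?_⟩
    obtain ⟨b, hb⟩ := h3 (fun _ => z) (fun s => by
      rw [Subsingleton.elim s default]; exact hz)
    exact ⟨b 0, hb⟩
  · rintro ⟨⟨h1, h2⟩, h3⟩
    have e : ∀ s : Fin 1, x s = x default := fun s => by rw [Subsingleton.elim s default]
    refine ⟨⟨fun s => ?_, fun s => ?_⟩, fun y hy => ?_⟩
    · rw [e s]; exact h1
    · rw [e s]; exact h2
    · obtain ⟨b, hb⟩ := h3 (y 0) (hy 0)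
      exact ⟨fun _ => b, hb⟩

/-- the supremum over a set contained in a union. -/
lemma GS_union (S T U : Set ℝ) (hU : U ⊆ S ∪ T) (H n : ℕ) :
    GS lin mu U H n ≤ GS lin mu S H n + GS lin mu T H n := by
  have h0 : ∀ V : Set ℝ, 0 ≤ GS lin mu V H n := fun V => GG_nonneg _ _ _ _
  unfold GS GG
  refine Real.iSup_le (fun i => ?_) (add_nonneg (h0 S) (h0 T))
  rcases hU i.2 with h | h
  · have h5 := le_GG (fun i : {i // i ∈ S} => lin i.1) mu (fun i n => norm_lin_le i.1 n)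
      norm_mu_le H n ⟨i.1, h⟩
    have h6 := h0 T
    unfold GS GG at h6
    unfold GG at h5
    refine le_trans ?_ (add_le_add h5 h6)
    exact le_of_eq (by simp)
  · have h5 := le_GG (fun i : {i // i ∈ T} => lin i.1) mu (fun i n => norm_lin_le i.1 n)
      norm_mu_le H n ⟨i.1, h⟩
    have h6 := h0 S
    unfold GS GG at h6
    unfold GG at h5
    refine le_trans ?_ (add_le_add h6 h5)
    exact le_of_eq (by simp)

lemma GS_mono (S T : Set ℝ) (hU : S ⊆ T) (H n : ℕ) :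
    GS lin mu S H n ≤ GS lin mu T H n := by
  have h0 : 0 ≤ GS lin mu T H n := GG_nonneg _ _ _ _
  unfold GS GG
  refine Real.iSup_le (fun i => ?_) h0
  exact le_GG (fun i : {i // i ∈ T} => lin i.1) mu (fun i n => norm_lin_le i.1 n)
      norm_mu_le H n ⟨i.1, hU i.2⟩

lemma mnr_or_maj (Q d : ℝ) :
    (Set.univ : Set ℝ) ⊆ {y : ℝ | Mnr (σ := Fin 1) (fun _ => 1) Q d (fun _ => y)} ∪ Maj Q d := by
  intro y _
  by_cases h : y ∈ Maj Q d
  · exact Or.inr h
  refine Or.inl fun k hk hkQ _ m => ?_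
  by_contra hlt
  rw [not_le, Fin.sum_univ_one] at hlt
  apply h
  have hk0 : k 0 ≠ 0 := by
    intro h0
    apply hk
    funext s
    rw [Subsingleton.elim s 0]; exact h0
  have hq1 : 1 ≤ (k 0).natAbs := Nat.one_le_iff_ne_zero.mpr (Int.natAbs_ne_zero.mpr hk0)
  have hc : (((k 0).natAbs : ℕ) : ℝ) = |((k 0 : ℤ) : ℝ)| := by
    rw [Nat.cast_natAbs, Int.cast_abs]
  rcases lt_or_gt_of_ne hk0 with hneg | hpos
  · refine ⟨(k 0).natAbs, hq1, by rw [hc]; exact hkQ 0, -m, ?_⟩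
    have hneg' : ((k 0 : ℤ) : ℝ) < 0 := by exact_mod_cast hneg
    rw [hc, abs_of_neg hneg']
    push_cast
    have e : -((k 0 : ℤ) : ℝ) * y - -(m : ℝ) = -(((k 0 : ℤ) : ℝ) * y - m) := by ring
    rw [e, abs_neg]
    exact hlt
  · refine ⟨(k 0).natAbs, hq1, by rw [hc]; exact hkQ 0, m, ?_⟩
    have hpos' : (0 : ℝ) < ((k 0 : ℤ) : ℝ) := by exact_mod_cast hpos
    rw [hc, abs_of_pos hpos']
    exact hlt

lemma inner_nonneg (A : Set ℝ) (R : ℝ) : 0 ≤ inner A R := ENNReal.toReal_nonneg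

lemma inner_le_one (A : Set ℝ) (R : ℝ) : inner A R ≤ 1 := by
  unfold inner
  refine ENNReal.toReal_le_of_le_ofReal zero_le_one ?_
  refine (measure_mono (fun y hy => hy.1)).trans ?_
  rw [Real.volume_Icc]
  norm_num

/-- ROW W5. -/
theorem zeroOneAll (h2 : MajorSmall) : ZeroOneAll := by
  intro η R hη hR
  obtain ⟨c, hc, C, H₁, h⟩ := zero_oneq (σ := Fin 1) (fun _ => 1) (fun _ => le_rfl) (η / 2)
    (by positivity)
  obtain ⟨d, hd0, hd1, H₂, h3⟩ := h2 (η / 2) (C * R ^ C) (by positivity)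
  have hlim : ∀ᶠ H : ℕ in Filter.atTop, R / d ≤ (H : ℝ) ^ c :=
    ((tendsto_rpow_atTop hc).comp tendsto_natCast_atTop_atTop).eventually_ge_atTop _
  obtain ⟨H₃, hH₃⟩ := Filter.eventually_atTop.mp hlim
  refine ⟨max (max H₁ H₂) (max H₃ 1), fun H N hH hHN A κ hκ => ?_⟩
  have hHa : H₁ ≤ H := ((le_max_left _ _).trans (le_max_left _ _)).trans hH
  have hHb : H₂ ≤ H := ((le_max_right _ _).trans (le_max_left _ _)).trans hH
  have hHc : H₃ ≤ H := ((le_max_left _ _).trans (le_max_right _ _)).trans hH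
  have hHd : 1 ≤ H := ((le_max_right _ _).trans (le_max_right _ _)).trans hH
  have hH1 : (1 : ℝ) ≤ H := by exact_mod_cast hHd
  have key := h ℝ lin (fun y _ => y) mu norm_lin_le norm_mu_le mult_mu dil_lin N H hHa hHN R d hR
    hd0 hd1 (hH₃ H hHc) (vec A) κ (fun L hL1 hL2 => by
      rw [In_vec]
      refine hκ L (le_trans ?_ hL1) hL2
      exact Real.rpow_le_rpow_of_exponent_le hH1 (by linarith))
  rw [vol_Inn] at key
  have hmaj := h3 H N hHb hHN
  have hsplit : ∑ n ∈ Icc 1 N, (1 / (n : ℝ)) * GS lin mu Set.univ H n ≤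
      ∑ n ∈ Icc 1 N, (1 / (n : ℝ)) *
        GS lin mu {y : ℝ | Mnr (σ := Fin 1) (fun _ => 1) (C * R ^ C) d (fun _ => y)} H n +
      ∑ n ∈ Icc 1 N, (1 / (n : ℝ)) * GS lin mu (Maj (C * R ^ C) d) H n := by
    rw [← sum_add_distrib]
    refine sum_le_sum fun n _ => ?_
    rw [← mul_add]
    exact mul_le_mul_of_nonneg_left (GS_union _ _ _ (mnr_or_maj _ _) H n) (by positivity)
  have hin0 := inner_nonneg A R
  have hin1 := inner_le_one A R
  have hmaj0 : 0 ≤ ∑ n ∈ Icc 1 N, (1 / (n : ℝ)) * GS lin mu (Maj (C * R ^ C) d) H n :=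
    sum_nonneg fun n _ => mul_nonneg (by positivity) (GG_nonneg _ _ _ _)
  calc inner A R * ∑ n ∈ Icc 1 N, (1 / (n : ℝ)) * GS lin mu Set.univ H n ≤
      inner A R * (∑ n ∈ Icc 1 N, (1 / (n : ℝ)) *
        GS lin mu {y : ℝ | Mnr (σ := Fin 1) (fun _ => 1) (C * R ^ C) d (fun _ => y)} H n +
      ∑ n ∈ Icc 1 N, (1 / (n : ℝ)) * GS lin mu (Maj (C * R ^ C) d) H n) :=
        mul_le_mul_of_nonneg_left hsplit hin0
    _ ≤ (κ + η / 2) * H * Real.log N + 1 * (η / 2 * H * Real.log N) := by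
        rw [mul_add]
        refine add_le_add key ?_
        exact (mul_le_mul_of_nonneg_right hin1 hmaj0).trans
          (mul_le_mul_of_nonneg_left hmaj zero_le_one)
    _ = _ := by ring

end

end Pool.Agent.WC86
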