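import Pool.Agent.Lib.WC86.Fin

/-! N_663568 (whole circle): the final form for the symmetrised set (idea of helper89: folding).
helper86. -/

set_option autoImplicit false

namespace Pool.Agent.WC86

open Finset MeasureTheory Pool.Agent.Lib.MP_663568_nt Pool.Agent.Lib.MP_663568_nt.Katai
  Pool.Agent.Lib.MP_663568_nt.Nul Pool.Agent.Lib.MP_663568_nt.H6

noncomputable section

/-- `A ∪ (-A)`. -/
def Sy (A : Set ℝ) : Set ℝ := {y | y ∈ A ∨ -y ∈ A}

lemma lin_neg (y : ℝ) (n : ℕ) : lin (-y) n = star (lin y n) := by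
  unfold lin ee
  rw [Complex.star_def, ← Complex.exp_conj]
  congr 1
  have h2 : (starRingEnd ℂ) 2 = 2 := map_ofNat (starRingEnd ℂ) 2
  simp [Complex.conj_ofReal, h2]

lemma mu_real (n : ℕ) : star (mu n) = mu n := by
  unfold mu
  simp

lemma ws_neg (y : ℝ) (H n : ℕ) :
    ‖∑ h ∈ Icc 1 H, lin (-y) (n + h) * mu (n + h)‖ =
      ‖∑ h ∈ Icc 1 H, lin y (n + h) * mu (n + h)‖ := by
  have e : ∑ h ∈ Icc 1 H, lin (-y) (n + h) * mu (n + h) =
      star (∑ h ∈ Icc 1 H, lin y (n + h) * mu (n + h)) := by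
    rw [star_sum]
    refine sum_congr rfl fun h _ => ?_
    rw [star_mul', lin_neg, mu_real]
  rw [e, norm_star]

lemma GS_of_sub {S T : Set ℝ} (h : ∀ y ∈ S, ∃ z ∈ T, ∀ H n : ℕ,
    ‖∑ h ∈ Icc 1 H, lin y (n + h) * mu (n + h)‖ ≤ ‖∑ h ∈ Icc 1 H, lin z (n + h) * mu (n + h)‖)
    (H n : ℕ) : GS lin mu S H n ≤ GS lin mu T H n := by
  have h0 : 0 ≤ GS lin mu T H n := GG_nonneg _ _ _ _
  unfold GS GG
  refine Real.iSup_le (fun i => ?_) h0
  obtain ⟨z, hz, hzz⟩ := h i.1 i.2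
  refine (hzz H n).trans ?_
  exact le_GG (fun i : {i // i ∈ T} => lin i.1) mu (fun i n => norm_lin_le i.1 n)
      norm_mu_le H n ⟨z, hz⟩

lemma Avg_of_sub {S T : Set ℝ} (h : ∀ y ∈ S, ∃ z ∈ T, ∀ H n : ℕ,
    ‖∑ h ∈ Icc 1 H, lin y (n + h) * mu (n + h)‖ ≤ ‖∑ h ∈ Icc 1 H, lin z (n + h) * mu (n + h)‖)
    (N H : ℕ) : Avg S N H ≤ Avg T N H := by
  rw [Avg_eq, Avg_eq]
  exact sum_le_sum fun n _ => mul_le_mul_of_nonneg_left (GS_of_sub h H n) (by positivity)

lemma Avg_Sy (A : Set ℝ) (N H : ℕ) : Avg (Sy A) N H ≤ Avg A N H := by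
  refine Avg_of_sub (fun y hy => ?_) N H
  rcases hy with h | h
  · exact ⟨y, h, fun H n => le_rfl⟩
  · exact ⟨-y, h, fun H n => (ws_neg y H n).ge⟩

/-- the folded set. -/
def Fo (A : Set ℝ) : Set ℝ := {y | y ∈ Set.Icc 0 (1 / 2) ∧ ∃ b : ℤ, y + b ∈ Sy A}

lemma Avg_Fo (A : Set ℝ) (N H : ℕ) : Avg A N H ≤ Avg (Fo A) N H := by
  refine Avg_of_sub (fun y hy => ?_) N H
  have h0 := Int.fract_nonneg y
  have h1 := Int.fract_lt_one y
  rcases le_or_gt (Int.fract y) (1 / 2) with h | h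
  · refine ⟨Int.fract y, ⟨⟨h0, h⟩, ⌊y⌋, ?_⟩, fun H n => ?_⟩
    · rw [Int.fract_add_floor]; exact Or.inl hy
    · have e : ∀ m, lin y m = lin (Int.fract y) m := fun m => by
        rw [← lin_add_int (Int.fract y) ⌊y⌋ m, Int.fract_add_floor]
      simp only [e]; exact le_rfl
  · refine ⟨1 - Int.fract y, ⟨⟨by linarith, by linarith⟩, -⌊y⌋ - 1, ?_⟩, fun H n => ?_⟩
    · have e : 1 - Int.fract y + ((-⌊y⌋ - 1 : ℤ) : ℝ) = -y := by
        rw [Int.fract]; push_cast; ring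
      rw [e]
      exact Or.inr (by simpa using hy)
    · have e : ∀ m, lin (1 - Int.fract y) m = lin (-y) m := fun m => by
        rw [← lin_add_int (1 - Int.fract y) (-⌊y⌋ - 1) m]
        congr 1
        rw [Int.fract]; push_cast; ring
      simp only [e]
      exact (ws_neg y H n).ge

lemma outer_Fo (A : Set ℝ) (R R' : ℝ) (hR : 1 ≤ R) (hR' : R ≤ R') (hR4 : 4 ≤ R') :
    outer (Fo A) R' ≤ outer (Sy A) R / 2 + 2 / R' := by
  have hR0 : 0 < R' := by linarith
  have hRR : 1 / R' ≤ 1 / R := one_div_le_one_div_of_le (by linarith) hR'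
  have hq : 1 / R' ≤ 1 / 4 := one_div_le_one_div_of_le (by norm_num) hR4
  have hq0 : 0 < 1 / R' := by positivity
  set X : Set ℝ := {x : ℝ | x ∈ Set.Icc 0 1 ∧ ∃ α ∈ Fo A, ∃ b : ℤ, |α - x - b| ≤ 1 / R'} with hX
  set Y : Set ℝ := {x : ℝ | x ∈ Set.Icc 0 1 ∧ ∃ α ∈ Sy A, ∃ b : ℤ, |α - x - b| ≤ 1 / R} with hY
  set X1 : Set ℝ := X ∩ Set.Iio (1 / 2) with hX1
  have hfinY : volume Y ≠ ⊤ := by
    refine ne_top_of_le_ne_top ENNReal.one_ne_top ?_
    refine (measure_mono (fun y hy => hy.1)).trans ?_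
    rw [Real.volume_Icc]; norm_num
  have hXY : ∀ x ∈ X1, x ∈ Y ∧ 1 - x ∈ Y := by
    rintro x ⟨⟨⟨hx0, hx1⟩, α, ⟨_, b', hb'⟩, b, hb⟩, hx2⟩
    rw [Set.mem_Iio] at hx2
    refine ⟨⟨⟨hx0, hx1⟩, _, hb', b + b', ?_⟩, ⟨⟨by linarith, by linarith⟩, -(α + b'), ?_,
      -b - b' - 1, ?_⟩⟩
    · rw [show α + b' - x - ((b + b' : ℤ) : ℝ) = α - x - b by push_cast; ring]
      exact hb.trans hRR
    · rcases hb' with h | h
      · exact Or.inr (by simpa using h)
      · exact Or.inl h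
    · rw [show -(α + (b' : ℝ)) - (1 - x) - ((-b - b' - 1 : ℤ) : ℝ) = -(α - x - b) by
        push_cast; ring, abs_neg]
      exact hb.trans hRR
  -- twice the measure of `X1`
  have hsub1 : X1 ∪ (fun x => 1 - x) '' X1 ⊆ Y := by
    rintro x (hx | ⟨x', hx', rfl⟩)
    · exact (hXY x hx).1
    · exact (hXY x' hx').2
  have hmeas : NullMeasurableSet (Set.Iio (1 / 2 : ℝ)) volume := measurableSet_Iio.nullMeasurableSet
  have h2 : volume X1 + volume X1 ≤ volume Y := by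
    have e1 : volume (X1) = volume ((fun x => 1 - x) '' X1) := by
      have : (fun x : ℝ => 1 - x) '' X1 = (fun x => 1 - x) ⁻¹' X1 := by
        ext z; constructor
        · rintro ⟨w, hw, rfl⟩
          change 1 - (1 - w) ∈ X1
          rwa [sub_sub_cancel]
        · intro hz
          exact ⟨1 - z, hz, sub_sub_cancel _ _⟩
      rw [this]
      have e2 : (fun x : ℝ => 1 - x) ⁻¹' X1 = Neg.neg ⁻¹' ((fun x : ℝ => 1 + x) ⁻¹' X1) := by
        ext z
        simp only [Set.mem_preimage, sub_eq_add_neg]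
      rw [e2, Measure.measure_preimage_neg, measure_preimage_add]
    have hd : volume (Y ∩ Set.Iio (1 / 2)) + volume (Y \ Set.Iio (1 / 2)) = volume Y :=
      measure_inter_add_sdiff _ measurableSet_Iio
    have i1 : volume X1 ≤ volume (Y ∩ Set.Iio (1 / 2)) :=
      measure_mono fun x hx => ⟨hsub1 (Or.inl hx), hx.2⟩
    have i2 : volume ((fun x => 1 - x) '' X1) ≤ volume (Y \ Set.Iio (1 / 2)) := by
      refine measure_mono ?_
      rintro x ⟨x', hx', rfl⟩
      refine ⟨hsub1 (Or.inr ⟨x', hx', rfl⟩), fun hlt => ?_⟩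
      have h5 : x' < 1 / 2 := hx'.2
      have h6 : 1 - x' < 1 / 2 := hlt
      linarith
    calc volume X1 + volume X1 = volume X1 + volume ((fun x => 1 - x) '' X1) := by rw [← e1]
      _ ≤ volume (Y ∩ Set.Iio (1 / 2)) + volume (Y \ Set.Iio (1 / 2)) := add_le_add i1 i2
      _ = _ := hd
  have hsubX : X ⊆ X1 ∪ (Set.Icc (1 / 2) (1 / 2 + 1 / R') ∪ Set.Icc (1 - 1 / R') 1) := by
    rintro x ⟨⟨hx0, hx1⟩, α, hα, b, hb⟩
    rcases lt_or_ge x (1 / 2) with h | h
    · exact Or.inl ⟨⟨⟨hx0, hx1⟩, α, hα, b, hb⟩, h⟩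
    refine Or.inr ?_
    obtain ⟨⟨ha0, ha1⟩, _⟩ := hα
    rw [abs_le] at hb
    have hb1 : (b : ℝ) < 1 := by linarith
    have hb2 : (-2 : ℝ) < b := by linarith
    have hb3 : b < 1 := by exact_mod_cast hb1
    have hb4 : -2 < b := by exact_mod_cast hb2
    have hb5 : b = 0 ∨ b = -1 := by omega
    rcases hb5 with rfl | rfl
    · left
      rw [Int.cast_zero] at hb
      exact ⟨h, by linarith⟩
    · right
      push_cast at hb
      exact ⟨by linarith, hx1⟩
  have hXfin : volume X ≤ volume X1 + ENNReal.ofReal (2 / R') := by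
    calc volume X ≤ volume (X1 ∪ (Set.Icc (1 / 2) (1 / 2 + 1 / R') ∪ Set.Icc (1 - 1 / R') 1)) :=
          measure_mono hsubX
      _ ≤ volume X1 + (volume (Set.Icc (1 / 2 : ℝ) (1 / 2 + 1 / R')) +
            volume (Set.Icc (1 - 1 / R') (1 : ℝ))) :=
          (measure_union_le _ _).trans (add_le_add le_rfl (measure_union_le _ _))
      _ = _ := by
          rw [Real.volume_Icc, Real.volume_Icc, ← ENNReal.ofReal_add (by linarith) (by linarith)]
          congr 2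
          ring
  have hX1fin : volume X1 ≠ ⊤ := ne_top_of_le_ne_top hfinY
    ((measure_mono (fun x hx => hsub1 (Or.inl hx))).trans le_rfl)
  have h3 : (volume X).toReal ≤ (volume X1).toReal + 2 / R' := by
    have := ENNReal.toReal_mono (ENNReal.add_ne_top.mpr ⟨hX1fin, ENNReal.ofReal_ne_top⟩) hXfin
    rwa [ENNReal.toReal_add hX1fin ENNReal.ofReal_ne_top,
      ENNReal.toReal_ofReal (by positivity)] at this
  have h4 : (volume X1).toReal + (volume X1).toReal ≤ (volume Y).toReal := by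
    have := ENNReal.toReal_mono hfinY h2
    rwa [ENNReal.toReal_add hX1fin hX1fin] at this
  change (volume X).toReal ≤ (volume Y).toReal / 2 + 2 / R'
  linarith

/-- the final form for symmetrised sets. -/
theorem finalS (h1 : MinorLaw) (h2 : MajorSmall) (ε R : ℝ) (hε : 0 < ε) (hR : 1 ≤ R) :
    ∃ H0 : ℕ, ∀ H N : ℕ, H0 ≤ H → H ≤ N → ∀ A : Set ℝ,
      Avg A N H ≤ (√(3 * outer (Sy A) R) / Real.pi + ε) * H * Real.log N ∧
      ∃ L : ℕ, (H : ℝ) ^ (1 - ε) ≤ L ∧ L ≤ H ∧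
        inner (Sy A) R * Avg Set.univ N H / H - ε * Real.log N ≤ Avg A N L / L := by
  set R' : ℝ := max (max R 4) (12 / (ε / 2) ^ 2) with hR'
  have hR'R : R ≤ R' := (le_max_left _ _).trans (le_max_left _ _)
  have hR'4 : 4 ≤ R' := (le_max_right _ _).trans (le_max_left _ _)
  have hR'e : 12 / (ε / 2) ^ 2 ≤ R' := le_max_right _ _
  have hR'0 : 0 < R' := by linarith
  obtain ⟨Ha, ha⟩ := final h1 h2 (ε / 2) R' (by positivity) (by linarith)
  obtain ⟨Hb, hb⟩ := final h1 h2 ε R hε hR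
  refine ⟨max (max Ha Hb) 1, fun H N hH hHN A => ⟨?_, ?_⟩⟩
  · have h5 := (ha H N (((le_max_left _ _).trans (le_max_left _ _)).trans hH) hHN (Fo A)).1
    refine (Avg_Fo A N H).trans (h5.trans ?_)
    have hH1 : 1 ≤ H := (le_max_right _ _).trans hH
    have hN1 : (1 : ℝ) ≤ N := by exact_mod_cast hH1.trans hHN
    have hlog : 0 ≤ Real.log N := Real.log_nonneg hN1
    have h6 := outer_Fo A R R' hR hR'R hR'4
    have h7 : √(6 * outer (Fo A) R') ≤ √(3 * outer (Sy A) R) + ε / 2 := by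
      have h0 : 0 ≤ outer (Sy A) R := ENNReal.toReal_nonneg
      have h8 : 6 * outer (Fo A) R' ≤ 3 * outer (Sy A) R + 12 / R' := by
        have e : 12 / R' = 6 * (2 / R') := by ring
        rw [e]; linarith
      have h9 : 12 / R' ≤ (ε / 2) ^ 2 := by
        rw [div_le_iff₀ hR'0]
        rw [div_le_iff₀ (by positivity)] at hR'e
        linarith
      calc √(6 * outer (Fo A) R') ≤ √(3 * outer (Sy A) R + (ε / 2) ^ 2) :=
            Real.sqrt_le_sqrt (by linarith)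
        _ ≤ √(3 * outer (Sy A) R) + ε / 2 := by
            have h11 : 0 ≤ 3 * outer (Sy A) R := by positivity
            have h12 := Real.sq_sqrt h11
            have h13 := Real.sqrt_nonneg (3 * outer (Sy A) R)
            exact Real.sqrt_le_iff.mpr ⟨by positivity, by nlinarith⟩
    have hpi : (1 : ℝ) ≤ Real.pi := by linarith [Real.pi_gt_three]
    have h10 : √(6 * outer (Fo A) R') / Real.pi + ε / 2 ≤ √(3 * outer (Sy A) R) / Real.pi + ε := by
      have h11 : √(6 * outer (Fo A) R') / Real.pi ≤ (√(3 * outer (Sy A) R) + ε / 2) / Real.pi := by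
        gcongr
      have h12 : ε / 2 / Real.pi ≤ ε / 2 := div_le_self (by positivity) hpi
      rw [add_div] at h11
      linarith
    gcongr
  · obtain ⟨L, hL1, hL2, hL3⟩ :=
      (hb H N (((le_max_right _ _).trans (le_max_left _ _)).trans hH) hHN (Sy A)).2
    refine ⟨L, hL1, hL2, hL3.trans ?_⟩
    exact div_le_div_of_nonneg_right (Avg_Sy A N L) (Nat.cast_nonneg _)

end

end Pool.Agent.WC86
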