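import Pool.Agent.Lib.WC86.Stat

/-! ROW W1: short sums of `μ` in progressions from short sums of `λ χ`.  helper92. -/

set_option autoImplicit false

namespace Pool.Agent.WC86

open Finset Pool.Agent.MRF

/-! ### Closure properties of `ShortF` -/

theorem shortF_congr {F G : ℕ → ℂ} (hF : ShortF F) (h : ∀ n, 1 ≤ n → F n = G n) : ShortF G := by
  intro ε hε
  obtain ⟨h0, H⟩ := hF ε hε
  refine ⟨h0, fun h' hh' => ?_⟩
  obtain ⟨X0, H2⟩ := H h' hh'
  refine ⟨X0, fun X hX => ?_⟩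
  have e : ∑ x ∈ Icc ⌈X⌉₊ ⌊2 * X⌋₊, ‖∑ j ∈ Icc 1 h', G (x + j)‖
      = ∑ x ∈ Icc ⌈X⌉₊ ⌊2 * X⌋₊, ‖∑ j ∈ Icc 1 h', F (x + j)‖ := by
    refine sum_congr rfl fun x _ => ?_
    congr 1
    refine sum_congr rfl fun j hj => (h _ ?_).symm
    have := (mem_Icc.1 hj).1
    omega
  rw [e]
  exact H2 X hX

theorem shortF_zero : ShortF (fun _ => 0) := by
  intro ε hε
  refine ⟨0, fun h _ => ⟨0, fun X hX => ?_⟩⟩
  simp only [sum_const_zero, norm_zero]
  positivity

theorem shortF_add {F G : ℕ → ℂ} (hF : ShortF F) (hG : ShortF G) :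
    ShortF (fun n => F n + G n) := by
  intro ε hε
  obtain ⟨h1, H1⟩ := hF (ε / 2) (by positivity)
  obtain ⟨h2, H2⟩ := hG (ε / 2) (by positivity)
  refine ⟨max h1 h2, fun h hh => ?_⟩
  obtain ⟨X1, K1⟩ := H1 h ((le_max_left _ _).trans hh)
  obtain ⟨X2, K2⟩ := H2 h ((le_max_right _ _).trans hh)
  refine ⟨max X1 X2, fun X hX => ?_⟩
  have a1 := K1 X ((le_max_left _ _).trans hX)
  have a2 := K2 X ((le_max_right _ _).trans hX)
  calc ∑ x ∈ Icc ⌈X⌉₊ ⌊2 * X⌋₊, ‖∑ j ∈ Icc 1 h, (F (x + j) + G (x + j))‖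
      ≤ ∑ x ∈ Icc ⌈X⌉₊ ⌊2 * X⌋₊,
        (‖∑ j ∈ Icc 1 h, F (x + j)‖ + ‖∑ j ∈ Icc 1 h, G (x + j)‖) := by
        refine sum_le_sum fun x _ => ?_
        rw [sum_add_distrib]
        exact norm_add_le _ _
    _ ≤ ε * h * X := by
        rw [sum_add_distrib]
        linarith

theorem shortF_smul {F : ℕ → ℂ} (hF : ShortF F) (c : ℂ) : ShortF (fun n => c * F n) := by
  intro ε hε
  obtain ⟨h1, H1⟩ := hF (ε / (‖c‖ + 1)) (by positivity)
  refine ⟨h1, fun h hh => ?_⟩
  obtain ⟨X1, K1⟩ := H1 h hh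
  refine ⟨max X1 0, fun X hX => ?_⟩
  have a1 := K1 X ((le_max_left _ _).trans hX)
  have hX0 : 0 ≤ X := (le_max_right _ _).trans hX
  have e : ∑ x ∈ Icc ⌈X⌉₊ ⌊2 * X⌋₊, ‖∑ j ∈ Icc 1 h, c * F (x + j)‖
      = ‖c‖ * ∑ x ∈ Icc ⌈X⌉₊ ⌊2 * X⌋₊, ‖∑ j ∈ Icc 1 h, F (x + j)‖ := by
    rw [mul_sum]
    refine sum_congr rfl fun x _ => ?_
    rw [← mul_sum, norm_mul]
  rw [e]
  calc ‖c‖ * ∑ x ∈ Icc ⌈X⌉₊ ⌊2 * X⌋₊, ‖∑ j ∈ Icc 1 h, F (x + j)‖
      ≤ ‖c‖ * (ε / (‖c‖ + 1) * h * X) := mul_le_mul_of_nonneg_left a1 (norm_nonneg _)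
    _ = ‖c‖ / (‖c‖ + 1) * (ε * h * X) := by ring
    _ ≤ 1 * (ε * h * X) := by
        refine mul_le_mul_of_nonneg_right ?_ (by positivity)
        rw [div_le_one (by positivity)]
        linarith
    _ = ε * h * X := one_mul _

theorem shortF_sum {ι : Type*} (s : Finset ι) (F : ι → ℕ → ℂ) (hF : ∀ i ∈ s, ShortF (F i)) :
    ShortF (fun n => ∑ i ∈ s, F i n) := by
  classical
  induction s using Finset.induction_on with
  | empty => simpa using shortF_zero
  | insert a s ha ih =>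
    have h1 := shortF_add (hF a (mem_insert_self a s))
      (ih fun i hi => hF i (mem_insert_of_mem hi))
    refine shortF_congr h1 fun n _ => ?_
    rw [sum_insert ha]

/-- `F` is short as soon as it is approximated in mean by short functions. -/
theorem shortF_approx {F : ℕ → ℂ}
    (h : ∀ ε : ℝ, 0 < ε → ∃ G : ℕ → ℂ, ShortF G ∧ ∃ X1 : ℕ, ∀ N : ℕ, X1 ≤ N →
      ∑ n ∈ Icc 1 N, ‖F n - G n‖ ≤ ε * N) : ShortF F := by
  intro ε hε
  obtain ⟨G, hG, X1, hX1⟩ := h (ε / 6) (by positivity)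
  obtain ⟨h0, H⟩ := hG (ε / 2) (by positivity)
  refine ⟨h0, fun k hk => ?_⟩
  obtain ⟨X0, H2⟩ := H k hk
  refine ⟨max (max X0 X1) (max k 1), fun X hX => ?_⟩
  have hX0 : X0 ≤ X := ((le_max_left _ _).trans (le_max_left _ _)).trans hX
  have hX1' : (X1 : ℝ) ≤ X := ((le_max_right _ _).trans (le_max_left _ _)).trans hX
  have hXk : (k : ℝ) ≤ X := ((le_max_left _ _).trans (le_max_right _ _)).trans hX
  have hX1'' : (1 : ℝ) ≤ X := ((le_max_right _ _).trans (le_max_right _ _)).trans hX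
  have a1 := H2 X hX0
  set N : ℕ := ⌊2 * X⌋₊ + k with hN
  have hNX : (N : ℝ) ≤ 3 * X := by
    have : ((⌊2 * X⌋₊ : ℕ) : ℝ) ≤ 2 * X := Nat.floor_le (by linarith)
    rw [hN]; push_cast; linarith
  have hNX1 : X1 ≤ N := by
    have : X1 ≤ ⌊2 * X⌋₊ := Nat.le_floor (by linarith)
    omega
  have a2 := hX1 N hNX1
  have key : ∑ x ∈ Icc ⌈X⌉₊ ⌊2 * X⌋₊, ‖∑ j ∈ Icc 1 k, F (x + j)‖
      ≤ ∑ x ∈ Icc ⌈X⌉₊ ⌊2 * X⌋₊, ‖∑ j ∈ Icc 1 k, G (x + j)‖
        + ∑ x ∈ Icc ⌈X⌉₊ ⌊2 * X⌋₊, ∑ j ∈ Icc 1 k, ‖F (x + j) - G (x + j)‖ := by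
    rw [← sum_add_distrib]
    refine sum_le_sum fun x _ => ?_
    have e : ∑ j ∈ Icc 1 k, F (x + j)
        = ∑ j ∈ Icc 1 k, G (x + j) + ∑ j ∈ Icc 1 k, (F (x + j) - G (x + j)) := by
      rw [← sum_add_distrib]
      refine sum_congr rfl fun j _ => by ring
    rw [e]
    exact (norm_add_le _ _).trans (add_le_add le_rfl (norm_sum_le _ _))
  have a3 : ∑ x ∈ Icc ⌈X⌉₊ ⌊2 * X⌋₊, ∑ j ∈ Icc 1 k, ‖F (x + j) - G (x + j)‖
      ≤ k * ∑ n ∈ Icc 1 N, ‖F n - G n‖ := by
    rw [sum_comm]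
    have : ∀ j ∈ Icc 1 k, ∑ x ∈ Icc ⌈X⌉₊ ⌊2 * X⌋₊, ‖F (x + j) - G (x + j)‖
        ≤ ∑ n ∈ Icc 1 N, ‖F n - G n‖ := by
      intro j hj
      have hj' := mem_Icc.1 hj
      have e : ∑ x ∈ Icc ⌈X⌉₊ ⌊2 * X⌋₊, ‖F (x + j) - G (x + j)‖
          = ∑ n ∈ (Icc ⌈X⌉₊ ⌊2 * X⌋₊).image (fun x => x + j), ‖F n - G n‖ := by
        rw [sum_image]
        intro x _ y _ hxy
        simpa using hxy
      rw [e]
      refine sum_le_sum_of_subset_of_nonneg ?_ fun _ _ _ => norm_nonneg _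
      intro n hn
      rw [mem_image] at hn
      obtain ⟨x, hx, rfl⟩ := hn
      rw [mem_Icc] at hx ⊢
      omega
    refine (sum_le_sum this).trans (le_of_eq ?_)
    rw [sum_const, Nat.card_Icc, nsmul_eq_mul]
    simp
  have hk0 : (0 : ℝ) ≤ k := Nat.cast_nonneg k
  have a4 : (k : ℝ) * ∑ n ∈ Icc 1 N, ‖F n - G n‖ ≤ k * (ε / 6 * (3 * X)) := by
    refine mul_le_mul_of_nonneg_left (a2.trans ?_) hk0
    exact mul_le_mul_of_nonneg_left hNX (by positivity)
  calc ∑ x ∈ Icc ⌈X⌉₊ ⌊2 * X⌋₊, ‖∑ j ∈ Icc 1 k, F (x + j)‖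
      ≤ ε / 2 * k * X + k * (ε / 6 * (3 * X)) := by linarith
    _ = ε * k * X := by ring

/-- dilation by `g`. -/
theorem shortF_dilate {F : ℕ → ℂ} (hF : ShortF F) (hb : ∀ n, ‖F n‖ ≤ 1) (g : ℕ) (hg : 1 ≤ g) :
    ShortF (fun n => if g ∣ n then F (n / g) else 0) := by
  intro ε hε
  have hg' : (0 : ℝ) < g := by exact_mod_cast hg
  have hg1 : (1 : ℝ) ≤ g := by exact_mod_cast hg
  obtain ⟨h0, H⟩ := hF (ε / 4) (by positivity)
  refine ⟨max (g * (h0 + 1)) ⌈8 / ε⌉₊, fun h hh => ?_⟩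
  have hh1 : g * (h0 + 1) ≤ h := (le_max_left _ _).trans hh
  have hh2 : 8 / ε ≤ (h : ℝ) := by
    have := (le_max_right _ _).trans hh
    exact Nat.ceil_le.1 this
  have hhg : h0 ≤ h / g := by
    rw [Nat.le_div_iff_mul_le (by omega)]
    nlinarith
  obtain ⟨X0, H2⟩ := H (h / g) hhg
  refine ⟨max (g * X0) (max (4 / ε) g), fun X hX => ?_⟩
  have hX0 : (g : ℝ) * X0 ≤ X := (le_max_left _ _).trans hX
  have hX1 : 4 / ε ≤ X := ((le_max_left _ _).trans (le_max_right _ _)).trans hX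
  have hX2 : (g : ℝ) ≤ X := ((le_max_right _ _).trans (le_max_right _ _)).trans hX
  have hXp : 0 < X := by linarith
  have hX1p : 1 ≤ X := by linarith
  set h' := h / g with hh'
  have hh'le : (h' : ℝ) ≤ h / g := Nat.cast_div_le
  -- the inner sum
  set T : ℕ → ℝ := fun y => ‖∑ j ∈ Icc 1 h', F (y + j)‖ with hT
  have hTle : ∀ y, T y ≤ h' := by
    intro y
    rw [hT]
    refine (norm_sum_le _ _).trans ?_
    refine (sum_le_sum fun j _ => hb (y + j)).trans ?_
    rw [sum_const, Nat.card_Icc, nsmul_eq_mul]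
    simp
  have inner : ∀ x : ℕ, ‖∑ j ∈ Icc 1 h, (if g ∣ x + j then F ((x + j) / g) else 0)‖
      ≤ T (x / g) + 1 := by
    intro x
    have e1 : ∑ j ∈ Icc 1 h, (if g ∣ x + j then F ((x + j) / g) else 0)
        = ∑ m ∈ Ioc (x / g) ((x + h) / g), F m := by
      rw [← sum_filter]
      refine sum_nbij' (fun j => (x + j) / g) (fun m => g * m - x) ?_ ?_ ?_ ?_ ?_
      · intro j hj
        rw [mem_filter, mem_Icc] at hj
        obtain ⟨⟨hj1, hj2⟩, m, hm⟩ := hj
        rw [mem_Ioc, hm, Nat.mul_div_cancel_left _ (by omega : 0 < g)]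
        constructor
        · rw [Nat.div_lt_iff_lt_mul (by omega)]
          nlinarith
        · rw [Nat.le_div_iff_mul_le (by omega)]
          nlinarith
      · intro m hm
        rw [mem_Ioc, Nat.div_lt_iff_lt_mul (by omega), Nat.le_div_iff_mul_le (by omega)] at hm
        rw [mem_filter, mem_Icc]
        have h1 : m * g = g * m := mul_comm _ _
        rw [h1] at hm
        refine ⟨⟨by omega, by omega⟩, ?_⟩
        rw [show x + (g * m - x) = g * m by omega]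
        exact dvd_mul_right _ _
      · intro j hj
        rw [mem_filter, mem_Icc] at hj
        obtain ⟨⟨hj1, hj2⟩, m, hm⟩ := hj
        rw [hm, Nat.mul_div_cancel_left _ (by omega : 0 < g)]
        omega
      · intro m hm
        rw [mem_Ioc, Nat.div_lt_iff_lt_mul (by omega)] at hm
        have h1 : m * g = g * m := mul_comm _ _
        rw [h1] at hm
        rw [show x + (g * m - x) = g * m by omega, Nat.mul_div_cancel_left _ (by omega : 0 < g)]
      · intro j _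
        rfl
    have e2 : x / g + h' ≤ (x + h) / g := by
      rw [hh', Nat.le_div_iff_mul_le (by omega), add_mul]
      have a1 := Nat.div_mul_le_self x g
      have a2 := Nat.div_mul_le_self h g
      omega
    have e3 : (x + h) / g ≤ x / g + h' + 1 := by
      rw [hh']
      have a1 := Nat.lt_div_mul_add (a := x) (b := g) (by omega)
      have a2 := Nat.lt_div_mul_add (a := h) (b := g) (by omega)
      have : (x + h) / g < x / g + h / g + 2 := by
        rw [Nat.div_lt_iff_lt_mul (by omega)]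
        nlinarith
      omega
    have e4 : ∑ m ∈ Ioc (x / g) (x / g + h'), F m = ∑ j ∈ Icc 1 h', F (x / g + j) := by
      refine sum_nbij' (fun m => m - x / g) (fun j => x / g + j) ?_ ?_ ?_ ?_ ?_
      · intro m hm
        rw [mem_Ioc] at hm
        rw [mem_Icc]
        omega
      · intro j hj
        rw [mem_Icc] at hj
        rw [mem_Ioc]
        omega
      · intro m hm
        rw [mem_Ioc] at hm
        omega
      · intro j _
        omega
      · intro m hm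
        rw [mem_Ioc] at hm
        rw [show x / g + (m - x / g) = m by omega]
    rw [e1]
    have e5 : ∑ m ∈ Ioc (x / g) ((x + h) / g), F m
        = ∑ m ∈ Ioc (x / g) (x / g + h'), F m + ∑ m ∈ Ioc (x / g + h') ((x + h) / g), F m :=
      (sum_Ioc_consecutive F (by omega) e2).symm
    rw [e5, e4]
    refine (norm_add_le _ _).trans (add_le_add le_rfl ?_)
    refine (norm_sum_le _ _).trans ?_
    refine (sum_le_sum fun m _ => hb m).trans ?_
    rw [sum_const, Nat.card_Ioc, nsmul_eq_mul, mul_one]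
    have : (x + h) / g - (x / g + h') ≤ 1 := by omega
    exact_mod_cast this
  -- sum over x
  have s1 : ∑ x ∈ Icc ⌈X⌉₊ ⌊2 * X⌋₊,
      ‖∑ j ∈ Icc 1 h, (if g ∣ x + j then F ((x + j) / g) else 0)‖
      ≤ ∑ x ∈ Icc ⌈X⌉₊ ⌊2 * X⌋₊, T (x / g) + (X + 1) := by
    refine (sum_le_sum fun x _ => inner x).trans ?_
    rw [sum_add_distrib]
    refine add_le_add le_rfl ?_
    rw [sum_const, nsmul_eq_mul, mul_one, Nat.card_Icc]
    have b1 : ((⌊2 * X⌋₊ : ℕ) : ℝ) ≤ 2 * X := Nat.floor_le (by linarith)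
    have b2 : X ≤ ((⌈X⌉₊ : ℕ) : ℝ) := Nat.le_ceil X
    rcases Nat.lt_or_ge (⌊2 * X⌋₊ + 1) ⌈X⌉₊ with hlt | hge
    · rw [Nat.sub_eq_zero_of_le hlt.le]
      push_cast
      linarith
    · rw [Nat.cast_sub hge]
      push_cast
      linarith
  have s2 : ∑ x ∈ Icc ⌈X⌉₊ ⌊2 * X⌋₊, T (x / g)
      ≤ g * ∑ y ∈ Icc (⌈X⌉₊ / g) (⌊2 * X⌋₊ / g), T y := by
    have hmap : ∀ x ∈ Icc ⌈X⌉₊ ⌊2 * X⌋₊, x / g ∈ Icc (⌈X⌉₊ / g) (⌊2 * X⌋₊ / g) := by
      intro x hx
      rw [mem_Icc] at hx ⊢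
      exact ⟨Nat.div_le_div_right hx.1, Nat.div_le_div_right hx.2⟩
    rw [← sum_fiberwise_of_maps_to hmap, mul_sum]
    refine sum_le_sum fun y _ => ?_
    have c1 : ∀ x ∈ (Icc ⌈X⌉₊ ⌊2 * X⌋₊).filter (fun x => x / g = y), T (x / g) = T y := by
      intro x hx
      rw [(mem_filter.1 hx).2]
    rw [sum_congr rfl c1, sum_const, nsmul_eq_mul]
    refine mul_le_mul_of_nonneg_right ?_ (norm_nonneg _)
    have c2 : (Icc ⌈X⌉₊ ⌊2 * X⌋₊).filter (fun x => x / g = y) ⊆ Ico (y * g) (y * g + g) := by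
      intro x hx
      rw [mem_filter] at hx
      rw [mem_Ico, ← hx.2]
      have a1 := Nat.div_mul_le_self x g
      have a2 := Nat.lt_div_mul_add (a := x) (b := g) (by omega)
      exact ⟨a1, a2⟩
    have c3 := card_le_card c2
    rw [Nat.card_Ico] at c3
    have : ((Icc ⌈X⌉₊ ⌊2 * X⌋₊).filter (fun x => x / g = y)).card ≤ g := by omega
    exact_mod_cast this
  have s3 : ∑ y ∈ Icc (⌈X⌉₊ / g) (⌊2 * X⌋₊ / g), T y
      ≤ h' + ∑ y ∈ Icc ⌈X / g⌉₊ ⌊2 * (X / g)⌋₊, T y := by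
    have d1 : ⌈X / g⌉₊ ≤ ⌈X⌉₊ / g + 1 := by
      apply Nat.ceil_le.2
      have a2 := Nat.lt_div_mul_add (a := ⌈X⌉₊) (b := g) (by omega)
      have b2 : X ≤ ((⌈X⌉₊ : ℕ) : ℝ) := Nat.le_ceil X
      rw [div_le_iff₀ hg']
      have : ((⌈X⌉₊ : ℕ) : ℝ) < ((⌈X⌉₊ / g * g + g : ℕ) : ℝ) := by exact_mod_cast a2
      push_cast at this ⊢
      linarith
    have d2 : ⌊2 * X⌋₊ / g ≤ ⌊2 * (X / g)⌋₊ := by
      apply Nat.le_floor
      have : ((⌊2 * X⌋₊ / g : ℕ) : ℝ) ≤ (⌊2 * X⌋₊ : ℕ) / g := Nat.cast_div_le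
      refine this.trans ?_
      rw [← mul_div_assoc]
      exact div_le_div_of_nonneg_right (Nat.floor_le (by linarith)) hg'.le
    have sub : Icc (⌈X⌉₊ / g) (⌊2 * X⌋₊ / g)
        ⊆ insert (⌈X⌉₊ / g) (Icc ⌈X / g⌉₊ ⌊2 * (X / g)⌋₊) := by
      intro y hy
      rw [mem_Icc] at hy
      rw [mem_insert, mem_Icc]
      by_cases hy0 : y = ⌈X⌉₊ / g
      · exact Or.inl hy0
      · right
        omega
    refine (sum_le_sum_of_subset_of_nonneg sub fun _ _ _ => norm_nonneg _).trans ?_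
    by_cases hmem : ⌈X⌉₊ / g ∈ Icc ⌈X / g⌉₊ ⌊2 * (X / g)⌋₊
    · rw [insert_eq_of_mem hmem]
      have : (0 : ℝ) ≤ h' := Nat.cast_nonneg _
      linarith
    · rw [sum_insert hmem]
      exact add_le_add (hTle _) le_rfl
  have s4 : ∑ y ∈ Icc ⌈X / g⌉₊ ⌊2 * (X / g)⌋₊, T y ≤ ε / 4 * h' * (X / g) := by
    refine H2 (X / g) ?_
    rw [le_div_iff₀ hg']
    linarith
  have hh'0 : (0 : ℝ) ≤ h' := Nat.cast_nonneg _
  have hh0 : (0 : ℝ) ≤ h := Nat.cast_nonneg _
  have s5 : (g : ℝ) * h' ≤ h := by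
    rw [le_div_iff₀ hg'] at hh'le
    linarith
  have s6 : (g : ℝ) * (ε / 4 * h' * (X / g)) ≤ ε / 4 * h * X := by
    have : (g : ℝ) * (ε / 4 * h' * (X / g)) = ε / 4 * h' * X := by
      field_simp
    rw [this]
    have : (h' : ℝ) ≤ h := by
      have : (h' : ℝ) ≤ g * h' := by nlinarith
      linarith
    gcongr
  have s7 : (h : ℝ) ≤ ε / 4 * h * X := by
    have : 1 ≤ ε / 4 * X := by
      rw [div_le_iff₀ hε] at hX1
      linarith
    nlinarith
  have s8 : X + 1 ≤ ε / 4 * h * X := by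
    have : 2 ≤ ε / 4 * h := by
      rw [div_le_iff₀ hε] at hh2
      linarith
    nlinarith
  have s9 : ∑ x ∈ Icc ⌈X⌉₊ ⌊2 * X⌋₊, T (x / g) ≤ g * (h' + ε / 4 * h' * (X / g)) := by
    refine s2.trans (mul_le_mul_of_nonneg_left (s3.trans ?_) hg'.le)
    linarith
  have s10 : (g : ℝ) * (h' + ε / 4 * h' * (X / g)) = g * h' + g * (ε / 4 * h' * (X / g)) := by ring
  have hpos : 0 ≤ ε / 4 * h * X := by positivity
  calc ∑ x ∈ Icc ⌈X⌉₊ ⌊2 * X⌋₊,
      ‖∑ j ∈ Icc 1 h, (if g ∣ x + j then F ((x + j) / g) else 0)‖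
      ≤ h + ε / 4 * h * X + (X + 1) := by linarith
    _ ≤ ε * h * X := by nlinarith

/-! ### `λ` in progressions -/

/-- `λ` with complex values. -/
noncomputable def lamC (n : ℕ) : ℂ := ((MRL.lam n : ℝ) : ℂ)

theorem norm_lamC (n : ℕ) : ‖lamC n‖ = 1 := by
  unfold lamC MRL.lam
  rw [Complex.norm_real, Real.norm_eq_abs, abs_pow, abs_neg, abs_one, one_pow]

theorem lamC_mul {m n : ℕ} (hm : m ≠ 0) (hn : n ≠ 0) : lamC (m * n) = lamC m * lamC n := by
  unfold lamC MRL.lam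
  rw [ArithmeticFunction.cardFactors_mul hm hn, pow_add]
  push_cast
  ring

theorem lamC_sq (n : ℕ) : lamC n * lamC n = 1 := by
  unfold lamC MRL.lam
  rw [← Complex.ofReal_mul, ← pow_add, ← two_mul, pow_mul]
  simp

theorem norm_lamChi_le {q : ℕ} (χ : DirichletCharacter ℂ q) (n : ℕ) : ‖lamChi χ n‖ ≤ 1 := by
  unfold lamChi
  split_ifs with h
  · simp
  · rw [norm_mul]
    have h1 : ‖((MRL.lam n : ℝ) : ℂ)‖ = 1 := norm_lamC n
    rw [h1, one_mul]
    exact DirichletCharacter.norm_le_one χ _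

/-- coprime classes. -/
theorem short_coprime (hS : ShortAll) (q b : ℕ) (hq : 1 ≤ q) (hb : Nat.Coprime b q) :
    ShortF (fun n => if n % q = b % q then lamC n else 0) := by
  have : NeZero q := ⟨by omega⟩
  have hu : IsUnit (b : ZMod q) := (ZMod.isUnit_iff_coprime b q).2 hb
  have hφ : ((q.totient : ℕ) : ℂ) ≠ 0 := by
    have := Nat.totient_pos.2 (by omega : 0 < q)
    exact_mod_cast this.ne'
  have h1 : ShortF (fun n => ∑ χ : DirichletCharacter ℂ q,
      (χ (b : ZMod q)⁻¹ / (q.totient : ℂ)) * lamChi χ n) :=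
    shortF_sum univ _ fun χ _ => shortF_smul (hS q χ) _
  refine shortF_congr h1 fun n hn => ?_
  have h2 : ∑ χ : DirichletCharacter ℂ q, (χ (b : ZMod q)⁻¹ / (q.totient : ℂ)) * lamChi χ n
      = lamC n / (q.totient : ℂ) * ∑ χ : DirichletCharacter ℂ q, χ (b : ZMod q)⁻¹ * χ (n : ZMod q) := by
    rw [mul_sum]
    refine sum_congr rfl fun χ _ => ?_
    unfold lamChi lamC
    rw [if_neg (by omega)]
    ring
  rw [h2, DirichletCharacter.sum_char_inv_mul_char_eq ℂ hu]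
  have h3 : ((b : ZMod q) = (n : ZMod q)) ↔ n % q = b % q := by
    rw [ZMod.natCast_eq_natCast_iff']
    exact eq_comm
  by_cases h4 : n % q = b % q
  · rw [if_pos h4, if_pos (h3.2 h4)]
    field_simp
  · rw [if_neg h4, if_neg (fun h => h4 (h3.1 h)), mul_zero]

/-- all classes. -/
theorem short_class (hS : ShortAll) (q b : ℕ) (hq : 1 ≤ q) :
    ShortF (fun n => if n % q = b % q then lamC n else 0) := by
  obtain ⟨g, hg⟩ : ∃ g, g = Nat.gcd b q := ⟨_, rfl⟩
  have hg0 : 0 < g := by rw [hg]; exact Nat.gcd_pos_of_pos_right _ (by omega)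
  obtain ⟨q', hq'⟩ : g ∣ q := hg ▸ Nat.gcd_dvd_right b q
  obtain ⟨b', hb'⟩ : g ∣ b := hg ▸ Nat.gcd_dvd_left b q
  have hq'0 : 1 ≤ q' := by
    rcases Nat.eq_zero_or_pos q' with h | h
    · rw [h, mul_zero] at hq'; omega
    · exact h
  have hcop : Nat.Coprime b' q' := by
    have h1 : Nat.gcd b q = g * Nat.gcd b' q' := by
      rw [hb', hq', Nat.gcd_mul_left]
    rw [← hg] at h1
    have h2 : g * Nat.gcd b' q' = g * 1 := by rw [mul_one]; exact h1.symm
    exact Nat.eq_of_mul_eq_mul_left hg0 h2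
  have h0 := short_coprime hS q' b' hq'0 hcop
  have h1 := shortF_dilate h0 (fun n => by
    split_ifs
    · exact (norm_lamC n).le
    · simp) g hg0
  have h2 := shortF_smul h1 (lamC g)
  refine shortF_congr h2 fun n hn => ?_
  by_cases hgn : g ∣ n
  · obtain ⟨m, rfl⟩ := hgn
    have hm : m ≠ 0 := by rintro rfl; simp at hn
    rw [if_pos (dvd_mul_right g m), Nat.mul_div_cancel_left _ hg0]
    have e : (g * m) % q = b % q ↔ m % q' = b' % q' := by
      rw [hq', hb', Nat.mul_mod_mul_left, Nat.mul_mod_mul_left]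
      constructor
      · intro h; exact Nat.eq_of_mul_eq_mul_left hg0 h
      · intro h; rw [h]
    by_cases h3 : m % q' = b' % q'
    · rw [if_pos h3, if_pos (e.2 h3), lamC_mul hg0.ne' hm]
    · rw [if_neg h3, if_neg (fun h => h3 (e.1 h)), mul_zero]
  · rw [if_neg hgn, mul_zero, if_neg]
    intro h
    apply hgn
    have h4 : n ≡ b [MOD q] := h
    have h5 : n ≡ b [MOD g] := h4.of_dvd ⟨q', hq'⟩
    have h6 : b ≡ 0 [MOD g] := (Nat.modEq_zero_iff_dvd).2 ⟨b', hb'⟩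
    exact (Nat.modEq_zero_iff_dvd).1 (h5.trans h6)

/-! ### from `λ` to `μ` -/

theorem sq_dvd_iff {a b k : ℕ} (ha : Squarefree a) (hb : 0 < b) (hk : 0 < k) :
    k ^ 2 ∣ b ^ 2 * a ↔ k ∣ b := by
  constructor
  · intro h
    have ha0 : a ≠ 0 := ha.ne_zero
    rw [← Nat.factorization_le_iff_dvd hk.ne' hb.ne']
    intro p
    have h1 := (Nat.factorization_le_iff_dvd (pow_ne_zero 2 hk.ne')
      (mul_ne_zero (pow_ne_zero 2 hb.ne') ha0)).2 h p
    rw [Nat.factorization_mul (pow_ne_zero 2 hb.ne') ha0, Nat.factorization_pow,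
      Nat.factorization_pow] at h1
    have h2 := ha.natFactorization_le_one p
    simp only [Finsupp.coe_add, Finsupp.coe_smul, Pi.add_apply, Pi.smul_apply, smul_eq_mul] at h1
    omega
  · intro h
    exact (pow_dvd_pow_of_dvd h 2).mul_right a

theorem mu_eq_sum {n N : ℕ} (hn : 1 ≤ n) (hN : n ≤ N) :
    mu n = ∑ k ∈ (Icc 1 N).filter (fun k => k ^ 2 ∣ n), mu k * lamC (n / k ^ 2) := by
  obtain ⟨a, b, ha0, hb0, hab, hsq⟩ := Nat.sq_mul_squarefree_of_pos hn
  have e1 : (Icc 1 N).filter (fun k => k ^ 2 ∣ n) = b.divisors := by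
    ext k
    rw [mem_filter, mem_Icc, Nat.mem_divisors]
    constructor
    · rintro ⟨⟨h1, _⟩, h2⟩
      rw [← hab] at h2
      exact ⟨(sq_dvd_iff hsq hb0 h1).1 h2, hb0.ne'⟩
    · rintro ⟨h1, _⟩
      have hk0 : 0 < k := Nat.pos_of_dvd_of_pos h1 hb0
      refine ⟨⟨hk0, ?_⟩, ?_⟩
      · have h2 := Nat.le_of_dvd hb0 h1
        have h3 : b ≤ b ^ 2 * a := by nlinarith [Nat.mul_le_mul hb0 ha0, sq_nonneg b]
        omega
      · rw [← hab]
        exact (sq_dvd_iff hsq hb0 hk0).2 h1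
  rw [e1]
  have e2 : ∀ k ∈ b.divisors, mu k * lamC (n / k ^ 2) = mu k * lamC a := by
    intro k hk
    rw [Nat.mem_divisors] at hk
    obtain ⟨⟨c, hc⟩, _⟩ := hk
    have hk0 : 0 < k := Nat.pos_of_dvd_of_pos ⟨c, hc⟩ hb0
    have hc0 : c ≠ 0 := by rintro rfl; rw [mul_zero] at hc; omega
    have : n / k ^ 2 = c ^ 2 * a := by
      rw [← hab, hc]
      rw [show (k * c) ^ 2 * a = k ^ 2 * (c ^ 2 * a) by ring]
      exact Nat.mul_div_cancel_left _ (by positivity)
    rw [this, lamC_mul (pow_ne_zero 2 hc0) ha0.ne', pow_two, lamC_mul hc0 hc0, lamC_sq, one_mul]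
  rw [sum_congr rfl e2, ← sum_mul]
  have e3 : ∑ k ∈ b.divisors, mu k = if b = 1 then 1 else 0 := by
    have h1 : ((ArithmeticFunction.moebius * ArithmeticFunction.zeta :
        ArithmeticFunction ℤ)) b = ∑ k ∈ b.divisors, ArithmeticFunction.moebius k :=
      ArithmeticFunction.coe_mul_zeta_apply
    rw [ArithmeticFunction.moebius_mul_coe_zeta, ArithmeticFunction.one_apply] at h1
    unfold mu
    rw [← Int.cast_sum, ← h1]
    split_ifs <;> simp
  rw [e3]
  by_cases hb1 : b = 1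
  · rw [if_pos hb1, one_mul]
    have hna : n = a := by rw [← hab, hb1]; ring
    unfold mu lamC MRL.lam
    rw [hna, ArithmeticFunction.moebius_apply_of_squarefree hsq]
    push_cast
    ring
  · rw [if_neg hb1, zero_mul]
    have hns : ¬ Squarefree n := by
      intro h
      have h1 : b * b ∣ n := ⟨a, by rw [← hab]; ring⟩
      have := h b h1
      exact hb1 (Nat.isUnit_iff.1 this)
    unfold mu
    rw [ArithmeticFunction.moebius_eq_zero_of_not_squarefree hns]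
    simp

/-- one square class, inner function. -/
theorem short_inner (hS : ShortAll) (q b k : ℕ) (hq : 1 ≤ q) :
    ShortF (fun m => if (k ^ 2 * m) % q = b % q then lamC m else 0) := by
  have h1 : ShortF (fun m => ∑ r ∈ (range q).filter (fun r => (k ^ 2 * r) % q = b % q),
      (if m % q = r % q then lamC m else 0)) :=
    shortF_sum _ _ fun r _ => short_class hS q r hq
  refine shortF_congr h1 fun m _ => ?_
  have hmq : m % q ∈ range q := mem_range.2 (Nat.mod_lt _ (by omega))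
  have e : ∀ r ∈ (range q).filter (fun r => (k ^ 2 * r) % q = b % q),
      (if m % q = r % q then lamC m else 0) = if m % q = r then lamC m else 0 := by
    intro r hr
    rw [mem_filter, mem_range] at hr
    rw [Nat.mod_eq_of_lt hr.1]
  rw [sum_congr rfl e, sum_ite_eq]
  have e2 : (k ^ 2 * (m % q)) % q = (k ^ 2 * m) % q := by
    rw [Nat.mul_mod, Nat.mod_mod, ← Nat.mul_mod]
  simp only [mem_filter, hmq, true_and, e2]

/-- ROW W1. -/
theorem muAP (hS : ShortAll) : MuAP := by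
  intro q b hq
  have main : ShortF (fun n => if n % q = b % q then mu n else 0) := by
    refine shortF_approx fun ε hε => ?_
    obtain ⟨K, hK⟩ : ∃ K : ℕ, 1 / ε ≤ K := exists_nat_ge _
    have hK0 : 0 < K := by
      have : (0 : ℝ) < K := lt_of_lt_of_le (by positivity) hK
      exact_mod_cast this
    have hKr : (0 : ℝ) < K := by exact_mod_cast hK0
    refine ⟨fun n => ∑ k ∈ Icc 1 K, mu k * (if k ^ 2 ∣ n then
      (if (k ^ 2 * (n / k ^ 2)) % q = b % q then lamC (n / k ^ 2) else 0) else 0), ?_, K, ?_⟩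
    · refine shortF_sum _ _ fun k hk => shortF_smul ?_ _
      have hk1 : 1 ≤ k := (mem_Icc.1 hk).1
      exact shortF_dilate (short_inner hS q b k hq) (fun n => by
        split_ifs
        · exact (norm_lamC n).le
        · simp) (k ^ 2) (Nat.one_le_pow _ _ hk1)
    · intro N hN
      have pt : ∀ n ∈ Icc 1 N, ‖(if n % q = b % q then mu n else 0)
          - ∑ k ∈ Icc 1 K, mu k * (if k ^ 2 ∣ n then
            (if (k ^ 2 * (n / k ^ 2)) % q = b % q then lamC (n / k ^ 2) else 0) else 0)‖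
          ≤ ∑ k ∈ Ioc K N, if k ^ 2 ∣ n then (1 : ℝ) else 0 := by
        intro n hn
        rw [mem_Icc] at hn
        have f1 : (if n % q = b % q then mu n else 0)
            = ∑ k ∈ Icc 1 N, mu k * (if k ^ 2 ∣ n then
              (if (k ^ 2 * (n / k ^ 2)) % q = b % q then lamC (n / k ^ 2) else 0) else 0) := by
          have f2 : ∀ k ∈ Icc 1 N, mu k * (if k ^ 2 ∣ n then
              (if (k ^ 2 * (n / k ^ 2)) % q = b % q then lamC (n / k ^ 2) else 0) else 0)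
              = if k ^ 2 ∣ n then (if n % q = b % q then mu k * lamC (n / k ^ 2) else 0)
                else 0 := by
            intro k _
            by_cases h1 : k ^ 2 ∣ n
            · rw [if_pos h1, if_pos h1, Nat.mul_div_cancel' h1]
              split_ifs <;> simp
            · rw [if_neg h1, if_neg h1, mul_zero]
          rw [sum_congr rfl f2, ← sum_filter]
          by_cases h1 : n % q = b % q
          · simp only [h1, if_true]
            exact mu_eq_sum hn.1 hn.2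
          · simp only [h1, if_false, sum_const_zero]
        have f3 : Icc 1 N = Icc 1 K ∪ Ioc K N := by
          ext k
          rw [mem_union, mem_Icc, mem_Icc, mem_Ioc]
          omega
        have f4 : Disjoint (Icc 1 K) (Ioc K N) := by
          rw [disjoint_left]
          intro k h1 h2
          rw [mem_Icc] at h1
          rw [mem_Ioc] at h2
          omega
        rw [f1, f3, sum_union f4, add_sub_cancel_left]
        refine (norm_sum_le _ _).trans (sum_le_sum fun k _ => ?_)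
        rw [norm_mul]
        have f5 : ‖mu k‖ ≤ 1 := by
          unfold mu
          rw [Complex.norm_intCast]
          exact_mod_cast ArithmeticFunction.abs_moebius_le_one
        by_cases h1 : k ^ 2 ∣ n
        · rw [if_pos h1, if_pos h1]
          have f6 : ‖(if (k ^ 2 * (n / k ^ 2)) % q = b % q then lamC (n / k ^ 2) else 0)‖ ≤ 1 := by
            split_ifs
            · exact (norm_lamC _).le
            · simp
          calc ‖mu k‖ * _ ≤ 1 * 1 := mul_le_mul f5 f6 (norm_nonneg _) (by norm_num)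
            _ = 1 := one_mul _
        · rw [if_neg h1, if_neg h1, norm_zero, mul_zero]
      refine (sum_le_sum pt).trans ?_
      rw [sum_comm]
      have g1 : ∀ k ∈ Ioc K N, (∑ n ∈ Icc 1 N, if k ^ 2 ∣ n then (1 : ℝ) else 0)
          ≤ N * ((k : ℝ) ^ 2)⁻¹ := by
        intro k hk
        rw [mem_Ioc] at hk
        have hk0 : 0 < k := by omega
        rw [← sum_filter, sum_const, nsmul_eq_mul, mul_one]
        have g2 : ((Icc 1 N).filter (fun n => k ^ 2 ∣ n)).card = N / k ^ 2 := by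
          have g3 : Icc 1 N = Ioc 0 N := by
            ext x; rw [mem_Icc, mem_Ioc]; omega
          rw [g3]
          exact Nat.Ioc_filter_dvd_card_eq_div N (k ^ 2)
        rw [g2]
        have g4 : ((N / k ^ 2 : ℕ) : ℝ) ≤ (N : ℝ) / ((k ^ 2 : ℕ) : ℝ) := Nat.cast_div_le
        refine g4.trans (le_of_eq ?_)
        push_cast
        rw [div_eq_mul_inv]
      refine (sum_le_sum g1).trans ?_
      rw [← mul_sum]
      have g5 : (∑ k ∈ Ioc K N, (((k : ℝ)) ^ 2)⁻¹) ≤ (K : ℝ)⁻¹ - (N : ℝ)⁻¹ :=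
        sum_Ioc_inv_sq_le_sub hK0.ne' hN
      have g6 : (0 : ℝ) ≤ (N : ℝ)⁻¹ := by positivity
      have g7 : (K : ℝ)⁻¹ ≤ ε := by
        rw [inv_le_comm₀ hKr hε]
        rw [one_div] at hK
        exact hK
      have hN0 : (0 : ℝ) ≤ N := Nat.cast_nonneg _
      calc (N : ℝ) * ∑ k ∈ Ioc K N, (((k : ℝ)) ^ 2)⁻¹ ≤ N * ε :=
            mul_le_mul_of_nonneg_left (by linarith) hN0
        _ = ε * N := mul_comm _ _
  exact main

end Pool.Agent.WC86
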