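import Pool.Agent.Lib.WC86.Per

/-! N_663568 (whole circle), row P: the majorant of the absolute value of the cosine; the density of
the squarefree numbers.  helper86. -/

set_option autoImplicit false

namespace Pool.Agent.WC86.Pr

open Finset MeasureTheory Pool.Agent.Lib.MP_663568_nt Pool.Agent.Lib.MP_663568_nt.Katai
  Pool.Agent.Lib.MP_663568_nt.Nul Pool.Agent.Lib.MP_663568_nt.H6

noncomputable section

lemma abs_cos_eq (x : ℝ) : |Real.cos (Real.pi * x)| = ‖1 + ee x‖ / 2 := by
  have e1 : (1 : ℂ) + ee x = ee (x / 2) * (2 * (Real.cos (Real.pi * x) : ℂ)) := by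
    have e2 : ee (x / 2) * (2 * (Real.cos (Real.pi * x) : ℂ)) = ee (x / 2) * (ee (x / 2) +
        ee (-(x / 2))) := by
      congr 1
      rw [Complex.ofReal_cos, Complex.two_cos, ee, ee]
      congr 2 <;> (push_cast; ring)
    rw [e2, mul_add, ← ee_add, ← ee_add]
    rw [show x / 2 + x / 2 = x by ring, show x / 2 + -(x / 2) = 0 by ring]
    have : ee 0 = 1 := by simp [ee]
    rw [this]; ring
  rw [e1, norm_mul, norm_ee, one_mul, norm_mul, Complex.norm_real, Real.norm_eq_abs]
  norm_num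

lemma fourier_ee (k : ℤ) (x : ℝ) : fourier k (x : AddCircle (1 : ℝ)) = ee (k * x) := by
  rw [fourier_coe_apply, ee]
  congr 1
  push_cast
  ring

lemma int_ee (k : ℤ) : ∫ x in (0 : ℝ)..1, ee (k * x) = if k = 0 then 1 else 0 := by
  split_ifs with h
  · subst h
    simp [ee]
  · have hc : (2 * Real.pi * Complex.I * k : ℂ) ≠ 0 := by
      have h1 : (k : ℂ) ≠ 0 := by exact_mod_cast h
      have h2 : (Real.pi : ℂ) ≠ 0 := by exact_mod_cast Real.pi_ne_zero
      exact mul_ne_zero (mul_ne_zero (mul_ne_zero two_ne_zero h2) Complex.I_ne_zero) h1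
    have e1 : ∀ x : ℝ, ee (k * x) = Complex.exp ((2 * Real.pi * Complex.I * k : ℂ) * x) := fun x => by
      rw [ee]; congr 1; push_cast; ring
    simp only [e1]
    rw [integral_exp_mul_complex hc]
    have e2 : Complex.exp ((2 * Real.pi * Complex.I * k : ℂ) * ((1 : ℝ) : ℂ)) = 1 := by
      have := Complex.exp_int_mul_two_pi_mul_I k
      rw [← this]
      congr 1
      push_cast; ring
    rw [e2]
    simp

lemma int_abs_cos : ∫ x in (0 : ℝ)..1, |Real.cos (Real.pi * x)| = 2 / Real.pi := by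
  have hpi := Real.pi_pos
  have hcont : Continuous fun x : ℝ => |Real.cos (Real.pi * x)| := by fun_prop
  have hint : ∀ a b : ℝ, IntervalIntegrable (fun x : ℝ => |Real.cos (Real.pi * x)|) volume a b :=
    fun a b => hcont.intervalIntegrable a b
  rw [← intervalIntegral.integral_add_adjacent_intervals (hint 0 (1 / 2)) (hint (1 / 2) 1)]
  have e1 : ∫ x in (0 : ℝ)..(1 / 2), |Real.cos (Real.pi * x)| =
      ∫ x in (0 : ℝ)..(1 / 2), Real.cos (Real.pi * x) := by
    refine intervalIntegral.integral_congr fun x hx => ?_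
    rw [Set.uIcc_of_le (by norm_num)] at hx
    refine abs_of_nonneg (Real.cos_nonneg_of_mem_Icc ⟨?_, ?_⟩)
    · have := mul_nonneg hpi.le hx.1; linarith
    · have := mul_le_mul_of_nonneg_left hx.2 hpi.le; linarith
  have e2 : ∫ x in (1 / 2 : ℝ)..1, |Real.cos (Real.pi * x)| =
      ∫ x in (1 / 2 : ℝ)..1, -Real.cos (Real.pi * x) := by
    refine intervalIntegral.integral_congr fun x hx => ?_
    rw [Set.uIcc_of_le (by norm_num)] at hx
    refine abs_of_nonpos (Real.cos_nonpos_of_pi_div_two_le_of_le ?_ ?_)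
    · have := mul_le_mul_of_nonneg_left hx.1 hpi.le; linarith
    · have := mul_le_mul_of_nonneg_left hx.2 hpi.le; linarith
  rw [e1, e2, intervalIntegral.integral_neg]
  have e3 : ∀ a b : ℝ, ∫ x in a..b, Real.cos (Real.pi * x) =
      (Real.sin (Real.pi * b) - Real.sin (Real.pi * a)) / Real.pi := by
    intro a b
    rw [intervalIntegral.integral_comp_mul_left Real.cos hpi.ne', integral_cos, smul_eq_mul]
    field_simp
  rw [e3, e3]
  have e4 : Real.pi * (1 / 2) = Real.pi / 2 := by ring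
  rw [e4, Real.sin_pi_div_two, mul_zero, Real.sin_zero, mul_one, Real.sin_pi]
  field_simp
  norm_num

/-- the majorant. -/
lemma majorant (η : ℝ) (hη : 0 < η) : ∃ (s : Finset ℤ) (t : ℤ → ℂ), (0 : ℤ) ∈ s ∧
    (∀ x : ℝ, |Real.cos (Real.pi * x)| ≤ (∑ k ∈ s, t k * ee (k * x)).re) ∧
    0 ≤ (t 0).re ∧ (t 0).re ≤ 2 / Real.pi + η := by
  set f : C(AddCircle (1 : ℝ), ℂ) :=
    ⟨fun x => ((‖(1 : ℂ) + fourier 1 x‖ / 2 : ℝ) : ℂ), by fun_prop⟩ with hf
  have hmem : f ∈ (Submodule.span ℂ (Set.range (fourier (T := (1 : ℝ))))).topologicalClosure := by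
    rw [span_fourier_closure_eq_top]; trivial
  have hmem' : f ∈ closure ((Submodule.span ℂ (Set.range (fourier (T := (1 : ℝ)))) :
    Submodule ℂ C(AddCircle (1 : ℝ), ℂ)) : Set C(AddCircle (1 : ℝ), ℂ)) := hmem
  obtain ⟨g, hg, hfg⟩ := Metric.mem_closure_iff.mp hmem' (η / 2) (by positivity)
  obtain ⟨c, hc⟩ := (Finsupp.mem_span_range_iff_exists_finsupp).mp hg
  have hgx : ∀ x : ℝ, g (x : AddCircle (1 : ℝ)) = ∑ k ∈ c.support, c k * ee (k * x) := by
    intro x
    rw [← hc, Finsupp.sum, ContinuousMap.coe_sum, Finset.sum_apply]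
    refine sum_congr rfl fun k _ => ?_
    rw [ContinuousMap.smul_apply, fourier_ee, smul_eq_mul]
  have hfx : ∀ x : ℝ, f (x : AddCircle (1 : ℝ)) = ((|Real.cos (Real.pi * x)| : ℝ) : ℂ) := by
    intro x
    rw [hf]
    change ((‖(1 : ℂ) + fourier 1 (x : AddCircle (1 : ℝ))‖ / 2 : ℝ) : ℂ) = _
    rw [fourier_ee, abs_cos_eq]
    norm_num
  have hclose : ∀ x : ℝ, ‖((|Real.cos (Real.pi * x)| : ℝ) : ℂ) -
      ∑ k ∈ c.support, c k * ee (k * x)‖ ≤ η / 2 := by
    intro x
    rw [← hfx, ← hgx, ← dist_eq_norm]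
    exact (ContinuousMap.dist_apply_le_dist _).trans hfg.le
  set t : ℤ → ℂ := fun k => c k + (if k = 0 then ((η / 2 : ℝ) : ℂ) else 0) with ht
  set s : Finset ℤ := insert 0 c.support with hs
  have h0s : (0 : ℤ) ∈ s := mem_insert_self _ _
  have hsum : ∀ x : ℝ, ∑ k ∈ s, t k * ee (k * x) =
      ∑ k ∈ c.support, c k * ee (k * x) + ((η / 2 : ℝ) : ℂ) := by
    intro x
    have e1 : ∑ k ∈ s, c k * ee (k * x) = ∑ k ∈ c.support, c k * ee (k * x) := by
      rw [hs]
      refine sum_insert_of_eq_zero_if_notMem fun h => ?_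
      rw [Finsupp.notMem_support_iff.mp h, zero_mul]
    have e2 : ∑ k ∈ s, (if k = 0 then ((η / 2 : ℝ) : ℂ) else 0) * ee (k * x) =
        ((η / 2 : ℝ) : ℂ) := by
      rw [sum_eq_single_of_mem 0 h0s]
      · rw [if_pos rfl]
        simp [ee]
      · intro k _ hk
        rw [if_neg hk, zero_mul]
    rw [← e1]
    conv_rhs => rw [← e2]
    rw [← sum_add_distrib]
    exact sum_congr rfl fun k _ => by rw [ht]; ring
  have hre : ∀ x : ℝ, |(∑ k ∈ s, t k * ee (k * x)).re - (|Real.cos (Real.pi * x)| + η / 2)| ≤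
      η / 2 := by
    intro x
    have h1 := (Complex.abs_re_le_norm _).trans (hclose x)
    rw [Complex.sub_re, Complex.ofReal_re] at h1
    rw [hsum, Complex.add_re, Complex.ofReal_re]
    rw [abs_sub_comm] at h1
    rw [show (∑ k ∈ c.support, c k * ee (k * x)).re + η / 2 - (|Real.cos (Real.pi * x)| + η / 2) =
      (∑ k ∈ c.support, c k * ee (k * x)).re - |Real.cos (Real.pi * x)| by ring]
    exact h1
  have hcont : Continuous fun x : ℝ => ∑ k ∈ s, t k * ee (k * x) := by
    unfold ee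
    fun_prop
  have hcont2 : Continuous fun x : ℝ => |Real.cos (Real.pi * x)| := by fun_prop
  have hint : ∫ x in (0 : ℝ)..1, (∑ k ∈ s, t k * ee (k * x)).re = (t 0).re := by
    have e1 : ∫ x in (0 : ℝ)..1, ∑ k ∈ s, t k * ee (k * x) = t 0 := by
      rw [intervalIntegral.integral_finsetSum]
      · simp only [intervalIntegral.integral_const_mul, int_ee]
        rw [sum_eq_single_of_mem 0 h0s]
        · simp
        · intro k _ hk
          rw [if_neg hk, mul_zero]
      · intro k _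
        refine Continuous.intervalIntegrable ?_ _ _
        unfold ee
        fun_prop
    rw [← e1]
    exact (Complex.reCLM.intervalIntegral_comp_comm (hcont.intervalIntegrable 0 1))
  have hup : (t 0).re ≤ 2 / Real.pi + η := by
    rw [← hint, ← int_abs_cos]
    have e2 : (∫ x in (0 : ℝ)..1, |Real.cos (Real.pi * x)|) + η =
        ∫ x in (0 : ℝ)..1, (|Real.cos (Real.pi * x)| + η) := by
      rw [intervalIntegral.integral_add (hcont2.intervalIntegrable 0 1)
        (continuous_const.intervalIntegrable 0 1)]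
      simp
    rw [e2]
    refine intervalIntegral.integral_mono_on zero_le_one
      ((Complex.continuous_re.comp hcont).intervalIntegrable 0 1)
      ((hcont2.add continuous_const).intervalIntegrable 0 1) fun x _ => ?_
    have := (abs_le.mp (hre x)).2
    change (∑ k ∈ s, t k * ee (k * x)).re ≤ |Real.cos (Real.pi * x)| + η
    linarith
  have hlow : ∀ x : ℝ, |Real.cos (Real.pi * x)| ≤ (∑ k ∈ s, t k * ee (k * x)).re := fun x => by
    have := (abs_le.mp (hre x)).1
    linarith
  refine ⟨s, t, h0s, hlow, ?_, hup⟩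
  rw [← hint]
  exact intervalIntegral.integral_nonneg zero_le_one fun x _ => (abs_nonneg _).trans (hlow x)

/-- the density of the squarefree numbers. -/
lemma dn_lim (η : ℝ) (hη : 0 < η) : ∃ S : Finset ℕ, (∀ p ∈ S, p.Prime) ∧ S.Nonempty ∧
    dn S ≤ 6 / Real.pi ^ 2 + η := by
  have h1 := riemannZeta_eulerProduct (s := 2) (by norm_num)
  rw [riemannZeta_two] at h1
  have hne : ((Real.pi : ℂ) ^ 2 / 6) ≠ 0 := by
    have h2 : (Real.pi : ℂ) ≠ 0 := by exact_mod_cast Real.pi_ne_zero
    exact div_ne_zero (pow_ne_zero 2 h2) (by norm_num)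
  have h2 := (h1.inv₀ hne)
  have h3 := (Complex.continuous_re.tendsto _).comp h2
  have e1 : ((((Real.pi : ℂ) ^ 2 / 6)⁻¹ : ℂ)).re = 6 / Real.pi ^ 2 := by
    have : (((Real.pi : ℂ) ^ 2 / 6)⁻¹ : ℂ) = ((6 / Real.pi ^ 2 : ℝ) : ℂ) := by
      push_cast; rw [inv_div]
    rw [this, Complex.ofReal_re]
  rw [e1] at h3
  have h4 := (h3.eventually_lt_const (show 6 / Real.pi ^ 2 < 6 / Real.pi ^ 2 + η by linarith))
  obtain ⟨N, hN⟩ := Filter.eventually_atTop.mp h4
  have h5 := hN (max N 3) (le_max_left _ _)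
  refine ⟨(max N 3).primesBelow, fun p hp => Nat.prime_of_mem_primesBelow hp, ⟨2, ?_⟩, ?_⟩
  · rw [Nat.mem_primesBelow]
    exact ⟨lt_of_lt_of_le (by norm_num) (le_max_right N 3), Nat.prime_two⟩
  · refine le_trans (le_of_eq ?_) h5.le
    rw [Function.comp_apply, ← prod_inv_distrib]
    simp only [inv_inv]
    have e2 : ∏ p ∈ (max N 3).primesBelow, (1 - (p : ℂ) ^ (-2 : ℂ)) =
        ((dn (max N 3).primesBelow : ℝ) : ℂ) := by
      unfold dn
      push_cast
      refine prod_congr rfl fun p _ => ?_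
      congr 1
      rw [show (-2 : ℂ) = -((2 : ℕ) : ℂ) by norm_num, Complex.cpow_neg, Complex.cpow_natCast,
        one_div]
    rw [e2, Complex.ofReal_re]

end

end Pool.Agent.WC86.Pr
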