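import Pool.Agent.Lib.WC86.PLaw

/-! N_663568 (whole circle): the final form with the third bound.  helper86. -/

set_option autoImplicit false

namespace Pool.Agent.WC86

open Finset MeasureTheory Pool.Agent.Lib.MP_663568_nt Pool.Agent.Lib.MP_663568_nt.Katai
  Pool.Agent.Lib.MP_663568_nt.Nul Pool.Agent.Lib.MP_663568_nt.H6

noncomputable section

/-- the third bound on the whole circle. -/
theorem lawB (h1 : MinorB) (h2 : MajorSmall) (ε R : ℝ) (hε : 0 < ε) (hR : 1 ≤ R) :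
    ∃ H0 : ℕ, ∀ H N : ℕ, H0 ≤ H → H ≤ N → ∀ A : Set ℝ,
      Avg A N H ≤ (12 / Real.pi ^ 3 * (((1 - outer (Sy A) R) * √(8 / 3) + outer (Sy A) R) /
        (2 - outer (Sy A) R)) + ε) * H * Real.log N := by
  obtain ⟨Q, hQ, hm⟩ := h1 (ε / 2) R (by positivity) hR
  obtain ⟨d, hd0, hd1, H₂, h3⟩ := h2 (ε / 2) Q (by positivity)
  obtain ⟨H₁, h4⟩ := hm d hd0 hd1
  refine ⟨max H₁ H₂, fun H N hH hHN A => ?_⟩
  have key := h4 N H ((le_max_left _ _).trans hH) hHN A
  have hmaj := h3 H N ((le_max_right _ _).trans hH) hHN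
  have hsub : A ⊆ {y : ℝ | y ∈ A ∧ Min1 Q d y} ∪ Maj Q d := by
    intro y hy
    by_cases h : y ∈ Maj Q d
    · exact Or.inr h
    · refine Or.inl ⟨hy, fun q hq1 hq2 b => ?_⟩
      by_contra hlt
      exact h ⟨q, hq1, by exact_mod_cast hq2, b, not_le.mp hlt⟩
  rw [Avg_eq]
  calc ∑ n ∈ Icc 1 N, (1 / (n : ℝ)) * GS lin mu A H n ≤
      ∑ n ∈ Icc 1 N, (1 / (n : ℝ)) * GS lin mu {y : ℝ | y ∈ A ∧ Min1 Q d y} H n +
      ∑ n ∈ Icc 1 N, (1 / (n : ℝ)) * GS lin mu (Maj Q d) H n := by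
        rw [← sum_add_distrib]
        refine sum_le_sum fun n _ => ?_
        rw [← mul_add]
        exact mul_le_mul_of_nonneg_left (GS_union _ _ _ hsub H n) (by positivity)
    _ ≤ _ := add_le_add key hmaj
    _ = _ := by ring

lemma outer_nonneg (A : Set ℝ) (R : ℝ) : 0 ≤ outer A R := ENNReal.toReal_nonneg

lemma outer_le (A : Set ℝ) (R : ℝ) : outer A R ≤ 1 := by
  have h := ENNReal.toReal_mono ENNReal.one_ne_top (outer_le_one A R)
  simpa [outer] using h

lemma small_case (v : ℝ) (h1 : v ≤ 1 / 4) (h0 : 0 ≤ v) :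
    √(3 * v) / Real.pi ≤ 12 / Real.pi ^ 3 * ((4 + v) / 5) := by
  have hpi := Real.pi_gt_three
  have hpi2 := Real.pi_lt_d2
  have h2 : √(3 * v) ≤ 0.9 := by
    rw [Real.sqrt_le_iff]
    constructor
    · norm_num
    · nlinarith
  have h3 : √(3 * v) * Real.pi ^ 2 ≤ 12 * ((4 + v) / 5) := by
    have h4 : Real.pi ^ 2 ≤ 9.93 := by nlinarith
    calc √(3 * v) * Real.pi ^ 2 ≤ 0.9 * 9.93 :=
          mul_le_mul h2 h4 (by positivity) (by norm_num)
      _ ≤ 12 * ((4 + v) / 5) := by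
          have : (4 : ℝ) / 5 ≤ (4 + v) / 5 := by linarith
          linarith
  have e : 12 / Real.pi ^ 3 * ((4 + v) / 5) = 12 * ((4 + v) / 5) / Real.pi ^ 2 / Real.pi := by
    field_simp
  rw [e]
  refine div_le_div_of_nonneg_right ?_ (by positivity)
  rw [le_div_iff₀ (by positivity)]
  exact h3

lemma large_case (v : ℝ) (h1 : 1 / 4 ≤ v) (h2 : v ≤ 1) :
    ((1 - v) * √(8 / 3) + v) / (2 - v) ≤ (4 + v) / 5 := by
  have h3 : √(8 / 3) ≤ 1.65 := by
    rw [Real.sqrt_le_iff]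
    constructor <;> norm_num
  rw [div_le_div_iff₀ (by linarith) (by norm_num)]
  have h4 : (1 - v) * √(8 / 3) ≤ (1 - v) * 1.65 := mul_le_mul_of_nonneg_left h3 (by linarith)
  nlinarith

/-- the final form. -/
theorem finalB (h1 : MinorLaw) (h2 : MajorSmall) (h3 : MinorB) (ε R : ℝ) (hε : 0 < ε)
    (hR : 1 ≤ R) :
    ∃ H0 : ℕ, ∀ H N : ℕ, H0 ≤ H → H ≤ N → ∀ A : Set ℝ,
      Avg A N H ≤ (min (√(3 * outer (Sy A) R) / Real.pi)
        (12 / Real.pi ^ 3 * ((4 + outer (Sy A) R) / 5)) + ε) * H * Real.log N ∧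
      ∃ L : ℕ, (H : ℝ) ^ (1 - ε) ≤ L ∧ L ≤ H ∧
        inner (Sy A) R * Avg Set.univ N H / H - ε * Real.log N ≤ Avg A N L / L := by
  obtain ⟨Ha, ha⟩ := finalS h1 h2 ε R hε hR
  obtain ⟨Hb, hb⟩ := lawB h3 h2 ε R hε hR
  refine ⟨max (max Ha Hb) 1, fun H N hH hHN A => ⟨?_, ?_⟩⟩
  · have k1 := (ha H N (((le_max_left _ _).trans (le_max_left _ _)).trans hH) hHN A).1
    have k2 := hb H N (((le_max_right _ _).trans (le_max_left _ _)).trans hH) hHN A
    have hH1 : 1 ≤ H := (le_max_right _ _).trans hH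
    have hN1 : (1 : ℝ) ≤ N := by exact_mod_cast hH1.trans hHN
    have hlog : 0 ≤ Real.log N := Real.log_nonneg hN1
    have hv0 := outer_nonneg (Sy A) R
    have hv1 := outer_le (Sy A) R
    set v : ℝ := outer (Sy A) R with hv
    have k3 : Avg A N H ≤ (12 / Real.pi ^ 3 * ((4 + v) / 5) + ε) * H * Real.log N := by
      rcases le_total v (1 / 4) with h | h
      · refine k1.trans ?_
        have := small_case v h hv0
        gcongr
      · refine k2.trans ?_
        have h5 := large_case v h hv1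
        have h6 : 0 ≤ 12 / Real.pi ^ 3 := by positivity
        have := mul_le_mul_of_nonneg_left h5 h6
        gcongr
    rcases le_total (√(3 * v) / Real.pi) (12 / Real.pi ^ 3 * ((4 + v) / 5)) with h | h
    · rw [min_eq_left h]; exact k1
    · rw [min_eq_right h]; exact k3
  · exact (ha H N (((le_max_left _ _).trans (le_max_left _ _)).trans hH) hHN A).2

end

end Pool.Agent.WC86
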