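import Pool.Agent.Lib.WC86.FinS

/-! N_663568 (whole circle), third bound: exact statements.  helper86. -/

set_option autoImplicit false

namespace Pool.Agent.WC86

open Finset Pool.Agent.Lib.MP_663568_nt Pool.Agent.Lib.MP_663568_nt.Katai
  Pool.Agent.Lib.MP_663568_nt.Nul Pool.Agent.Lib.MP_663568_nt.H6

noncomputable section

/-- the frequency is outside the major arcs of level `Q` and width `d`. -/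
def Min1 (Q : ℕ) (d y : ℝ) : Prop := ∀ q : ℕ, 1 ≤ q → q ≤ Q → ∀ b : ℤ, d ≤ |(q : ℝ) * y - b|

/-- ROW P3: one frequency outside the major arcs, all windows. -/
def SingleLaw : Prop := ∀ η : ℝ, 0 < η → ∃ Q : ℕ, 1 ≤ Q ∧ ∀ d : ℝ, 0 < d → d ≤ 1 →
  ∃ H0 : ℕ, ∀ H n : ℕ, H0 ≤ H → ∀ y : ℝ, Min1 Q d y →
    ‖∑ h ∈ Icc 1 H, lin y (n + h) * mu (n + h)‖ ≤ (12 / Real.pi ^ 3 + η) * H

/-- ROW P4: two separated frequencies outside the major arcs, all windows. -/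
def PairLaw : Prop := ∀ η ρ : ℝ, 0 < η → 0 < ρ → ∃ Q : ℕ, 1 ≤ Q ∧ ∀ d : ℝ, 0 < d → d ≤ 1 →
  ∃ H0 : ℕ, ∀ H n : ℕ, H0 ≤ H → ∀ y₁ y₂ : ℝ, Min1 Q d y₁ → Min1 Q d y₂ →
    (∀ b : ℤ, ρ ≤ |y₁ - y₂ - b|) → (∀ b : ℤ, ρ ≤ |y₁ + y₂ - b|) →
    ‖∑ h ∈ Icc 1 H, lin y₁ (n + h) * mu (n + h)‖ + ‖∑ h ∈ Icc 1 H, lin y₂ (n + h) * mu (n + h)‖ ≤
      (√(8 / 3) * (12 / Real.pi ^ 3) + η) * H

/-- ROW M: the third bound outside the major arcs. -/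
def MinorB : Prop := ∀ ε R : ℝ, 0 < ε → 1 ≤ R → ∃ Q : ℕ, 1 ≤ Q ∧ ∀ d : ℝ, 0 < d → d ≤ 1 →
  ∃ H0 : ℕ, ∀ N H : ℕ, H0 ≤ H → H ≤ N → ∀ A : Set ℝ,
    ∑ n ∈ Icc 1 N, (1 / (n : ℝ)) * GS lin mu {y | y ∈ A ∧ Min1 Q d y} H n ≤
      (12 / Real.pi ^ 3 * (((1 - outer (Sy A) R) * √(8 / 3) + outer (Sy A) R) /
        (2 - outer (Sy A) R)) + ε) * H * Real.log N

end

end Pool.Agent.WC86
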