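import Pool.Agent.Lib.WC86.WinB
import Pool.Agent.Lib.WC86.PDefs
import Pool.Agent.Lib.MP_663568_dch.Law

/-! N_663568 (whole circle), third bound (row M): `SingleLaw → PairLaw → MinorB`.  helper71. -/

set_option autoImplicit false

namespace Pool.Agent.WC86

open Finset MeasureTheory Pool.Agent.Lib.MP_663568_nt Pool.Agent.Lib.MP_663568_nt.Katai
  Pool.Agent.Lib.MP_663568_nt.Nul Pool.Agent.Lib.MP_663568_nt.H6

open Pool.Agent.Lib.MP_663568_dch (ph mo norm_mo_le mult_mo gb gb_nonneg gb_le_one Xg avgB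
  up_J low_range equ_lower exists_log_ge norm_ph)

noncomputable section

lemma min1_sq {Q : ℕ} {d y : ℝ} (h : Min1 Q d y) : Sq Q d y := by
  intro q hq1 hq2
  obtain ⟨b, hb⟩ := nd_exists ((q : ℝ) * y)
  rw [hb]
  exact h q hq1 (by exact_mod_cast hq2) b

lemma sq_min1 {Q : ℕ} {Q' d y : ℝ} (hQ : (Q : ℝ) ≤ Q') (h : Sq Q' d y) : Min1 Q d y := by
  intro q hq1 hq2 b
  have h1 : (q : ℝ) ≤ Q' := le_trans (by exact_mod_cast hq2) hQ
  exact (h q hq1 h1).trans (nd_le _ b)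

lemma Xg_le (a : ℕ → ℂ) (ha : ∀ n, ‖a n‖ ≤ 1) (T : Set ℝ) (N L : ℕ) :
    Xg a T N L ≤ 1 + Real.log N := by
  refine le_trans ?_ (sum_inv_le_log N)
  rw [Xg]
  refine sum_le_sum fun n _ => ?_
  calc (1 / (n : ℝ)) * gb a T n L ≤ (1 / (n : ℝ)) * 1 :=
        mul_le_mul_of_nonneg_left (gb_le_one a ha T n L) (by positivity)
    _ = _ := mul_one _

lemma Xg_mul (a : ℕ → ℂ) (T : Set ℝ) (N L : ℕ) (hL : 0 < L) :
    ∑ n ∈ Icc 1 N, (1 / (n : ℝ)) * GS ph a T L n = L * Xg a T N L := by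
  have hLr : (0 : ℝ) < L := by exact_mod_cast hL
  rw [Xg, mul_sum]
  refine sum_congr rfl fun n _ => ?_
  rw [gb]
  field_simp

/-- the last computation -/
lemma numB (v K η lN C X Y : ℝ) (hv0 : 0 ≤ v) (hv1 : v ≤ 1) (hK0 : 0 ≤ K) (hK1 : K ≤ 1)
    (hη : 0 < η) (hη1 : η ≤ 1 / 64) (hC : C + 8 ≤ η * lN) (hX0 : 0 ≤ X)
    (h1 : (1 - v) * X + Y ≤ (1 + lN) * (K + 5 * η) + C)
    (h2 : X ≤ Y + 2 + 3 * η * (1 + lN)) (hlN : 0 ≤ lN) :
    X ≤ (K / (2 - v) + 9 * η) * lN := by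
  have h2v : 0 < 2 - v := by linarith
  have h3 : (2 - v) * X ≤ (K + 9 * η) * lN := by nlinarith
  have h4 : X ≤ (K + 9 * η) * lN / (2 - v) := by rw [le_div_iff₀ h2v]; linarith
  refine h4.trans ?_
  have h5 : (K + 9 * η) * lN / (2 - v) = K / (2 - v) * lN + 9 * η * lN / (2 - v) := by
    field_simp
  have h6 : 9 * η * lN / (2 - v) ≤ 9 * η * lN := div_le_self (by positivity) (by linarith)
  rw [h5]; linarith

theorem minorB (hS : SingleLaw) (hP : PairLaw) : MinorB := by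
  intro ε R hε hR
  have hR0 : 0 < R := by linarith
  obtain ⟨η, hη⟩ : ∃ η : ℝ, η = min ε 1 / 64 := ⟨_, rfl⟩
  have hη0 : 0 < η := by rw [hη]; positivity
  have hη1 : η ≤ 1 / 64 := by
    rw [hη]
    have := min_le_right ε 1
    linarith
  have hηε : 9 * η ≤ ε := by
    rw [hη]
    have := min_le_left ε 1
    have h0 : 0 < min ε 1 := by positivity
    linarith
  obtain ⟨M, hM⟩ : ∃ M : ℝ, M = 12 / Real.pi ^ 3 := ⟨_, rfl⟩
  obtain ⟨Pc, hPc⟩ : ∃ Pc : ℝ, Pc = √(8 / 3) * (12 / Real.pi ^ 3) := ⟨_, rfl⟩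
  have hpi := Real.pi_gt_three
  have hpi3 : 27 ≤ Real.pi ^ 3 := by
    have : (3 : ℝ) ^ 3 ≤ Real.pi ^ 3 := pow_le_pow_left₀ (by norm_num) hpi.le 3
    linarith
  have hM0 : 0 ≤ M := by rw [hM]; positivity
  have hM1 : M ≤ 12 / 27 := by
    rw [hM]
    exact div_le_div_of_nonneg_left (by norm_num) (by norm_num) hpi3
  have hs1 : (1 : ℝ) ≤ √(8 / 3) := by rw [Real.one_le_sqrt]; norm_num
  have hs2 : √(8 / 3 : ℝ) ≤ 2 := by
    rw [show (2 : ℝ) = √(2 ^ 2) by rw [Real.sqrt_sq (by norm_num)]]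
    exact Real.sqrt_le_sqrt (by norm_num)
  have hPcM : Pc = √(8 / 3) * M := by rw [hPc, hM]
  have hMP : M ≤ Pc := by rw [hPcM]; nlinarith
  have hP1 : Pc ≤ 1 := by rw [hPcM]; nlinarith
  obtain ⟨ρ, hρ⟩ : ∃ ρ : ℝ, ρ = 1 / (2 * R) := ⟨_, rfl⟩
  have hρ0 : 0 < ρ := by rw [hρ]; positivity
  obtain ⟨QS, hQS1, hS'⟩ := hS η hη0
  obtain ⟨QP, hQP1, hP'⟩ := hP η ρ hη0 hρ0
  obtain ⟨Q', hQ'⟩ : ∃ Q' : ℕ, Q' = max QS QP := ⟨_, rfl⟩
  have hQ'S : QS ≤ Q' := by rw [hQ']; exact le_max_left _ _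
  have hQ'P : QP ≤ Q' := by rw [hQ']; exact le_max_right _ _
  obtain ⟨J, hJ⟩ : ∃ J : ℕ, J = ⌈1 / η⌉₊ := ⟨_, rfl⟩
  have hJη : 1 / η ≤ J := by rw [hJ]; exact Nat.le_ceil _
  have hJ0 : (0 : ℝ) < J := lt_of_lt_of_le (by positivity) hJη
  have hJ1 : 1 ≤ J := by exact_mod_cast hJ0
  have hJi : 1 / (J : ℝ) ≤ η := by
    rw [div_le_iff₀ hη0] at hJη
    rw [div_le_iff₀ hJ0]
    linarith
  obtain ⟨D, hD, hlow⟩ := low_range η hη0 J
  obtain ⟨P₀, hP₀⟩ : ∃ P₀ : ℕ, P₀ = ⌈8 / η⌉₊ + 2 * Q' + 1 := ⟨_, rfl⟩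
  have hP₀8 : 8 / η ≤ (P₀ : ℝ) := by
    rw [hP₀]; push_cast
    have := Nat.le_ceil (8 / η)
    have h3 : (0 : ℝ) ≤ (Q' : ℝ) := Nat.cast_nonneg _
    linarith
  have hP₀Q : 2 * (Q' : ℝ) ≤ P₀ := by
    rw [hP₀]; push_cast
    have h3 : (0 : ℝ) ≤ (⌈8 / η⌉₊ : ℝ) := Nat.cast_nonneg _
    linarith
  have hP₀0 : 0 < P₀ := by omega
  have hP₀r : (0 : ℝ) < P₀ := by exact_mod_cast hP₀0
  obtain ⟨W₀, hW₀⟩ : ∃ W₀ : ℝ, W₀ = 4 * (8 / η ^ 2 + 1) / η := ⟨_, rfl⟩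
  have hW₀0 : 0 < W₀ := by rw [hW₀]; positivity
  have herr : 4 / W₀ * (8 / η ^ 2 + Q' * (2 / P₀)) ≤ η := by
    have h1 : (Q' : ℝ) * (2 / P₀) ≤ 1 := by
      rw [mul_div_assoc', div_le_one hP₀r]
      linarith
    calc 4 / W₀ * (8 / η ^ 2 + Q' * (2 / P₀)) ≤ 4 / W₀ * (8 / η ^ 2 + 1) := by gcongr
      _ = η := by rw [hW₀]; field_simp
  obtain ⟨B, hB1, hB⟩ := equ_lower P₀ W₀ η hη0 (by linarith)
  obtain ⟨Q, hQ⟩ : ∃ Q : ℕ, Q = Q' + D + ⌈(B : ℝ) * (2 * R) ^ B⌉₊ := ⟨_, rfl⟩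
  have hQQ' : (Q' : ℝ) ≤ Q := by rw [hQ]; exact_mod_cast (by omega)
  have hQD : (D : ℝ) ≤ Q := by rw [hQ]; exact_mod_cast (by omega)
  have hQB : (B : ℝ) * (2 * R) ^ B ≤ Q := by
    rw [hQ]; push_cast
    have := Nat.le_ceil ((B : ℝ) * (2 * R) ^ B)
    have h3 : (0 : ℝ) ≤ (Q' : ℝ) := Nat.cast_nonneg _
    have h4 : (0 : ℝ) ≤ (D : ℝ) := Nat.cast_nonneg _
    linarith
  refine ⟨Q, by omega, fun d hd hd1 => ?_⟩
  obtain ⟨P, P', hPp, hPp', hWP, hWP', hE⟩ := hB R hR d hd hd1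
  obtain ⟨Zn, hZn⟩ : ∃ Zn : ℕ, Zn = 1 + ∑ p ∈ P, p + ∑ p ∈ P', p := ⟨_, rfl⟩
  have hZ : ∀ p ∈ P, (p : ℝ) ≤ Zn := by
    intro p hp
    have h3 : p ≤ ∑ p ∈ P, p := single_le_sum (f := fun p : ℕ => p) (fun _ _ => Nat.zero_le _) hp
    have : p ≤ Zn := by omega
    exact_mod_cast this
  have hZ' : ∀ p ∈ P', (p : ℝ) ≤ Zn := by
    intro p hp
    have h3 : p ≤ ∑ p ∈ P', p := single_le_sum (f := fun p : ℕ => p) (fun _ _ => Nat.zero_le _) hp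
    have : p ≤ Zn := by omega
    exact_mod_cast this
  have hZn1 : 1 ≤ Zn := by omega
  have hZr : (1 : ℝ) ≤ Zn := by exact_mod_cast hZn1
  have hZ2 : (1 : ℝ) ≤ (Zn : ℝ) ^ 2 := one_le_pow₀ hZr
  obtain ⟨d', hd'⟩ : ∃ d' : ℝ, d' = d / (4 * (Zn : ℝ) ^ 2) := ⟨_, rfl⟩
  have hd'0 : 0 < d' := by rw [hd']; positivity
  have hd'd : d' ≤ d := by
    rw [hd', div_le_iff₀ (by positivity)]
    have : 1 ≤ 4 * (Zn : ℝ) ^ 2 := by linarith
    exact le_mul_of_one_le_right hd.le this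
  have hdd : 2 * (Zn : ℝ) ^ 2 * d' < d := by
    have e : 2 * (Zn : ℝ) ^ 2 * d' = d / 2 := by rw [hd']; field_simp; norm_num
    rw [e]; linarith
  obtain ⟨HS, hHS⟩ := hS' d' hd'0 (hd'd.trans hd1)
  obtain ⟨HP, hHP⟩ := hP' d' hd'0 (hd'd.trans hd1)
  obtain ⟨Lh, hLh⟩ := exists_longH P P' (fun p hp => (hPp p hp).1) η
  obtain ⟨N₁, hN₁1, hN₁⟩ := exists_log_ge ((Real.log ((Zn : ℝ) ^ 2) + 3 + 8) / η)
  refine ⟨(HS + HP + 1) * Zn ^ 2 + Lh + N₁ + ⌈(D : ℝ) / (d * η)⌉₊ + Zn ^ 2 + 1, ?_⟩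
  intro N H hH hHN A
  obtain ⟨T, hT⟩ : ∃ T : Set ℝ, T = {y | y ∈ A ∧ Min1 Q d y} := ⟨_, rfl⟩
  have hTq : ∀ y ∈ T, Sq Q d y := by
    intro y hy
    rw [hT] at hy
    exact min1_sq hy.2
  obtain ⟨v, hv⟩ : ∃ v : ℝ, v = outer (Sy A) R := ⟨_, rfl⟩
  have hv0 : 0 ≤ v := by rw [hv]; exact ENNReal.toReal_nonneg
  have hfin : volume {y : ℝ | y ∈ Set.Icc 0 1 ∧ ∃ α ∈ Sy A, ∃ b : ℤ, |α - y - b| ≤ 1 / R} ≤ 1 := by
    refine (measure_mono (fun y hy => hy.1)).trans ?_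
    rw [Real.volume_Icc]; norm_num
  have hv1 : v ≤ 1 := by
    rw [hv, outer]
    have := ENNReal.toReal_mono ENNReal.one_ne_top hfin
    simpa using this
  have hvol : volume {y : ℝ | y ∈ Set.Icc (0 : ℝ) 1 ∧ ∃ α ∈ Sy A, nd (α - y) ≤ 1 / R} ≤
      ENNReal.ofReal v := by
    rw [hv, outer, ENNReal.ofReal_toReal (ne_top_of_le_ne_top ENNReal.one_ne_top hfin)]
    apply measure_mono
    rintro y ⟨hy, α, hα, hn⟩
    obtain ⟨b, hb⟩ := nd_exists (α - y)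
    rw [hb] at hn
    exact ⟨hy, α, hα, b, hn⟩
  obtain ⟨φ, hφ0, hφ1, hφA, hφy⟩ := hE (Sy A) v hv0 hvol
  have hφT : ∀ x, φ x ≠ 0 → ∀ α ∈ T, ρ ≤ nd (x - α) ∧ ρ ≤ nd (x + α) := by
    intro x hx α hα
    rw [hT] at hα
    constructor
    · have h1 := (hφA x hx α (Or.inl hα.1)).le
      rw [← nd_neg, neg_sub, ← hρ] at h1
      exact h1
    · have h1 := (hφA x hx (-α) (Or.inr (by simpa using hα.1))).le
      rw [← nd_neg, ← hρ] at h1
      have e : -(-α - x) = x + α := by ring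
      rwa [e] at h1
  have hzp : ∀ z ∈ P ×ˢ P', 0 < z.1 * z.2 ∧ z.1 * z.2 ≤ Zn ^ 2 := by
    intro z hz
    rw [mem_product] at hz
    refine ⟨Nat.mul_pos (hPp _ hz.1).1.pos (hPp' _ hz.2).1.pos, ?_⟩
    have h3 := hZ _ hz.1
    have h4 := hZ' _ hz.2
    have h5 : z.1 ≤ Zn := by exact_mod_cast h3
    have h6 : z.2 ≤ Zn := by exact_mod_cast h4
    calc z.1 * z.2 ≤ Zn * Zn := Nat.mul_le_mul h5 h6
      _ = Zn ^ 2 := by ring
  have hHz : ∀ z ∈ P ×ˢ P', HS + HP + 1 ≤ H / z.1 / z.2 := by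
    intro z hz
    rw [Nat.div_div_eq_div_mul, Nat.le_div_iff_mul_le (hzp z hz).1]
    exact (Nat.mul_le_mul_left _ (hzp z hz).2).trans (by omega)
  have hNr : (1 : ℝ) ≤ N := by
    have : 1 ≤ N := by omega
    exact_mod_cast this
  have hlN0 : 0 ≤ Real.log N := Real.log_nonneg hNr
  obtain ⟨z, hz, hav⟩ := avgB mo norm_mo_le mult_mo P P' (fun p hp => (hPp p hp).1)
    (fun p hp => (hPp' p hp).1) P₀ hP₀0 (fun p hp => (hPp p hp).2) (fun p hp => (hPp' p hp).2)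
    Zn hZ hZ' W₀ hW₀0 hWP hWP' η hη0 hP₀8 Q d Q' d' ρ (M + η) (Pc + η) (Nat.cast_nonneg _) hQQ'
    hdd (by linarith) (by linarith) T hTq (fun y hy => (hTq y hy).mono hQQ' hd'd) φ hφ0 hφ1 hφT
    v hv0 hv1 (fun y hy => hφy y (hy.mono hQB le_rfl)) H (hLh H (by omega)) (HS + HP + 1)
    (fun z hz => ⟨hHz z hz, lt_of_lt_of_le (by omega) (hHz z hz)⟩)
    (fun m L hL y hy => by
      have h1 := hHS L m (by omega) y (sq_min1 (by exact_mod_cast hQ'S) hy)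
      rw [← hM] at h1
      exact h1)
    (fun m L hL y₁ y₂ hy₁ hy₂ h1 h2 => by
      have h3 := hHP L m (by omega) y₁ y₂ (sq_min1 (by exact_mod_cast hQ'P) hy₁)
        (sq_min1 (by exact_mod_cast hQ'P) hy₂) (fun b => h1.trans (nd_le _ b))
        (fun b => h2.trans (nd_le _ b))
      rw [← hPc] at h3
      exact h3) N (by
      have : Zn ^ 2 ≤ N := by omega
      exact_mod_cast this)
  obtain ⟨L, hL⟩ : ∃ L : ℕ, L = H / z.1 / z.2 := ⟨_, rfl⟩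
  rw [← hL] at hav
  have hL0 : 0 < L := by
    rw [hL]
    exact lt_of_lt_of_le (by omega) (hHz z hz)
  have hLH : L ≤ H := by
    rw [hL, Nat.div_div_eq_div_mul]; exact Nat.div_le_self _ _
  have hH0 : 0 < H := by omega
  have hHr : (0 : ℝ) < H := by exact_mod_cast hH0
  have hLr : (0 : ℝ) < L := by exact_mod_cast hL0
  have hLη : (L : ℝ) ≤ η * H := by
    have hz2 := hz
    rw [mem_product] at hz2
    have h1 : P₀ ≤ z.1 := (hPp _ hz2.1).2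
    have h2 : L ≤ H / z.1 := by rw [hL]; exact Nat.div_le_self _ _
    have h3 : (L : ℝ) ≤ (H : ℝ) / z.1 := le_trans (by exact_mod_cast h2) Nat.cast_div_le
    have h4 : (P₀ : ℝ) ≤ z.1 := by exact_mod_cast h1
    have h5 : (H : ℝ) / z.1 ≤ H / P₀ := div_le_div_of_nonneg_left hHr.le hP₀r h4
    have h6 : (H : ℝ) / P₀ ≤ η * H := by
      rw [div_le_iff₀ hP₀r]
      rw [div_le_iff₀ hη0] at hP₀8
      nlinarith
    linarith
  -- from short windows to long windows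
  have hup := up_J mo norm_mo_le T H L N J hL0 hLH hHN hJ1
  rw [Xg_mul mo T N L hL0] at hup
  have hHD : (D : ℝ) / (d * η) ≤ H := by
    refine (Nat.le_ceil _).trans ?_
    exact_mod_cast (by omega)
  have hterm : ∀ n ∈ Ico 1 (J * H), (1 / (n : ℝ)) * GS ph mo T H n ≤
      (1 / (n : ℝ)) * (η * H) := by
    intro n hn
    rw [mem_Ico] at hn
    refine mul_le_mul_of_nonneg_left ?_ (by positivity)
    rw [GS, GG]
    apply Real.iSup_le
    · rintro ⟨y, hy⟩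
      exact hlow mo norm_mo_le mult_mo d hd hd1 y ((hTq y hy).mono hQD le_rfl) H n hHD hn.2.le
    · positivity
  have hsplit : ∑ n ∈ Icc 1 N, (1 / (n : ℝ)) * GS ph mo T H n ≤
      ∑ n ∈ (Ico 1 (J * H)).filter (fun n => n ≤ N), (1 / (n : ℝ)) * GS ph mo T H n +
      ∑ n ∈ Icc (J * H) N, (1 / (n : ℝ)) * GS ph mo T H n := by
    rw [← sum_union]
    · apply sum_le_sum_of_subset_of_nonneg
      · intro n hn
        rw [mem_Icc] at hn
        rw [mem_union, mem_filter, mem_Ico, mem_Icc]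
        omega
      · intro n _ _
        exact mul_nonneg (by positivity) (GS_nonneg _ _ _ _ _)
    · rw [disjoint_left]
      intro n hn hn'
      rw [mem_filter, mem_Ico] at hn
      rw [mem_Icc] at hn'
      omega
  have hshort : ∑ n ∈ (Ico 1 (J * H)).filter (fun n => n ≤ N), (1 / (n : ℝ)) * GS ph mo T H n ≤
      η * H * (1 + Real.log N) := by
    calc _ ≤ ∑ n ∈ (Ico 1 (J * H)).filter (fun n => n ≤ N), (1 / (n : ℝ)) * (η * H) :=
          sum_le_sum fun n hn => hterm n (mem_filter.mp hn).1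
      _ = η * H * ∑ n ∈ (Ico 1 (J * H)).filter (fun n => n ≤ N), (1 / (n : ℝ)) := by
          rw [← sum_mul, mul_comm]
      _ ≤ η * H * (1 + Real.log N) := by
          apply mul_le_mul_of_nonneg_left _ (by positivity)
          refine le_trans ?_ (sum_inv_le_log N)
          apply sum_le_sum_of_subset_of_nonneg
          · intro n hn
            rw [mem_filter, mem_Ico] at hn
            rw [mem_Icc]; omega
          · intro n _ _; positivity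
  have hX0 : 0 ≤ Xg mo T N H := sum_nonneg fun n _ => mul_nonneg (by positivity) (gb_nonneg _ _ _ _)
  have hXL := Xg_le mo norm_mo_le T N L
  have hXL0 : 0 ≤ Xg mo T N L :=
    sum_nonneg fun n _ => mul_nonneg (by positivity) (gb_nonneg _ _ _ _)
  have h20 : Xg mo T N H ≤ Xg mo T N L + 2 + 3 * η * (1 + Real.log N) := by
    have e1 := Xg_mul mo T N H hH0
    rw [e1] at hsplit
    have e2 : (H / L : ℝ) * ((1 + 1 / (J : ℝ)) * (L * Xg mo T N L + L)) =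
        H * ((1 + 1 / (J : ℝ)) * (Xg mo T N L + 1)) := by field_simp
    rw [e2] at hup
    have h21 : H * ((1 + 1 / (J : ℝ)) * (Xg mo T N L + 1)) ≤
        H * ((1 + η) * (Xg mo T N L + 1)) := by gcongr
    have h22 : (L : ℝ) * (1 + Real.log N) ≤ η * H * (1 + Real.log N) :=
      mul_le_mul_of_nonneg_right hLη (by linarith)
    have h23 : (H : ℝ) * Xg mo T N H ≤
        H * ((1 + η) * (Xg mo T N L + 1) + 2 * η * (1 + Real.log N)) := by nlinarith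
    have h24 := le_of_mul_le_mul_left h23 hHr
    nlinarith
  obtain ⟨K, hK⟩ : ∃ K : ℝ, K = v * M + (1 - v) * Pc := ⟨_, rfl⟩
  have hK0 : 0 ≤ K := by
    rw [hK]
    have a1 : 0 ≤ v * M := mul_nonneg hv0 hM0
    have a2 : 0 ≤ (1 - v) * Pc := mul_nonneg (by linarith) (by linarith)
    linarith
  have hK1 : K ≤ 1 := by rw [hK]; nlinarith
  have h25 : (1 - v) * Xg mo T N H + Xg mo T N L ≤
      (1 + Real.log N) * (K + 5 * η) + (Real.log ((Zn : ℝ) ^ 2) + 3) := by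
    refine hav.trans ?_
    apply add_le_add _ le_rfl
    apply mul_le_mul_of_nonneg_left _ (by linarith)
    rw [hK]; nlinarith
  have hlog := hN₁ N (by omega)
  rw [div_le_iff₀ hη0] at hlog
  have h26 := numB v K η (Real.log N) (Real.log ((Zn : ℝ) ^ 2) + 3) (Xg mo T N H) (Xg mo T N L)
    hv0 hv1 hK0 hK1 hη0 hη1 (by linarith) hX0 h25 h20 hlN0
  have e3 : ∑ n ∈ Icc 1 N, (1 / (n : ℝ)) * GS lin mu {y | y ∈ A ∧ Min1 Q d y} H n =
      H * Xg mo T N H := by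
    rw [← Xg_mul mo T N H hH0, hT]
    rfl
  rw [e3, ← hv]
  have e4 : 12 / Real.pi ^ 3 * (((1 - v) * √(8 / 3) + v) / (2 - v)) = K / (2 - v) := by
    rw [hK, hPcM, ← hM]
    ring
  rw [e4]
  calc (H : ℝ) * Xg mo T N H ≤ H * ((K / (2 - v) + 9 * η) * Real.log N) :=
        mul_le_mul_of_nonneg_left h26 hHr.le
    _ ≤ H * ((K / (2 - v) + ε) * Real.log N) := by gcongr
    _ = _ := by ring

end

end Pool.Agent.WC86
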