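import Pool.Agent.Lib.WC86.Pair

/-! N_663568 (whole circle), rows P3, P4: `SingleLaw` and `PairLaw`.  helper86. -/

set_option autoImplicit false

namespace Pool.Agent.WC86

open Finset MeasureTheory Pool.Agent.Lib.MP_663568_nt Pool.Agent.Lib.MP_663568_nt.Katai
  Pool.Agent.Lib.MP_663568_nt.Nul Pool.Agent.Lib.MP_663568_nt.H6 Pr

noncomputable section

lemma prod_const (e : ℝ) (he : 0 < e) (he1 : e ≤ 1) (x D : ℝ) (hx : x ≤ 2 / Real.pi + e)
    (hD0 : 0 ≤ D) (hD : D ≤ 6 / Real.pi ^ 2 + e) : x * D ≤ 12 / Real.pi ^ 3 + 3 * e := by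
  have hpi := Real.pi_gt_three
  have h1 : 2 / Real.pi ≤ 1 := by rw [div_le_one (by linarith)]; linarith
  have h2 : 6 / Real.pi ^ 2 ≤ 1 := by rw [div_le_one (by positivity)]; nlinarith
  have h3 : 0 ≤ 2 / Real.pi + e := by positivity
  calc x * D ≤ (2 / Real.pi + e) * D := mul_le_mul_of_nonneg_right hx hD0
    _ ≤ (2 / Real.pi + e) * (6 / Real.pi ^ 2 + e) := mul_le_mul_of_nonneg_left hD h3
    _ = 2 / Real.pi * (6 / Real.pi ^ 2) + (2 / Real.pi + 6 / Real.pi ^ 2 + e) * e := by ring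
    _ ≤ 12 / Real.pi ^ 3 + 3 * e := by
        have e1 : 2 / Real.pi * (6 / Real.pi ^ 2) = 12 / Real.pi ^ 3 := by
          field_simp; norm_num
        rw [e1]
        refine add_le_add le_rfl (mul_le_mul_of_nonneg_right ?_ he.le)
        linarith

/-- **One frequency outside the major arcs.** -/
theorem singleLaw : SingleLaw := by
  intro η hη
  obtain ⟨e, he⟩ : ∃ e : ℝ, e = min 1 (η / 6) := ⟨_, rfl⟩
  have he0 : 0 < e := by rw [he]; positivity
  have he1 : e ≤ 1 := by rw [he]; exact min_le_left _ _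
  have he2 : 3 * e ≤ η / 2 := by
    have : e ≤ η / 6 := by rw [he]; exact min_le_right _ _
    linarith
  obtain ⟨s, t, h0, hmaj, ht0, ht1⟩ := majorant e he0
  obtain ⟨S, hS, hne, hdn⟩ := dn_lim e he0
  obtain ⟨C, hC0, hC⟩ := dens_win S hS
  refine ⟨∑ k ∈ s, (2 * WS S * k).natAbs + 1, by omega, fun d hd hd1 => ?_⟩
  obtain ⟨T, hT⟩ : ∃ T : ℝ, T = (t 0).re * C + (∑ k ∈ s, ‖t k‖) * (WS S / (2 * d)) := ⟨_, rfl⟩
  have hT0 : 0 ≤ T := by
    rw [hT]
    have : 0 ≤ ∑ k ∈ s, ‖t k‖ := sum_nonneg fun _ _ => norm_nonneg _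
    positivity
  refine ⟨⌈T / (η / 2)⌉₊, fun H n hH y hy => ?_⟩
  have hQ : ∀ k ∈ s, (2 * WS S * k).natAbs ≤ ∑ k ∈ s, (2 * WS S * k).natAbs + 1 := fun k hk =>
    (single_le_sum (f := fun k : ℤ => (2 * WS S * k).natAbs) (fun _ _ => Nat.zero_le _) hk).trans
      (Nat.le_succ _)
  have h1 := single_core S hS s t h0 hmaj _ d hd hQ y hy n H
  have h2 := hC n H
  rw [abs_le] at h2
  have hHr : T / (η / 2) ≤ H := (Nat.le_ceil _).trans (by exact_mod_cast hH)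
  rw [div_le_iff₀ (by positivity)] at hHr
  have hH0 : (0 : ℝ) ≤ H := Nat.cast_nonneg _
  have h3 : (t 0).re * (∑ h ∈ Icc 1 H, sf S (n + h)) ≤ (t 0).re * (dn S * H + C) :=
    mul_le_mul_of_nonneg_left (by linarith) ht0
  have h4 := mul_le_mul_of_nonneg_right
    (prod_const e he0 he1 (t 0).re (dn S) ht1 (dn_nonneg S hS) hdn) hH0
  have h5 : 3 * e * H ≤ η / 2 * H := mul_le_mul_of_nonneg_right he2 hH0
  calc _ ≤ _ := h1
    _ ≤ (t 0).re * (dn S * H + C) + (∑ k ∈ s, ‖t k‖) * (WS S / (2 * d)) := by linarith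
    _ = (t 0).re * dn S * H + T := by rw [hT]; ring
    _ ≤ (12 / Real.pi ^ 3 + 3 * e) * H + H * (η / 2) := by linarith
    _ ≤ _ := by
        have : (12 / Real.pi ^ 3 + 3 * e) * H = 12 / Real.pi ^ 3 * H + 3 * e * H := by ring
        rw [this]
        have : (12 / Real.pi ^ 3 + η) * H = 12 / Real.pi ^ 3 * H + η / 2 * H + η / 2 * H := by ring
        rw [this]
        linarith

lemma lin_neg_norm (y : ℝ) (n H : ℕ) :
    ‖∑ h ∈ Icc 1 H, lin (-y) (n + h) * mu (n + h)‖ =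
      ‖∑ h ∈ Icc 1 H, lin y (n + h) * mu (n + h)‖ := ws_neg y H n

lemma min1_neg (Q : ℕ) (d y : ℝ) (h : Min1 Q d y) : Min1 Q d (-y) := by
  intro q hq1 hq2 b
  have := h q hq1 hq2 (-b)
  rw [show (q : ℝ) * (-y) - b = -((q : ℝ) * y - ((-b : ℤ) : ℝ)) by push_cast; ring, abs_neg]
  exact this

/-- **Two separated frequencies outside the major arcs.** -/
theorem pairLaw : PairLaw := by
  intro η ρ hη hρ
  obtain ⟨e, he⟩ : ∃ e : ℝ, e = min 1 (η / 12) := ⟨_, rfl⟩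
  have he0 : 0 < e := by rw [he]; positivity
  have he1 : e ≤ 1 := by rw [he]; exact min_le_left _ _
  have he2 : 6 * e ≤ η / 2 := by
    have : e ≤ η / 12 := by rw [he]; exact min_le_right _ _
    linarith
  obtain ⟨s, t, h0, hmaj, ht0, ht1⟩ := majorant e he0
  obtain ⟨S, hS, hne, hdn⟩ := dn_lim e he0
  obtain ⟨C, hC0, hC⟩ := dens_win S hS
  obtain ⟨C', hC'0, hC'⟩ := sep_small S hS hne ρ hρ
  have hWS : 0 < WS S := prod_pos fun p hp => pow_pos (hS p hp).pos 2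
  -- the bound for the indices
  obtain ⟨K, hK⟩ : ∃ K : ℕ, K = ∑ k ∈ s, k.natAbs + 1 := ⟨_, rfl⟩
  have hKs : ∀ k ∈ s, k.natAbs + 1 ≤ K := fun k hk => by
    rw [hK]
    exact Nat.succ_le_succ (single_le_sum (f := fun k : ℤ => k.natAbs) (fun _ _ => Nat.zero_le _) hk)
  have hK1 : 1 ≤ K := by omega
  obtain ⟨τ, hτ⟩ : ∃ τ : ℝ, τ = √(8 / 3) := ⟨_, rfl⟩
  have hτ0 : 0 < τ := by rw [hτ]; positivity
  have hτ2 : τ ^ 2 = 8 / 3 := by rw [hτ]; exact Real.sq_sqrt (by norm_num)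
  have hτ3 : τ ≤ 2 := by nlinarith
  have hτ4 : 1.6 ≤ τ := by
    by_contra hcon
    push Not at hcon
    nlinarith
  refine ⟨2 * WS S * K, Nat.mul_pos (by omega) (by omega), fun d hd hd1 => ?_⟩
  obtain ⟨δ, hδ⟩ : ∃ δ : ℝ, δ = d / (2 * K) := ⟨_, rfl⟩
  have hKr : (1 : ℝ) ≤ K := by exact_mod_cast hK1
  have hδ0 : 0 < δ := by rw [hδ]; positivity
  have hδK : δ * K = d / 2 := by rw [hδ]; field_simp
  have hδd : δ ≤ d / 2 := by nlinarith
  obtain ⟨T, hT⟩ : ∃ T : ℝ, T = (t 0).re * ((τ / 2 + 1 / τ) * C + 1 / τ * C') +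
      (∑ k ∈ s, ‖t k‖) * ((τ / 2 + 2 / τ) * (WS S / (2 * δ))) := ⟨_, rfl⟩
  obtain ⟨T', hT'⟩ : ∃ T' : ℝ, T' = C + WS S / δ := ⟨_, rfl⟩
  have hT0 : 0 ≤ T := by
    rw [hT]
    have : 0 ≤ ∑ k ∈ s, ‖t k‖ := sum_nonneg fun _ _ => norm_nonneg _
    positivity
  have hT'0 : 0 ≤ T' := by rw [hT']; positivity
  refine ⟨⌈(T + T') / (η / 2)⌉₊, fun H n hH => ?_⟩
  have hHr : (T + T') / (η / 2) ≤ H := (Nat.le_ceil _).trans (by exact_mod_cast hH)
  rw [div_le_iff₀ (by positivity)] at hHr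
  have hH0 : (0 : ℝ) ≤ H := Nat.cast_nonneg _
  have h2 := hC n H
  rw [abs_le] at h2
  have hM0 : 0 < 12 / Real.pi ^ 3 := by positivity
  -- the resonant case
  have hresC : ∀ y₁ y₂ : ℝ, Min1 (2 * WS S * K) d y₁ → (∀ b : ℤ, ρ ≤ |y₁ - y₂ - b|) →
      nd (WS S * (y₁ - y₂)) < δ →
      ‖∑ h ∈ Icc 1 H, lin y₁ (n + h) * mu (n + h)‖ +
        ‖∑ h ∈ Icc 1 H, lin y₂ (n + h) * mu (n + h)‖ ≤ (τ * (12 / Real.pi ^ 3) + η) * H := by
    intro y₁ y₂ hy₁ hsep hr
    have hb : ρ ≤ nd (y₁ - y₂) := by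
      obtain ⟨b, hb⟩ := nd_exists (y₁ - y₂)
      rw [hb]; exact hsep b
    have hres : ∀ k ∈ s, k ≠ 0 → ∀ j : ℤ, j = -1 ∨ j = 0 ∨ j = 1 →
        δ ≤ nd (WS S * (k * (y₁ + y₂) + j * (y₁ - y₂))) := by
      intro k hk hk0 j hj
      have g1 := minor_nd _ d y₁ hy₁ (2 * WS S * k)
        (mul_ne_zero (mul_ne_zero two_ne_zero (by exact_mod_cast hWS.ne')) hk0) (by
          rw [Int.natAbs_mul, Int.natAbs_mul]
          have : k.natAbs ≤ K := by have := hKs k hk; omega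
          exact Nat.mul_le_mul (by simp) this)
      have g2 : nd (((k - j : ℤ) : ℝ) * (WS S * (y₁ - y₂))) ≤ K * δ := by
        refine (nd_int_mul_le _ _).trans ?_
        have g3 : |((k - j : ℤ) : ℝ)| ≤ K := by
          have g4 : (k - j).natAbs ≤ K := by
            have g5 := hKs k hk
            have g6 : (k - j).natAbs ≤ k.natAbs + j.natAbs := Int.natAbs_sub_le k j
            have g7 : j.natAbs ≤ 1 := by rcases hj with rfl | rfl | rfl <;> simp
            omega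
          have g8 : |((k - j : ℤ) : ℝ)| = (((k - j).natAbs : ℕ) : ℝ) := by
            rw [Nat.cast_natAbs, Int.cast_abs]
          rw [g8]; exact_mod_cast g4
        exact mul_le_mul g3 hr.le (nd_nonneg _) (by linarith)
      have g9 := nd_add_le (WS S * (k * (y₁ + y₂) + j * (y₁ - y₂)))
        (((k - j : ℤ) : ℝ) * (WS S * (y₁ - y₂)))
      have g10 : (WS S : ℝ) * (k * (y₁ + y₂) + j * (y₁ - y₂)) +
          ((k - j : ℤ) : ℝ) * (WS S * (y₁ - y₂)) = ((2 * WS S * k : ℤ) : ℝ) * y₁ := by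
        push_cast; ring
      rw [g10] at g9
      have g11 : K * δ = d / 2 := by rw [mul_comm]; exact hδK
      linarith
    have k1 := pair_res S hS s t h0 hmaj ht0 y₁ y₂ δ τ hδ0 hτ0 hres n H
    have k2 := hC' (y₁ - y₂) hb n H
    have k3 : (t 0).re * ((τ / 2 + 1 / τ) * (∑ h ∈ Icc 1 H, sf S (n + h)) +
        1 / τ * ‖TT S n H (y₁ - y₂)‖) ≤
        (t 0).re * ((τ / 2 + 1 / τ) * (dn S * H + C) + 1 / τ * (dn S / 3 * H + C')) := by
      refine mul_le_mul_of_nonneg_left (add_le_add ?_ ?_) ht0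
      · exact mul_le_mul_of_nonneg_left (by linarith) (by positivity)
      · exact mul_le_mul_of_nonneg_left k2 (by positivity)
    have e1 : (τ / 2 + 1 / τ) * (dn S * H + C) + 1 / τ * (dn S / 3 * H + C') =
        τ * (dn S * H) + ((τ / 2 + 1 / τ) * C + 1 / τ * C') := by
      have e2 : τ / 2 + 1 / τ + 1 / τ / 3 = τ := by
        field_simp
        linarith
      calc _ = (τ / 2 + 1 / τ + 1 / τ / 3) * (dn S * H) + ((τ / 2 + 1 / τ) * C + 1 / τ * C') := by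
            ring
        _ = _ := by rw [e2]
    rw [e1] at k3
    have h4 := mul_le_mul_of_nonneg_left (mul_le_mul_of_nonneg_right
      (prod_const e he0 he1 (t 0).re (dn S) ht1 (dn_nonneg S hS) hdn) hH0) hτ0.le
    have h5 : τ * (3 * e * H) ≤ η / 2 * H := by
      have h6 : τ * (3 * e) ≤ η / 2 := by nlinarith
      calc τ * (3 * e * H) = τ * (3 * e) * H := by ring
        _ ≤ _ := mul_le_mul_of_nonneg_right h6 hH0
    calc _ ≤ _ := k1
      _ ≤ (t 0).re * (τ * (dn S * H) + ((τ / 2 + 1 / τ) * C + 1 / τ * C')) +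
          (∑ k ∈ s, ‖t k‖) * ((τ / 2 + 2 / τ) * (WS S / (2 * δ))) := by linarith
      _ = τ * ((t 0).re * dn S * H) + T := by rw [hT]; ring
      _ ≤ τ * ((12 / Real.pi ^ 3 + 3 * e) * H) + H * (η / 2) := by linarith
      _ ≤ _ := by
          have e3 : τ * ((12 / Real.pi ^ 3 + 3 * e) * H) =
            τ * (12 / Real.pi ^ 3) * H + τ * (3 * e * H) := by ring
          have e4 : (τ * (12 / Real.pi ^ 3) + η) * H =
            τ * (12 / Real.pi ^ 3) * H + η / 2 * H + η / 2 * H := by ring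
          rw [e3, e4]
          linarith
  intro y₁ y₂ hy₁ hy₂ hsep1 hsep2
  rw [← hτ]
  rcases lt_or_ge (nd (WS S * (y₁ - y₂))) δ with hr1 | hr1
  · exact hresC y₁ y₂ hy₁ hsep1 hr1
  rcases lt_or_ge (nd (WS S * (y₁ + y₂))) δ with hr2 | hr2
  · have k5 := hresC y₁ (-y₂) hy₁ (fun b => by rw [sub_neg_eq_add]; exact hsep2 b)
      (by rw [sub_neg_eq_add]; exact hr2)
    rwa [lin_neg_norm] at k5
  -- no resonance
  have g : ∀ y : ℝ, Min1 (2 * WS S * K) d y → δ ≤ nd (WS S * (2 * y)) := by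
    intro y hy
    have g1 := minor_nd _ d y hy (2 * WS S)
      (mul_ne_zero two_ne_zero (by exact_mod_cast hWS.ne')) (by
        rw [Int.natAbs_mul]
        simp only [Int.natAbs_natCast, Int.reduceAbs]
        exact Nat.le_mul_of_pos_right _ (by omega))
    rw [show (WS S : ℝ) * (2 * y) = ((2 * WS S : ℤ) : ℝ) * y by push_cast; ring]
    linarith
  have k6 := pair_non S hS y₁ y₂ δ hδ0 (g y₁ hy₁) (g y₂ hy₂) hr2 hr1 n H
  have hpi := Real.pi_gt_three
  have hpi2 := Real.pi_lt_d2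
  have k7 : 6 / Real.pi ^ 2 ≤ τ * (12 / Real.pi ^ 3) := by
    have e1 : τ * (12 / Real.pi ^ 3) = 6 / Real.pi ^ 2 * (2 * τ / Real.pi) := by
      field_simp; norm_num
    rw [e1]
    have e2 : 1 ≤ 2 * τ / Real.pi := by
      rw [le_div_iff₀ (by linarith)]; linarith
    have e3 : 0 ≤ 6 / Real.pi ^ 2 := by positivity
    nlinarith
  have k8 : dn S * H ≤ (6 / Real.pi ^ 2 + e) * H := mul_le_mul_of_nonneg_right hdn hH0
  have k9 : 6 / Real.pi ^ 2 * H ≤ τ * (12 / Real.pi ^ 3) * H := mul_le_mul_of_nonneg_right k7 hH0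
  have k10 : e * H ≤ η / 2 * H := mul_le_mul_of_nonneg_right (by linarith) hH0
  calc _ ≤ _ := k6
    _ ≤ dn S * H + C + WS S / δ := by linarith
    _ = dn S * H + T' := by rw [hT']; ring
    _ ≤ (6 / Real.pi ^ 2 + e) * H + H * (η / 2) := by linarith
    _ ≤ _ := by
        have e3 : (6 / Real.pi ^ 2 + e) * H = 6 / Real.pi ^ 2 * H + e * H := by ring
        have e4 : (τ * (12 / Real.pi ^ 3) + η) * H =
            τ * (12 / Real.pi ^ 3) * H + η / 2 * H + η / 2 * H := by ring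
        rw [e3, e4]
        linarith

end

end Pool.Agent.WC86
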