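import Pool.Agent.Lib.WC86.CosM

/-! N_663568 (whole circle), rows P3, P4: one frequency and two separated frequencies outside the
major arcs.  helper86. -/

set_option autoImplicit false

namespace Pool.Agent.WC86.Pr

open Finset MeasureTheory Pool.Agent.Lib.MP_663568_nt Pool.Agent.Lib.MP_663568_nt.Katai
  Pool.Agent.Lib.MP_663568_nt.Nul Pool.Agent.Lib.MP_663568_nt.H6

noncomputable section

/-- the sum of the indicator against a phase over a window. -/
def TT (S : Finset ℕ) (n H : ℕ) (β : ℝ) : ℂ := ∑ h ∈ Icc 1 H, (sf S (n + h) : ℂ) * ee (β * h)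

lemma TT_small (S : Finset ℕ) (n H : ℕ) (β δ : ℝ) (hδ : 0 < δ) (h : δ ≤ nd (WS S * β)) :
    ‖TT S n H β‖ ≤ WS S / (2 * δ) := by
  have h2 := per_small (WS S) (sf S) (abs_sf_le S) (sf_per S) β H n
  rw [le_div_iff₀ (by positivity)]
  have h3 : ‖TT S n H β‖ * (4 * δ) ≤ 2 * WS S :=
    (mul_le_mul_of_nonneg_left (by linarith) (norm_nonneg _)).trans h2
  linarith

lemma ph_sum (S : Finset ℕ) (n H : ℕ) (β φ : ℝ) :
    ∑ h ∈ Icc 1 H, (sf S (n + h) : ℂ) * ee (β * h + φ) = ee φ * TT S n H β := by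
  rw [TT, mul_sum]
  refine sum_congr rfl fun h _ => ?_
  rw [ee_add]; ring

lemma ee_re (x : ℝ) : (ee x).re = Real.cos (2 * Real.pi * x) := by
  rw [ee, show 2 * (Real.pi : ℂ) * Complex.I * (x : ℂ) = ((2 * Real.pi * x : ℝ) : ℂ) * Complex.I by
    push_cast; ring, Complex.exp_ofReal_mul_I_re]

lemma cos_sum (S : Finset ℕ) (n H : ℕ) (β φ : ℝ) :
    |∑ h ∈ Icc 1 H, sf S (n + h) * Real.cos (2 * Real.pi * (β * h + φ))| ≤ ‖TT S n H β‖ := by
  have e1 : ∑ h ∈ Icc 1 H, sf S (n + h) * Real.cos (2 * Real.pi * (β * h + φ)) =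
      (ee φ * TT S n H β).re := by
    rw [← ph_sum, Complex.re_sum]
    refine sum_congr rfl fun h _ => ?_
    rw [Complex.re_ofReal_mul, ee_re]
  rw [e1]
  refine (Complex.abs_re_le_norm _).trans ?_
  rw [norm_mul, norm_ee, one_mul]

lemma exists_phase (z : ℂ) : ∃ θ : ℝ, ‖z‖ = (ee θ * z).re := by
  refine ⟨-z.arg / (2 * Real.pi), ?_⟩
  have hpi : (Real.pi : ℂ) ≠ 0 := by exact_mod_cast Real.pi_ne_zero
  have e1 : ee (-z.arg / (2 * Real.pi)) = Complex.exp (-(z.arg * Complex.I)) := by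
    rw [ee]
    congr 1
    push_cast
    field_simp
  have e2 : ee (-z.arg / (2 * Real.pi)) * z = (‖z‖ : ℂ) := by
    calc ee (-z.arg / (2 * Real.pi)) * z =
        Complex.exp (-(z.arg * Complex.I)) * ((‖z‖ : ℂ) * Complex.exp (z.arg * Complex.I)) := by
          rw [e1, Complex.norm_mul_exp_arg_mul_I]
      _ = (‖z‖ : ℂ) := by
          rw [mul_left_comm, ← Complex.exp_add, neg_add_cancel, Complex.exp_zero, mul_one]
  rw [e2, Complex.ofReal_re]

lemma win_cos (y : ℝ) (n H : ℕ) : ∃ θ : ℝ, ‖∑ h ∈ Icc 1 H, lin y (n + h) * mu (n + h)‖ =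
    ∑ h ∈ Icc 1 H, ((ArithmeticFunction.moebius (n + h) : ℤ) : ℝ) *
      Real.cos (2 * Real.pi * (y * h + θ)) := by
  obtain ⟨θ, hθ⟩ := exists_phase (∑ h ∈ Icc 1 H, lin y (n + h) * mu (n + h))
  refine ⟨y * n + θ, ?_⟩
  rw [hθ, mul_sum, Complex.re_sum]
  refine sum_congr rfl fun h _ => ?_
  have e1 : ee θ * (lin y (n + h) * mu (n + h)) =
      (((ArithmeticFunction.moebius (n + h) : ℤ) : ℝ) : ℂ) * ee (y * h + (y * n + θ)) := by
    have e3 : θ + y * ((n + h : ℕ) : ℝ) = y * h + (y * n + θ) := by push_cast; ring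
    rw [lin, mu, ← mul_assoc, ← ee_add, mul_comm, e3, Complex.ofReal_intCast]
  rw [e1, Complex.re_ofReal_mul, ee_re]

lemma mu_le_sf (S : Finset ℕ) (hS : ∀ p ∈ S, p.Prime) (m : ℕ) :
    |((ArithmeticFunction.moebius m : ℤ) : ℝ)| ≤ sf S m := by
  unfold sf
  split_ifs with h
  · obtain ⟨p, hp, hpm⟩ := h
    have h1 : ¬ Squarefree m := fun hsq => by
      have := hsq p (by rw [← pow_two]; exact hpm)
      exact (hS p hp).one_lt.ne' (Nat.isUnit_iff.mp this)
    rw [ArithmeticFunction.moebius_eq_zero_of_not_squarefree h1]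
    simp
  · have h1 : |ArithmeticFunction.moebius m| ≤ 1 := ArithmeticFunction.abs_moebius_le_one
    exact_mod_cast h1

lemma minor_nd (Q : ℕ) (d y : ℝ) (h : Min1 Q d y) (m : ℤ) (hm : m ≠ 0) (hQ : m.natAbs ≤ Q) :
    d ≤ nd ((m : ℝ) * y) := by
  have h1 : ∀ q : ℕ, 1 ≤ q → q ≤ Q → d ≤ nd ((q : ℝ) * y) := by
    intro q hq1 hq2
    obtain ⟨b, hb⟩ := nd_exists ((q : ℝ) * y)
    rw [hb]; exact h q hq1 hq2 b
  have h2 := h1 m.natAbs (Int.natAbs_pos.mpr hm) hQ
  rcases Int.natAbs_eq m with h3 | h3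
  · have e1 : (m : ℝ) = (m.natAbs : ℝ) :=
      (congrArg (fun z : ℤ => (z : ℝ)) h3).trans (Int.cast_natCast _)
    rw [e1]; exact h2
  · have e1 : (m : ℝ) = -(m.natAbs : ℝ) := by
      refine (congrArg (fun z : ℤ => (z : ℝ)) h3).trans ?_
      rw [Int.cast_neg, Int.cast_natCast]
    rw [e1, neg_mul, nd_neg]; exact h2

lemma TT_zero (S : Finset ℕ) (n H : ℕ) :
    TT S n H 0 = ((∑ h ∈ Icc 1 H, sf S (n + h) : ℝ) : ℂ) := by
  rw [TT]
  push_cast
  refine sum_congr rfl fun h _ => ?_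
  rw [zero_mul]
  simp [ee]

/-- the sum of a nonnegative combination. -/
lemma single_core (S : Finset ℕ) (hS : ∀ p ∈ S, p.Prime) (s : Finset ℤ) (t : ℤ → ℂ)
    (h0 : (0 : ℤ) ∈ s)
    (hmaj : ∀ x : ℝ, |Real.cos (Real.pi * x)| ≤ (∑ k ∈ s, t k * ee (k * x)).re)
    (Q : ℕ) (d : ℝ) (hd : 0 < d) (hQ : ∀ k ∈ s, (2 * WS S * k).natAbs ≤ Q) (y : ℝ)
    (hy : Min1 Q d y) (n H : ℕ) :
    ‖∑ h ∈ Icc 1 H, lin y (n + h) * mu (n + h)‖ ≤
      (t 0).re * (∑ h ∈ Icc 1 H, sf S (n + h)) + (∑ k ∈ s, ‖t k‖) * (WS S / (2 * d)) := by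
  obtain ⟨θ, hθ⟩ := win_cos y n H
  have hWS : 0 < WS S := prod_pos fun p hp => pow_pos (hS p hp).pos 2
  rw [hθ]
  calc ∑ h ∈ Icc 1 H, ((ArithmeticFunction.moebius (n + h) : ℤ) : ℝ) *
      Real.cos (2 * Real.pi * (y * h + θ)) ≤
      ∑ h ∈ Icc 1 H, sf S (n + h) * (∑ k ∈ s, t k * ee (k * (2 * (y * h + θ)))).re := by
        refine sum_le_sum fun h _ => ?_
        refine (le_abs_self _).trans ?_
        rw [abs_mul]
        refine mul_le_mul (mu_le_sf S hS _) ?_ (abs_nonneg _) (sf_nonneg _ _)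
        have := hmaj (2 * (y * h + θ))
        rw [show Real.pi * (2 * (y * h + θ)) = 2 * Real.pi * (y * h + θ) by ring] at this
        exact this
    _ = (∑ k ∈ s, t k * (ee (2 * k * θ) * TT S n H (2 * k * y))).re := by
        have e1 : ∑ k ∈ s, t k * (ee (2 * k * θ) * TT S n H (2 * k * y)) =
            ∑ h ∈ Icc 1 H, (sf S (n + h) : ℂ) * ∑ k ∈ s, t k * ee (k * (2 * (y * h + θ))) := by
          simp_rw [mul_sum]
          rw [sum_comm]
          refine sum_congr rfl fun k _ => ?_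
          rw [← ph_sum, mul_sum]
          refine sum_congr rfl fun h _ => ?_
          rw [show 2 * (k : ℝ) * y * h + 2 * k * θ = k * (2 * (y * h + θ)) by ring]
          ring
        rw [e1, Complex.re_sum]
        exact sum_congr rfl fun h _ => by rw [Complex.re_ofReal_mul]
    _ ≤ (t 0).re * (∑ h ∈ Icc 1 H, sf S (n + h)) +
        ∑ k ∈ s.erase 0, ‖t k‖ * (WS S / (2 * d)) := by
        rw [← add_sum_erase s _ h0, Complex.add_re]
        refine add_le_add (le_of_eq ?_) ?_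
        · have e2 : t 0 * (ee (2 * ((0 : ℤ) : ℝ) * θ) * TT S n H (2 * ((0 : ℤ) : ℝ) * y)) =
              ((∑ h ∈ Icc 1 H, sf S (n + h) : ℝ) : ℂ) * t 0 := by
            rw [Int.cast_zero, mul_zero, zero_mul, zero_mul, TT_zero]
            have : ee 0 = 1 := by simp [ee]
            rw [this, one_mul, mul_comm]
          rw [e2, Complex.re_ofReal_mul, mul_comm]
        · rw [Complex.re_sum]
          refine sum_le_sum fun k hk => ?_
          refine (Complex.re_le_norm _).trans ?_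
          rw [norm_mul, norm_mul, norm_ee, one_mul]
          refine mul_le_mul_of_nonneg_left ?_ (norm_nonneg _)
          refine TT_small S n H _ d hd ?_
          have hk0 : k ≠ 0 := ne_of_mem_erase hk
          have h5 := minor_nd Q d y hy (2 * WS S * k)
            (mul_ne_zero (mul_ne_zero two_ne_zero (by exact_mod_cast hWS.ne')) hk0)
            (hQ k (mem_of_mem_erase hk))
          push_cast at h5
          rw [show (WS S : ℝ) * (2 * k * y) = 2 * (WS S : ℝ) * k * y by ring]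
          exact h5
    _ ≤ _ := by
        refine add_le_add le_rfl ?_
        rw [sum_mul]
        exact sum_le_sum_of_subset_of_nonneg (erase_subset _ _) fun k _ _ => by positivity

/-- no resonance between the two frequencies. -/
lemma pair_non (S : Finset ℕ) (hS : ∀ p ∈ S, p.Prime) (y₁ y₂ δ : ℝ) (hδ : 0 < δ)
    (h1 : δ ≤ nd (WS S * (2 * y₁))) (h2 : δ ≤ nd (WS S * (2 * y₂)))
    (h3 : δ ≤ nd (WS S * (y₁ + y₂))) (h4 : δ ≤ nd (WS S * (y₁ - y₂))) (n H : ℕ) :
    ‖∑ h ∈ Icc 1 H, lin y₁ (n + h) * mu (n + h)‖ + ‖∑ h ∈ Icc 1 H, lin y₂ (n + h) * mu (n + h)‖ ≤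
      ∑ h ∈ Icc 1 H, sf S (n + h) + WS S / δ := by
  obtain ⟨θ₁, hθ₁⟩ := win_cos y₁ n H
  obtain ⟨θ₂, hθ₂⟩ := win_cos y₂ n H
  rw [hθ₁, hθ₂, ← sum_add_distrib]
  have b1 := (le_abs_self _).trans ((cos_sum S n H (2 * y₁) (2 * θ₁)).trans
    (TT_small S n H _ δ hδ h1))
  have b2 := (le_abs_self _).trans ((cos_sum S n H (2 * y₂) (2 * θ₂)).trans
    (TT_small S n H _ δ hδ h2))
  have b3 := (le_abs_self _).trans ((cos_sum S n H (y₁ + y₂) (θ₁ + θ₂)).trans
    (TT_small S n H _ δ hδ h3))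
  have b4 := (le_abs_self _).trans ((cos_sum S n H (y₁ - y₂) (θ₁ - θ₂)).trans
    (TT_small S n H _ δ hδ h4))
  have hW : (WS S : ℝ) / (2 * δ) * (3 / 2) ≤ WS S / δ := by
    have e : (WS S : ℝ) / (2 * δ) * (3 / 2) = 3 / 4 * (WS S / δ) := by field_simp; norm_num
    rw [e]
    have : 0 ≤ (WS S : ℝ) / δ := by positivity
    linarith
  have key : ∀ h : ℕ, ((ArithmeticFunction.moebius (n + h) : ℤ) : ℝ) *
        Real.cos (2 * Real.pi * (y₁ * h + θ₁)) + ((ArithmeticFunction.moebius (n + h) : ℤ) : ℝ) *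
        Real.cos (2 * Real.pi * (y₂ * h + θ₂)) ≤
      sf S (n + h) + (1 / 4) * (sf S (n + h) * Real.cos (2 * Real.pi * (2 * y₁ * h + 2 * θ₁))) +
        (1 / 4) * (sf S (n + h) * Real.cos (2 * Real.pi * (2 * y₂ * h + 2 * θ₂))) +
        (1 / 2) * (sf S (n + h) * Real.cos (2 * Real.pi * ((y₁ + y₂) * h + (θ₁ + θ₂)))) +
        (1 / 2) * (sf S (n + h) * Real.cos (2 * Real.pi * ((y₁ - y₂) * h + (θ₁ - θ₂)))) := by
    intro h
    set a : ℝ := 2 * Real.pi * (y₁ * h + θ₁) with ha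
    set b : ℝ := 2 * Real.pi * (y₂ * h + θ₂) with hb
    have e1 : 2 * Real.pi * (2 * y₁ * h + 2 * θ₁) = 2 * a := by rw [ha]; ring
    have e2 : 2 * Real.pi * (2 * y₂ * h + 2 * θ₂) = 2 * b := by rw [hb]; ring
    have e3 : 2 * Real.pi * ((y₁ + y₂) * h + (θ₁ + θ₂)) = a + b := by rw [ha, hb]; ring
    have e4 : 2 * Real.pi * ((y₁ - y₂) * h + (θ₁ - θ₂)) = a - b := by rw [ha, hb]; ring
    rw [e1, e2, e3, e4, Real.cos_two_mul, Real.cos_two_mul, Real.cos_add, Real.cos_sub]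
    have h5 := mu_le_sf S hS (n + h)
    have h6 : ((ArithmeticFunction.moebius (n + h) : ℤ) : ℝ) * Real.cos a +
        ((ArithmeticFunction.moebius (n + h) : ℤ) : ℝ) * Real.cos b ≤
        sf S (n + h) * |Real.cos a + Real.cos b| := by
      rw [← mul_add]
      refine (le_abs_self _).trans ?_
      rw [abs_mul]
      exact mul_le_mul_of_nonneg_right h5 (abs_nonneg _)
    have h7 : |Real.cos a + Real.cos b| ≤ (1 + (Real.cos a + Real.cos b) ^ 2) / 2 := by
      have h8 := sq_abs (Real.cos a + Real.cos b)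
      nlinarith [sq_nonneg (|Real.cos a + Real.cos b| - 1)]
    have h9 := mul_le_mul_of_nonneg_left h7 (sf_nonneg S (n + h))
    refine h6.trans (h9.trans (le_of_eq ?_))
    ring
  refine (sum_le_sum fun h _ => key h).trans ?_
  rw [sum_add_distrib, sum_add_distrib, sum_add_distrib, sum_add_distrib, ← mul_sum, ← mul_sum,
    ← mul_sum, ← mul_sum]
  linarith

/-- resonance of the difference. -/
lemma pair_res (S : Finset ℕ) (hS : ∀ p ∈ S, p.Prime) (s : Finset ℤ) (t : ℤ → ℂ)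
    (h0 : (0 : ℤ) ∈ s)
    (hmaj : ∀ x : ℝ, |Real.cos (Real.pi * x)| ≤ (∑ k ∈ s, t k * ee (k * x)).re)
    (ht0 : 0 ≤ (t 0).re) (y₁ y₂ δ τ : ℝ) (hδ : 0 < δ) (hτ : 0 < τ)
    (hres : ∀ k ∈ s, k ≠ 0 → ∀ j : ℤ, j = -1 ∨ j = 0 ∨ j = 1 →
      δ ≤ nd (WS S * (k * (y₁ + y₂) + j * (y₁ - y₂)))) (n H : ℕ) :
    ‖∑ h ∈ Icc 1 H, lin y₁ (n + h) * mu (n + h)‖ + ‖∑ h ∈ Icc 1 H, lin y₂ (n + h) * mu (n + h)‖ ≤
      (t 0).re * ((τ / 2 + 1 / τ) * (∑ h ∈ Icc 1 H, sf S (n + h)) +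
        1 / τ * ‖TT S n H (y₁ - y₂)‖) +
      (∑ k ∈ s, ‖t k‖) * ((τ / 2 + 2 / τ) * (WS S / (2 * δ))) := by
  obtain ⟨θ₁, hθ₁⟩ := win_cos y₁ n H
  obtain ⟨θ₂, hθ₂⟩ := win_cos y₂ n H
  rw [hθ₁, hθ₂, ← sum_add_distrib]
  set u : ℕ → ℝ := fun h => (y₁ - y₂) * h + (θ₁ - θ₂) with hu
  set w : ℕ → ℝ := fun h => (y₁ + y₂) * h + (θ₁ + θ₂) with hw
  set B : ℕ → ℝ := fun h => sf S (n + h) *
    (τ / 2 + 1 / τ + Real.cos (2 * Real.pi * u h) / τ) with hB
  have key : ∀ h : ℕ, ((ArithmeticFunction.moebius (n + h) : ℤ) : ℝ) *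
        Real.cos (2 * Real.pi * (y₁ * h + θ₁)) + ((ArithmeticFunction.moebius (n + h) : ℤ) : ℝ) *
        Real.cos (2 * Real.pi * (y₂ * h + θ₂)) ≤ B h * (∑ k ∈ s, t k * ee (k * w h)).re := by
    intro h
    have e1 : Real.cos (2 * Real.pi * (y₁ * h + θ₁)) + Real.cos (2 * Real.pi * (y₂ * h + θ₂)) =
        2 * Real.cos (Real.pi * w h) * Real.cos (Real.pi * u h) := by
      have ew : (2 * Real.pi * (y₁ * h + θ₁) + 2 * Real.pi * (y₂ * h + θ₂)) / 2 =
          Real.pi * w h := by rw [hw]; ring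
      have eu : (2 * Real.pi * (y₁ * h + θ₁) - 2 * Real.pi * (y₂ * h + θ₂)) / 2 =
          Real.pi * u h := by rw [hu]; ring
      rw [Real.cos_add_cos, ew, eu]
    have h5 := mu_le_sf S hS (n + h)
    rw [← mul_add, e1]
    refine (le_abs_self _).trans ?_
    rw [abs_mul]
    have h6 : |2 * Real.cos (Real.pi * w h) * Real.cos (Real.pi * u h)| ≤
        (τ / 2 + 1 / τ + Real.cos (2 * Real.pi * u h) / τ) * |Real.cos (Real.pi * w h)| := by
      rw [abs_mul, abs_mul, abs_two]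
      have e2 : Real.cos (2 * Real.pi * u h) = 2 * Real.cos (Real.pi * u h) ^ 2 - 1 := by
        rw [← Real.cos_two_mul]; congr 1; ring
      rw [e2]
      have h7 : 2 * |Real.cos (Real.pi * u h)| ≤
          τ / 2 + 1 / τ + (2 * Real.cos (Real.pi * u h) ^ 2 - 1) / τ := by
        have h8 := sq_abs (Real.cos (Real.pi * u h))
        have e3 : τ / 2 + 1 / τ + (2 * Real.cos (Real.pi * u h) ^ 2 - 1) / τ -
            2 * |Real.cos (Real.pi * u h)| = (τ - 2 * |Real.cos (Real.pi * u h)|) ^ 2 / (2 * τ) := by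
          rw [← h8]
          field_simp
          ring
        have h9 : 0 ≤ (τ - 2 * |Real.cos (Real.pi * u h)|) ^ 2 / (2 * τ) := by positivity
        linarith
      calc 2 * |Real.cos (Real.pi * w h)| * |Real.cos (Real.pi * u h)| =
          2 * |Real.cos (Real.pi * u h)| * |Real.cos (Real.pi * w h)| := by ring
        _ ≤ _ := mul_le_mul_of_nonneg_right h7 (abs_nonneg _)
    have h10 : 0 ≤ τ / 2 + 1 / τ + Real.cos (2 * Real.pi * u h) / τ := by
      have h11 := Real.neg_one_le_cos (2 * Real.pi * u h)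
      have h12 : -1 / τ ≤ Real.cos (2 * Real.pi * u h) / τ := by gcongr
      have h13 : -1 / τ = -(1 / τ) := by ring
      have : 0 < τ / 2 := by positivity
      linarith
    calc |((ArithmeticFunction.moebius (n + h) : ℤ) : ℝ)| *
        |2 * Real.cos (Real.pi * w h) * Real.cos (Real.pi * u h)| ≤
        sf S (n + h) * ((τ / 2 + 1 / τ + Real.cos (2 * Real.pi * u h) / τ) *
          |Real.cos (Real.pi * w h)|) := mul_le_mul h5 h6 (abs_nonneg _) (sf_nonneg _ _)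
      _ ≤ sf S (n + h) * ((τ / 2 + 1 / τ + Real.cos (2 * Real.pi * u h) / τ) *
          (∑ k ∈ s, t k * ee (k * w h)).re) := by
          refine mul_le_mul_of_nonneg_left ?_ (sf_nonneg _ _)
          exact mul_le_mul_of_nonneg_left (hmaj _) h10
      _ = _ := by rw [hB]; ring
  refine (sum_le_sum fun h _ => key h).trans ?_
  -- exchange
  have e1 : ∑ h ∈ Icc 1 H, B h * (∑ k ∈ s, t k * ee (k * w h)).re =
      (∑ k ∈ s, t k * ∑ h ∈ Icc 1 H, (B h : ℂ) * ee (k * w h)).re := by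
    have e2 : ∑ k ∈ s, t k * ∑ h ∈ Icc 1 H, (B h : ℂ) * ee (k * w h) =
        ∑ h ∈ Icc 1 H, (B h : ℂ) * ∑ k ∈ s, t k * ee (k * w h) := by
      simp_rw [mul_sum]
      rw [sum_comm]
      refine sum_congr rfl fun h _ => sum_congr rfl fun k _ => ?_
      ring
    rw [e2, Complex.re_sum]
    exact sum_congr rfl fun h _ => by rw [Complex.re_ofReal_mul]
  rw [e1, ← add_sum_erase s _ h0, Complex.add_re]
  refine add_le_add ?_ ?_
  · -- the main term
    have e3 : t 0 * ∑ h ∈ Icc 1 H, (B h : ℂ) * ee (((0 : ℤ) : ℝ) * w h) =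
        ((∑ h ∈ Icc 1 H, B h : ℝ) : ℂ) * t 0 := by
      rw [mul_comm]
      congr 1
      push_cast
      refine sum_congr rfl fun h _ => ?_
      rw [zero_mul]
      simp [ee]
    rw [e3, Complex.re_ofReal_mul, mul_comm]
    refine mul_le_mul_of_nonneg_left ?_ ht0
    have e4 : ∑ h ∈ Icc 1 H, B h = (τ / 2 + 1 / τ) * (∑ h ∈ Icc 1 H, sf S (n + h)) +
        1 / τ * ∑ h ∈ Icc 1 H, sf S (n + h) * Real.cos (2 * Real.pi * ((y₁ - y₂) * h + (θ₁ - θ₂))) := by
      rw [mul_sum, mul_sum, ← sum_add_distrib]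
      refine sum_congr rfl fun h _ => ?_
      rw [hB, hu]
      ring
    rw [e4]
    refine add_le_add le_rfl (mul_le_mul_of_nonneg_left ?_ (by positivity))
    exact (le_abs_self _).trans (cos_sum S n H (y₁ - y₂) (θ₁ - θ₂))
  · rw [Complex.re_sum]
    have h20 : ∀ k ∈ s.erase 0, (t k * ∑ h ∈ Icc 1 H, (B h : ℂ) * ee (k * w h)).re ≤
        ‖t k‖ * ((τ / 2 + 2 / τ) * (WS S / (2 * δ))) := by
      intro k hk
      have hk0 : k ≠ 0 := ne_of_mem_erase hk
      have hks : k ∈ s := mem_of_mem_erase hk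
      refine (Complex.re_le_norm _).trans ?_
      rw [norm_mul]
      refine mul_le_mul_of_nonneg_left ?_ (norm_nonneg _)
      have e5 : ∑ h ∈ Icc 1 H, (B h : ℂ) * ee (k * w h) =
          ((τ / 2 + 1 / τ : ℝ) : ℂ) * (ee (k * (θ₁ + θ₂)) * TT S n H (k * (y₁ + y₂))) +
          ((1 / (2 * τ) : ℝ) : ℂ) * (ee (k * (θ₁ + θ₂) + (θ₁ - θ₂)) *
            TT S n H (k * (y₁ + y₂) + (y₁ - y₂))) +
          ((1 / (2 * τ) : ℝ) : ℂ) * (ee (k * (θ₁ + θ₂) - (θ₁ - θ₂)) *
            TT S n H (k * (y₁ + y₂) - (y₁ - y₂))) := by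
        rw [← ph_sum, ← ph_sum, ← ph_sum, mul_sum, mul_sum, mul_sum, ← sum_add_distrib,
          ← sum_add_distrib]
        refine sum_congr rfl fun h _ => ?_
        have e6 : ((Real.cos (2 * Real.pi * u h) : ℝ) : ℂ) = (ee (u h) + ee (-u h)) / 2 := by
          rw [Complex.ofReal_cos, Complex.cos, ee, ee]
          congr 2
          · congr 1; push_cast; ring
          · congr 1; push_cast; ring
        have e7 : ee ((k * (y₁ + y₂) + (y₁ - y₂)) * h + (k * (θ₁ + θ₂) + (θ₁ - θ₂))) =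
            ee (k * w h) * ee (u h) := by
          rw [← ee_add]; congr 1; rw [hw, hu]; ring
        have e8 : ee ((k * (y₁ + y₂) - (y₁ - y₂)) * h + (k * (θ₁ + θ₂) - (θ₁ - θ₂))) =
            ee (k * w h) * ee (-u h) := by
          rw [← ee_add]; congr 1; rw [hw, hu]; ring
        have e9 : ee (k * (y₁ + y₂) * h + k * (θ₁ + θ₂)) = ee (k * w h) := by
          congr 1; rw [hw]; ring
        rw [e7, e8, e9, hB]
        beta_reduce
        rw [Complex.ofReal_mul, Complex.ofReal_add, Complex.ofReal_div, e6]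
        have hτ0 : (τ : ℂ) ≠ 0 := by exact_mod_cast hτ.ne'
        push_cast
        field_simp
        ring
      rw [e5]
      have c1 := TT_small S n H (k * (y₁ + y₂)) δ hδ (by
        have := hres k hks hk0 0 (Or.inr (Or.inl rfl))
        simpa using this)
      have c2 := TT_small S n H (k * (y₁ + y₂) + (y₁ - y₂)) δ hδ (by
        have := hres k hks hk0 1 (Or.inr (Or.inr rfl))
        simpa using this)
      have c3 := TT_small S n H (k * (y₁ + y₂) - (y₁ - y₂)) δ hδ (by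
        have := hres k hks hk0 (-1) (Or.inl rfl)
        rw [show (k : ℝ) * (y₁ + y₂) - (y₁ - y₂) = k * (y₁ + y₂) + ((-1 : ℤ) : ℝ) * (y₁ - y₂) by
          push_cast; ring]
        exact this)
      have hn : ∀ (r x : ℝ) (z : ℂ), 0 ≤ r → ‖(r : ℂ) * (ee x * z)‖ = r * ‖z‖ := fun r x z hr => by
        rw [norm_mul, norm_mul, norm_ee, one_mul, Complex.norm_real, Real.norm_eq_abs,
          abs_of_nonneg hr]
      refine (norm_add₃_le).trans ?_
      rw [hn _ _ _ (by positivity), hn _ _ _ (by positivity), hn _ _ _ (by positivity)]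
      have d1 := mul_le_mul_of_nonneg_left c1 (show 0 ≤ τ / 2 + 1 / τ by positivity)
      have d2 := mul_le_mul_of_nonneg_left c2 (show 0 ≤ 1 / (2 * τ) by positivity)
      have d3 := mul_le_mul_of_nonneg_left c3 (show 0 ≤ 1 / (2 * τ) by positivity)
      have e10 : (τ / 2 + 2 / τ) * ((WS S : ℝ) / (2 * δ)) =
          (τ / 2 + 1 / τ) * ((WS S : ℝ) / (2 * δ)) + 1 / (2 * τ) * ((WS S : ℝ) / (2 * δ)) +
          1 / (2 * τ) * ((WS S : ℝ) / (2 * δ)) := by
        field_simp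
        ring
      rw [e10]
      linarith
    refine (sum_le_sum h20).trans ?_
    rw [sum_mul]
    exact sum_le_sum_of_subset_of_nonneg (erase_subset _ _) fun k _ _ => by positivity

end

end Pool.Agent.WC86.Pr
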