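import Pool.Agent.Lib.WC86.PDefs

/-! N_663568 (whole circle), row P: windows of periodic functions; integers without small square
divisors.  helper86. -/

set_option autoImplicit false

namespace Pool.Agent.WC86.Pr

open Finset Pool.Agent.Lib.MP_663568_nt Pool.Agent.Lib.MP_663568_nt.Katai
  Pool.Agent.Lib.MP_663568_nt.Nul Pool.Agent.Lib.MP_663568_nt.H6

noncomputable section

lemma per_small (W : ℕ) (a : ℕ → ℝ) (ha : ∀ n, |a n| ≤ 1) (hper : ∀ n, a (n + W) = a n) (β : ℝ)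
    (H n : ℕ) :
    ‖∑ h ∈ Icc 1 H, (a (n + h) : ℂ) * ee (β * h)‖ * (4 * nd (W * β)) ≤ 2 * W := by
  set f : ℕ → ℂ := fun h => (a (n + h) : ℂ) * ee (β * h) with hf
  have hf1 : ∀ h, ‖f h‖ ≤ 1 := fun h => by
    rw [hf]; beta_reduce
    rw [norm_mul, norm_ee, mul_one, Complex.norm_real, Real.norm_eq_abs]
    exact ha _
  have hI : Icc 1 H = Ico 1 (H + 1) := by ext x; simp only [mem_Icc, mem_Ico]; omega
  have e1 : ee (W * β) * ∑ h ∈ Ico 1 (H + 1), f h = ∑ h ∈ Ico (1 + W) (H + 1 + W), f h := by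
    rw [← sum_Ico_add' f, mul_sum]
    refine sum_congr rfl fun h _ => ?_
    rw [hf]; beta_reduce
    rw [← add_assoc, hper, ← mul_assoc, mul_comm (ee _), mul_assoc, ← ee_add]
    congr 2
    push_cast; ring
  have e2 : ∑ h ∈ Ico 1 (1 + W), f h + ∑ h ∈ Ico (1 + W) (H + 1 + W), f h =
      ∑ h ∈ Ico 1 (H + 1 + W), f h := sum_Ico_consecutive f (by omega) (by omega)
  have e3 : ∑ h ∈ Ico 1 (H + 1), f h + ∑ h ∈ Ico (H + 1) (H + 1 + W), f h =
      ∑ h ∈ Ico 1 (H + 1 + W), f h := sum_Ico_consecutive f (by omega) (by omega)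
  have e4 : (∑ h ∈ Ico 1 (H + 1), f h) * (1 - ee (W * β)) =
      ∑ h ∈ Ico 1 (1 + W), f h - ∑ h ∈ Ico (H + 1) (H + 1 + W), f h := by
    rw [mul_sub, mul_one, mul_comm _ (ee _), e1]
    linear_combination e3 - e2
  have h5 : ∀ a b : ℕ, ‖∑ h ∈ Ico a b, f h‖ ≤ ((b - a : ℕ) : ℝ) := fun a b => by
    refine (norm_sum_le _ _).trans ((sum_le_card_nsmul _ _ 1 fun h _ => hf1 h).trans ?_)
    rw [Nat.card_Ico, nsmul_eq_mul, mul_one]
  have h6 : ‖(∑ h ∈ Ico 1 (H + 1), f h) * (1 - ee (W * β))‖ ≤ 2 * W := by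
    rw [e4]
    refine (norm_sub_le _ _).trans ?_
    have h7 := h5 1 (1 + W)
    have h8 := h5 (H + 1) (H + 1 + W)
    rw [show 1 + W - 1 = W by omega] at h7
    rw [show H + 1 + W - (H + 1) = W by omega] at h8
    linarith
  rw [norm_mul] at h6
  rw [hI]
  refine le_trans ?_ h6
  exact mul_le_mul_of_nonneg_left (nd_le_norm_one_sub_ee _) (norm_nonneg _)

/-- no square of an element of `S` divides `m`. -/
def sf (S : Finset ℕ) (m : ℕ) : ℝ := if ∃ p ∈ S, p ^ 2 ∣ m then 0 else 1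

/-- the density. -/
def dn (S : Finset ℕ) : ℝ := ∏ p ∈ S, (1 - 1 / (p : ℝ) ^ 2)

/-- the period. -/
def WS (S : Finset ℕ) : ℕ := ∏ p ∈ S, p ^ 2

lemma sf_nonneg (S : Finset ℕ) (m : ℕ) : 0 ≤ sf S m := by unfold sf; split_ifs <;> norm_num

lemma sf_le_one (S : Finset ℕ) (m : ℕ) : sf S m ≤ 1 := by unfold sf; split_ifs <;> norm_num

lemma abs_sf_le (S : Finset ℕ) (m : ℕ) : |sf S m| ≤ 1 := by
  rw [abs_of_nonneg (sf_nonneg S m)]; exact sf_le_one S m

lemma sf_per (S : Finset ℕ) (m : ℕ) : sf S (m + WS S) = sf S m := by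
  unfold sf
  refine if_congr ?_ rfl rfl
  refine exists_congr fun p => and_congr_right fun hp => ?_
  have h1 : p ^ 2 ∣ WS S := dvd_prod_of_mem (fun p : ℕ => p ^ 2) hp
  exact (Nat.dvd_add_left h1)

lemma sf_insert (S : Finset ℕ) (p m : ℕ) :
    sf (insert p S) m = sf S m - (if p ^ 2 ∣ m then sf S m else 0) := by
  unfold sf
  by_cases h : p ^ 2 ∣ m
  · rw [if_pos h, if_pos ⟨p, mem_insert_self p S, h⟩, sub_self]
  · rw [if_neg h, sub_zero]
    refine if_congr ?_ rfl rfl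
    constructor
    · rintro ⟨q, hq, hqm⟩
      rcases mem_insert.mp hq with rfl | hq'
      · exact absurd hqm h
      · exact ⟨q, hq', hqm⟩
    · rintro ⟨q, hq, hqm⟩
      exact ⟨q, mem_insert_of_mem hq, hqm⟩

lemma sf_mul (S : Finset ℕ) (hS : ∀ p ∈ S, p.Prime) (p : ℕ) (hp : p.Prime) (hpS : p ∉ S) (m : ℕ) :
    sf S (p ^ 2 * m) = sf S m := by
  unfold sf
  refine if_congr ?_ rfl rfl
  refine exists_congr fun q => and_congr_right fun hq => ?_
  have hne : q ≠ p := fun h => hpS (h ▸ hq)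
  have h1 : Nat.Coprime (q ^ 2) (p ^ 2) :=
    Nat.Coprime.pow 2 2 ((Nat.coprime_primes (hS q hq) hp).mpr hne)
  exact h1.dvd_mul_left

lemma sum_mult (d : ℕ) (hd : 0 < d) (g : ℕ → ℝ) (n H : ℕ) :
    ∑ h ∈ Icc 1 H, (if d ∣ n + h then g (n + h) else 0) =
      ∑ k ∈ Icc 1 ((n + H) / d - n / d), g (d * (n / d + k)) := by
  rw [← sum_filter]
  have hn := Nat.div_add_mod n d
  have hm := Nat.mod_lt n hd
  have hnH := Nat.div_add_mod (n + H) d
  have hmH := Nat.mod_lt (n + H) hd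
  have hmono : n / d ≤ (n + H) / d := Nat.div_le_div_right (by omega)
  refine sum_bij' (fun h _ => (n + h) / d - n / d) (fun k _ => d * (n / d + k) - n) ?_ ?_ ?_ ?_ ?_
  · intro h hh
    rw [mem_filter, mem_Icc] at hh
    obtain ⟨⟨h1, h2⟩, c, hc⟩ := hh
    rw [mem_Icc, hc, Nat.mul_div_cancel_left _ hd]
    have h3 : n / d < c := by
      by_contra hcon
      have : d * c ≤ d * (n / d) := Nat.mul_le_mul_left _ (by omega)
      omega
    have h4 : c ≤ (n + H) / d := by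
      rw [Nat.le_div_iff_mul_le hd, mul_comm]
      omega
    omega
  · intro k hk
    rw [mem_Icc] at hk
    rw [mem_filter, mem_Icc]
    have h3 : d * (n / d + 1) ≤ d * (n / d + k) := Nat.mul_le_mul_left _ (by omega)
    have h3' : d * (n / d + 1) = d * (n / d) + d := by ring
    have h4 : d * (n / d + k) ≤ d * ((n + H) / d) := Nat.mul_le_mul_left _ (by omega)
    refine ⟨⟨by omega, by omega⟩, ?_⟩
    rw [show n + (d * (n / d + k) - n) = d * (n / d + k) by omega]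
    exact dvd_mul_right _ _
  · intro h hh
    rw [mem_filter, mem_Icc] at hh
    obtain ⟨⟨h1, h2⟩, c, hc⟩ := hh
    rw [hc, Nat.mul_div_cancel_left _ hd]
    have h3 : n / d < c := by
      by_contra hcon
      have : d * c ≤ d * (n / d) := Nat.mul_le_mul_left _ (by omega)
      omega
    rw [show n / d + (c - n / d) = c by omega]
    omega
  · intro k hk
    rw [mem_Icc] at hk
    have h3 : d * (n / d + 1) ≤ d * (n / d + k) := Nat.mul_le_mul_left _ (by omega)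
    have h3' : d * (n / d + 1) = d * (n / d) + d := by ring
    rw [show n + (d * (n / d + k) - n) = d * (n / d + k) by omega, Nat.mul_div_cancel_left _ hd]
    omega
  · intro h hh
    rw [mem_filter, mem_Icc] at hh
    obtain ⟨⟨h1, h2⟩, c, hc⟩ := hh
    rw [hc, Nat.mul_div_cancel_left _ hd]
    have h3 : n / d < c := by
      by_contra hcon
      have : d * c ≤ d * (n / d) := Nat.mul_le_mul_left _ (by omega)
      omega
    rw [show n / d + (c - n / d) = c by omega]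

lemma len_div (d : ℕ) (hd : 0 < d) (n H : ℕ) :
    |(((n + H) / d - n / d : ℕ) : ℝ) - H / d| ≤ 1 := by
  have hn := Nat.div_add_mod n d
  have hm := Nat.mod_lt n hd
  have hnH := Nat.div_add_mod (n + H) d
  have hmH := Nat.mod_lt (n + H) hd
  have hmono : n / d ≤ (n + H) / d := Nat.div_le_div_right (by omega)
  have hd0 : (0 : ℝ) < d := by exact_mod_cast hd
  rw [Nat.cast_sub hmono]
  have e1 : (d : ℝ) * ((n / d : ℕ) : ℝ) + ((n % d : ℕ) : ℝ) = n := by exact_mod_cast hn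
  have e2 : (d : ℝ) * (((n + H) / d : ℕ) : ℝ) + (((n + H) % d : ℕ) : ℝ) = (n : ℝ) + H := by
    exact_mod_cast hnH
  have e3 : ((n % d : ℕ) : ℝ) ≤ d := by exact_mod_cast hm.le
  have e4 : (((n + H) % d : ℕ) : ℝ) ≤ d := by exact_mod_cast hmH.le
  have e5 : (0 : ℝ) ≤ ((n % d : ℕ) : ℝ) := Nat.cast_nonneg _
  have e6 : (0 : ℝ) ≤ (((n + H) % d : ℕ) : ℝ) := Nat.cast_nonneg _
  have e7 : ((((n + H) / d : ℕ) : ℝ) - ((n / d : ℕ) : ℝ) - H / d) * d =
      ((n % d : ℕ) : ℝ) - (((n + H) % d : ℕ) : ℝ) := by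
    field_simp
    linear_combination e2 - e1
  have e8 : |((((n + H) / d : ℕ) : ℝ) - ((n / d : ℕ) : ℝ) - H / d) * d| ≤ 1 * d := by
    rw [e7, abs_le]
    constructor <;> linarith
  rw [abs_mul, abs_of_pos hd0] at e8
  exact le_of_mul_le_mul_right e8 hd0

lemma dn_nonneg (S : Finset ℕ) (hS : ∀ p ∈ S, p.Prime) : 0 ≤ dn S := by
  unfold dn
  refine prod_nonneg fun p hp => ?_
  have h1 : (1 : ℝ) ≤ (p : ℝ) ^ 2 := by
    have := (hS p hp).one_lt.le
    exact one_le_pow₀ (by exact_mod_cast this)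
  have h2 : 1 / (p : ℝ) ^ 2 ≤ 1 := by
    rw [div_le_one (by linarith)]; exact h1
  linarith

lemma dn_le_one (S : Finset ℕ) (hS : ∀ p ∈ S, p.Prime) : dn S ≤ 1 := by
  unfold dn
  refine prod_le_one (fun p hp => ?_) (fun p hp => ?_)
  · have h1 : (1 : ℝ) ≤ (p : ℝ) ^ 2 := by
      have := (hS p hp).one_lt.le
      exact one_le_pow₀ (by exact_mod_cast this)
    have h2 : 1 / (p : ℝ) ^ 2 ≤ 1 := by
      rw [div_le_one (by linarith)]; exact h1
    linarith
  · have : 0 ≤ 1 / (p : ℝ) ^ 2 := by positivity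
    linarith

lemma dens_win (S : Finset ℕ) (hS : ∀ p ∈ S, p.Prime) : ∃ C : ℝ, 0 ≤ C ∧ ∀ n H : ℕ,
    |∑ h ∈ Icc 1 H, sf S (n + h) - dn S * H| ≤ C := by
  induction S using Finset.induction_on with
  | empty =>
    refine ⟨0, le_rfl, fun n H => ?_⟩
    have : ∀ m, sf ∅ m = 1 := fun m => by unfold sf; simp
    simp [this, dn]
  | insert p S hp ih =>
    obtain ⟨C, hC0, hC⟩ := ih fun q hq => hS q (mem_insert_of_mem hq)
    have hpp : p.Prime := hS p (mem_insert_self p S)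
    have hS' : ∀ q ∈ S, q.Prime := fun q hq => hS q (mem_insert_of_mem hq)
    have hd : 0 < p ^ 2 := pow_pos hpp.pos 2
    have hdn0 := dn_nonneg S hS'
    have hdn1 := dn_le_one S hS'
    refine ⟨2 * C + 1, by linarith, fun n H => ?_⟩
    have e1 : ∑ h ∈ Icc 1 H, sf (insert p S) (n + h) = ∑ h ∈ Icc 1 H, sf S (n + h) -
        ∑ k ∈ Icc 1 ((n + H) / p ^ 2 - n / p ^ 2), sf S (n / p ^ 2 + k) := by
      have e2 := sum_mult (p ^ 2) hd (sf S) n H
      simp only [sf_mul S hS' p hpp hp] at e2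
      rw [← e2, ← sum_sub_distrib]
      exact sum_congr rfl fun h _ => sf_insert S p (n + h)
    have h1 := hC n H
    have h2 := hC (n / p ^ 2) ((n + H) / p ^ 2 - n / p ^ 2)
    have h3 := len_div (p ^ 2) hd n H
    have e4 : dn (insert p S) = dn S - dn S * (1 / (p : ℝ) ^ 2) := by
      unfold dn
      rw [prod_insert hp]; ring
    rw [e1, e4]
    push_cast at h3
    set L : ℝ := (((n + H) / p ^ 2 - n / p ^ 2 : ℕ) : ℝ) with hL
    have h4 : |dn S * L - dn S * (H / (p : ℝ) ^ 2)| ≤ 1 := by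
      rw [← mul_sub, abs_mul, abs_of_nonneg hdn0]
      calc dn S * |L - H / (p : ℝ) ^ 2| ≤ 1 * 1 := mul_le_mul hdn1 h3 (abs_nonneg _) zero_le_one
        _ = 1 := one_mul 1
    rw [abs_le] at h1 h2 h4 ⊢
    have e5 : (dn S - dn S * (1 / (p : ℝ) ^ 2)) * H = dn S * H - dn S * (H / (p : ℝ) ^ 2) := by ring
    rw [e5]
    constructor <;> linarith

lemma mult_win (S : Finset ℕ) (hS : ∀ p ∈ S, p.Prime) (p : ℕ) (hp : p.Prime) (hpS : p ∉ S) :
    ∃ C : ℝ, 0 ≤ C ∧ ∀ n H : ℕ,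
    ∑ h ∈ Icc 1 H, (if p ^ 2 ∣ n + h then sf S (n + h) else 0) ≤
      dn S * (H / (p : ℝ) ^ 2) + C := by
  obtain ⟨C, hC0, hC⟩ := dens_win S hS
  have hd : 0 < p ^ 2 := pow_pos hp.pos 2
  have hdn0 := dn_nonneg S hS
  have hdn1 := dn_le_one S hS
  refine ⟨C + 1, by linarith, fun n H => ?_⟩
  have e2 := sum_mult (p ^ 2) hd (sf S) n H
  simp only [sf_mul S hS p hp hpS] at e2
  rw [e2]
  have h2 := hC (n / p ^ 2) ((n + H) / p ^ 2 - n / p ^ 2)
  have h3 := len_div (p ^ 2) hd n H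
  push_cast at h3
  set L : ℝ := (((n + H) / p ^ 2 - n / p ^ 2 : ℕ) : ℝ) with hL
  have h4 : |dn S * L - dn S * (H / (p : ℝ) ^ 2)| ≤ 1 := by
    rw [← mul_sub, abs_mul, abs_of_nonneg hdn0]
    calc dn S * |L - H / (p : ℝ) ^ 2| ≤ 1 * 1 := mul_le_mul hdn1 h3 (abs_nonneg _) zero_le_one
      _ = 1 := one_mul 1
  rw [abs_le] at h2 h4
  linarith

/-- the mean of the indicator against a phase away from the integers. -/
lemma sep_small (S : Finset ℕ) (hS : ∀ p ∈ S, p.Prime) (hne : S.Nonempty) (ρ : ℝ) (hρ : 0 < ρ) :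
    ∃ C : ℝ, 0 ≤ C ∧ ∀ β : ℝ, ρ ≤ nd β → ∀ n H : ℕ,
      ‖∑ h ∈ Icc 1 H, (sf S (n + h) : ℂ) * ee (β * h)‖ ≤ dn S / 3 * H + C := by
  classical
  -- the coefficients
  have hcop : Pairwise (Function.onFun IsCoprime fun i : S => ((i.1 : ℤ) ^ 2)) := by
    intro i j hij
    have h1 : Nat.Coprime i.1 j.1 :=
      (Nat.coprime_primes (hS i.1 i.2) (hS j.1 j.2)).mpr fun h => hij (Subtype.ext h)
    exact IsCoprime.pow (Nat.isCoprime_iff_coprime.mpr h1)
  obtain ⟨u, hu⟩ := (exists_sum_eq_one_iff_pairwise_coprime (s := fun p : ℕ => ((p : ℤ) ^ 2)) hne).mpr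
    hcop
  obtain ⟨U, hU⟩ : ∃ U : ℝ, U = ∑ p ∈ S, |(u p : ℝ)| + 1 := ⟨_, rfl⟩
  have hU1 : 1 ≤ U := by
    rw [hU]
    have : 0 ≤ ∑ p ∈ S, |(u p : ℝ)| := sum_nonneg fun _ _ => abs_nonneg _
    linarith
  obtain ⟨δ, hδ⟩ : ∃ δ : ℝ, δ = ρ / (2 * U) := ⟨_, rfl⟩
  have hδ0 : 0 < δ := by rw [hδ]; positivity
  have hC : ∀ p ∈ S, ∃ C : ℝ, 0 ≤ C ∧ ∀ n H : ℕ,
      ∑ h ∈ Icc 1 H, (if p ^ 2 ∣ n + h then sf (S.erase p) (n + h) else 0) ≤
      dn (S.erase p) * (H / (p : ℝ) ^ 2) + C := fun p hp =>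
    mult_win (S.erase p) (fun q hq => hS q (mem_of_mem_erase hq)) p (hS p hp) (notMem_erase p S)
  choose! C hC0 hC using hC
  refine ⟨∑ p ∈ S, (C p + (WS (S.erase p) : ℝ) / (2 * δ)),
    sum_nonneg fun p hp => add_nonneg (hC0 p hp) (by positivity), fun β hβ n H => ?_⟩
  obtain ⟨p, hp, hpδ⟩ : ∃ p ∈ S, δ ≤ nd ((WS (S.erase p) : ℝ) * β) := by
    by_contra hcon
    push Not at hcon
    have e1 : β = ∑ p ∈ S, ((u p : ℤ) : ℝ) * ((WS (S.erase p) : ℝ) * β) := by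
      have e2 : ((∑ p ∈ S, u p * ∏ j ∈ S \ {p}, ((j : ℤ) ^ 2) : ℤ) : ℝ) = 1 := by
        rw [hu]; norm_num
      calc β = ((∑ p ∈ S, u p * ∏ j ∈ S \ {p}, ((j : ℤ) ^ 2) : ℤ) : ℝ) * β := by rw [e2, one_mul]
        _ = _ := by
          push_cast
          rw [sum_mul]
          refine sum_congr rfl fun p _ => ?_
          rw [sdiff_singleton_eq_erase, WS]
          push_cast
          ring
    have h1 : nd β ≤ ∑ p ∈ S, |(u p : ℝ)| * δ := by
      have h2 : ∀ T : Finset ℕ, T ⊆ S →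
          nd (∑ p ∈ T, ((u p : ℤ) : ℝ) * ((WS (S.erase p) : ℝ) * β)) ≤
            ∑ p ∈ T, |(u p : ℝ)| * δ := by
        intro T
        induction T using Finset.induction_on with
        | empty =>
          intro _
          simp [nd]
        | insert q T hq ih =>
          intro hT
          rw [sum_insert hq, sum_insert hq]
          refine (nd_add_le _ _).trans (add_le_add ?_ (ih fun x hx => hT (mem_insert_of_mem hx)))
          refine (nd_int_mul_le _ _).trans ?_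
          exact mul_le_mul_of_nonneg_left (hcon q (hT (mem_insert_self q T))).le (abs_nonneg _)
      rw [e1]
      exact h2 S subset_rfl
    have h3 : ∑ p ∈ S, |(u p : ℝ)| * δ ≤ ρ / 2 := by
      rw [← sum_mul]
      have h4 : ∑ p ∈ S, |(u p : ℝ)| ≤ U := by rw [hU]; linarith
      calc (∑ p ∈ S, |(u p : ℝ)|) * δ ≤ U * δ := mul_le_mul_of_nonneg_right h4 hδ0.le
        _ = ρ / 2 := by rw [hδ]; field_simp
    linarith
  set S' : Finset ℕ := S.erase p with hS'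
  have hpS' : p ∉ S' := notMem_erase p S
  have hS'p : ∀ q ∈ S', q.Prime := fun q hq => hS q (mem_of_mem_erase hq)
  have hpp : p.Prime := hS p hp
  have hins : insert p S' = S := insert_erase hp
  have e1 : ∑ h ∈ Icc 1 H, (sf S (n + h) : ℂ) * ee (β * h) =
      ∑ h ∈ Icc 1 H, (sf S' (n + h) : ℂ) * ee (β * h) -
      ∑ h ∈ Icc 1 H, ((if p ^ 2 ∣ n + h then sf S' (n + h) else 0 : ℝ) : ℂ) * ee (β * h) := by
    rw [← sum_sub_distrib]
    refine sum_congr rfl fun h _ => ?_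
    rw [← hins, sf_insert]
    push_cast
    ring
  have h1 : ‖∑ h ∈ Icc 1 H, (sf S' (n + h) : ℂ) * ee (β * h)‖ ≤ (WS S' : ℝ) / (2 * δ) := by
    have h2 := per_small (WS S') (sf S') (abs_sf_le S') (sf_per S') β H n
    rw [le_div_iff₀ (by positivity)]
    have h3 : ‖∑ h ∈ Icc 1 H, (sf S' (n + h) : ℂ) * ee (β * h)‖ * (4 * δ) ≤ 2 * WS S' :=
      (mul_le_mul_of_nonneg_left (by linarith) (norm_nonneg _)).trans h2
    linarith
  have h2 : ‖∑ h ∈ Icc 1 H, ((if p ^ 2 ∣ n + h then sf S' (n + h) else 0 : ℝ) : ℂ) * ee (β * h)‖ ≤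
      dn S' * (H / (p : ℝ) ^ 2) + C p := by
    refine (norm_sum_le _ _).trans (le_trans (le_of_eq ?_) (hC p hp n H))
    refine sum_congr rfl fun h _ => ?_
    rw [norm_mul, norm_ee, mul_one, Complex.norm_real, Real.norm_eq_abs, abs_of_nonneg]
    split_ifs
    · exact sf_nonneg _ _
    · exact le_rfl
  have h3 : dn S' * (H / (p : ℝ) ^ 2) ≤ dn S / 3 * H := by
    have e4 : dn S = dn S' * (1 - 1 / (p : ℝ) ^ 2) := by
      rw [← hins]
      unfold dn
      rw [prod_insert hpS']; ring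
    have hdn0 := dn_nonneg S' hS'p
    have hp2 : (4 : ℝ) ≤ (p : ℝ) ^ 2 := by
      have : (2 : ℝ) ≤ p := by exact_mod_cast hpp.two_le
      nlinarith
    have h5 : 1 / (p : ℝ) ^ 2 ≤ (1 - 1 / (p : ℝ) ^ 2) / 3 := by
      have h6 : 1 / (p : ℝ) ^ 2 ≤ 1 / 4 := one_div_le_one_div_of_le (by norm_num) hp2
      linarith
    rw [e4]
    have h7 : dn S' * (1 / (p : ℝ) ^ 2) ≤ dn S' * ((1 - 1 / (p : ℝ) ^ 2) / 3) :=
      mul_le_mul_of_nonneg_left h5 hdn0
    have h8 := mul_le_mul_of_nonneg_right h7 (Nat.cast_nonneg (α := ℝ) H)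
    calc dn S' * (H / (p : ℝ) ^ 2) = dn S' * (1 / (p : ℝ) ^ 2) * H := by ring
      _ ≤ _ := h8
      _ = _ := by ring
  have h4 : C p + (WS S' : ℝ) / (2 * δ) ≤ ∑ p ∈ S, (C p + (WS (S.erase p) : ℝ) / (2 * δ)) :=
    single_le_sum (f := fun p => C p + (WS (S.erase p) : ℝ) / (2 * δ))
      (fun q hq => add_nonneg (hC0 q hq) (by positivity)) hp
  rw [e1]
  refine (norm_sub_le _ _).trans ?_
  linarith

end

end Pool.Agent.WC86.Pr
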