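import Pool.Agent.Lib.MP_663568_dch.MinorA

/-! N_663568 (whole circle), third bound (row M): one window, average over windows.  helper71. -/

set_option autoImplicit false
open Finset MeasureTheory

namespace Pool.Agent.Lib.MP_663568_dch

open Pool.Agent.Lib.MP_663568_nt Pool.Agent.Lib.MP_663568_nt.Katai
  Pool.Agent.Lib.MP_663568_nt.Nul Pool.Agent.Lib.MP_663568_nt.H6

/-- the largest normalised correlation -/
noncomputable def gb (a : ℕ → ℂ) (T : Set ℝ) (n H : ℕ) : ℝ := GS ph a T H n / H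

lemma gb_nonneg (a : ℕ → ℂ) (T : Set ℝ) (n H : ℕ) : 0 ≤ gb a T n H := gs_div_nonneg a T n H

lemma gb_le_one (a : ℕ → ℂ) (ha : ∀ n, ‖a n‖ ≤ 1) (T : Set ℝ) (n H : ℕ) : gb a T n H ≤ 1 :=
  gs_div_le a ha T n H

lemma gb_le (a : ℕ → ℂ) (T : Set ℝ) (n H : ℕ) (hH : 0 < H) (B : ℝ) (hB : 0 ≤ B)
    (h : ∀ y ∈ T, cc a n H y ≤ B) : gb a T n H ≤ B := by
  have hHr : (0 : ℝ) < H := by exact_mod_cast hH
  rw [gb, div_le_iff₀ hHr, GS, GG]
  apply Real.iSup_le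
  · rintro ⟨y, hy⟩
    change ws (ph y) a n H ≤ _
    rw [cc_mul a n H hH y]
    exact mul_le_mul_of_nonneg_right (h y hy) hHr.le
  · positivity

open Classical in
/-- **One window.** -/
theorem winB (a : ℕ → ℂ) (ha : ∀ n, ‖a n‖ ≤ 1) (hmul : Mult a)
    (P P' : Finset ℕ) (hP : ∀ p ∈ P, p.Prime) (hP' : ∀ p ∈ P', p.Prime) (P₀ : ℕ)
    (hP₀0 : 0 < P₀) (hP₀ : ∀ p ∈ P, P₀ ≤ p) (hP₀' : ∀ p ∈ P', P₀ ≤ p) (Z : ℝ)
    (hZ : ∀ p ∈ P, (p : ℝ) ≤ Z) (hZ' : ∀ p ∈ P', (p : ℝ) ≤ Z) (η : ℝ) (hη : 0 < η)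
    (hη8 : 8 / η ≤ P₀) (Q δ Q' δ' ρ M₁ P₁ : ℝ) (hQ'0 : 0 ≤ Q') (hQQ : Q' ≤ Q)
    (hδδ : 2 * Z ^ 2 * δ' < δ) (hM₁ : 0 ≤ M₁) (hMP : M₁ ≤ P₁)
    (T : Set ℝ) (hT : ∀ y ∈ T, Sq Q δ y) (hT' : ∀ y ∈ T, Sq Q' δ' y)
    (φ : ℝ → ℝ) (hφ0 : ∀ x, 0 ≤ φ x) (hφ1 : ∀ x, φ x ≤ 1)
    (hφT : ∀ x, φ x ≠ 0 → ∀ α ∈ T, ρ ≤ nd (x - α) ∧ ρ ≤ nd (x + α))
    (v : ℝ) (hv0 : 0 ≤ v) (hv1 : v ≤ 1)
    (hφy : ∀ y, Sq Q δ y → (1 - v - η) * (WW P * WW P') ≤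
      ∑ z ∈ P ×ˢ P', 1 / ((z.1 : ℝ) * z.2) * φ ((z.1 : ℝ) * z.2 * y))
    (n H : ℕ) (hH : LongH P P' η H) (H₁ : ℕ) (hHz : ∀ z ∈ P ×ˢ P', H₁ ≤ H / z.1 / z.2 ∧
      0 < H / z.1 / z.2)
    (hS : ∀ m L : ℕ, H₁ ≤ L → ∀ y, Sq Q' δ' y → ws (ph y) a m L ≤ M₁ * L)
    (hPr : ∀ m L : ℕ, H₁ ≤ L → ∀ y₁ y₂, Sq Q' δ' y₁ → Sq Q' δ' y₂ → ρ ≤ nd (y₁ - y₂) →
      ρ ≤ nd (y₁ + y₂) → ws (ph y₁) a m L + ws (ph y₂) a m L ≤ P₁ * L) :
    (1 - v) * (WW P * WW P') * gb a T n H +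
      ∑ z ∈ P ×ˢ P', 1 / ((z.1 : ℝ) * z.2) * gb a T (n / z.1 / z.2) (H / z.1 / z.2) ≤
    (v * M₁ + (1 - v) * P₁ + 3 * η) * (WW P * WW P') +
      2 * (8 / η ^ 2 * (WW P + WW P') + Q' * (2 / P₀ * (WW P + WW P'))) := by
  have hw : ∀ z : ℕ × ℕ, 0 ≤ 1 / ((z.1 : ℝ) * z.2) := fun z => by positivity
  have hWP := WW_nonneg P
  have hWP' := WW_nonneg P'
  have hH0 := hH.1
  have hHr : (0 : ℝ) < H := by exact_mod_cast hH0
  have hP₀r : (0 : ℝ) < P₀ := by exact_mod_cast hP₀0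
  obtain ⟨W, hWd⟩ : ∃ W : ℝ, W = WW P * WW P' := ⟨_, rfl⟩
  have hWW : ∑ z ∈ P ×ˢ P', 1 / ((z.1 : ℝ) * z.2) = W := by
    rw [sum_product, hWd, WW, WW, sum_mul_sum]
    exact sum_congr rfl fun p _ => sum_congr rfl fun q _ => by rw [one_div_mul_one_div]
  rw [← hWd] at hφy ⊢
  have hW0 : 0 ≤ W := by rw [hWd]; exact mul_nonneg hWP hWP'
  have hE0 : 0 ≤ 2 * (8 / η ^ 2 * (WW P + WW P') + Q' * (2 / P₀ * (WW P + WW P'))) := by positivity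
  obtain ⟨S, hS'⟩ : ∃ S : ℝ, S = ∑ z ∈ P ×ˢ P', 1 / ((z.1 : ℝ) * z.2) *
      gb a T (n / z.1 / z.2) (H / z.1 / z.2) := ⟨_, rfl⟩
  rw [← hS']
  -- the inequality for one frequency
  have key : ∀ y ∈ T, (1 - v) * W * cc a n H y + S ≤ (v * M₁ + (1 - v) * P₁ + 3 * η) * W +
      2 * (8 / η ^ 2 * (WW P + WW P') + Q' * (2 / P₀ * (WW P + WW P'))) := by
    intro y hy
    set m : ℝ := max 0 (cc a n H y - 2 * η) with hm
    have hm0 : 0 ≤ m := le_max_left _ _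
    have hcc1 := cc_le_one a ha n H y
    have hm1 : m ≤ 1 := max_le zero_le_one (by linarith)
    have hmc : cc a n H y - 2 * η ≤ m := le_max_right _ _
    set b₁ : ℕ × ℕ → ℝ := fun z =>
      if 2 * η ≤ cc a n H y ∧ z ∈ badpp P P' (ph y) a η (cc a n H y) n H then 1 else 0 with hb₁
    set b₃ : ℕ × ℕ → ℝ := fun z =>
      if Sq Q' δ' ((z.1 : ℝ) * z.2 * y) then (0 : ℝ) else 1 with hb₃
    have hb₁0 : ∀ z, 0 ≤ b₁ z := fun z => by rw [hb₁]; beta_reduce; split_ifs <;> norm_num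
    have hb₃0 : ∀ z, 0 ≤ b₃ z := fun z => by rw [hb₃]; beta_reduce; split_ifs <;> norm_num
    set θ : ℝ := min (P₁ - M₁ - m) 0 with hθ
    have hθ0 : θ ≤ 0 := min_le_right _ _
    have hθ1 : -1 ≤ θ := le_min (by linarith) (by norm_num)
    have hθ2 : θ ≤ P₁ - M₁ - m := min_le_left _ _
    -- one pair of primes
    have hpt : ∀ z ∈ P ×ˢ P', gb a T (n / z.1 / z.2) (H / z.1 / z.2) ≤
        M₁ + φ ((z.1 : ℝ) * z.2 * y) * θ + 2 * (b₁ z + b₃ z) := by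
      intro z hz
      have hz' := hz
      rw [mem_product] at hz
      have hg1 := gb_le_one a ha T (n / z.1 / z.2) (H / z.1 / z.2)
      have hf0 := hφ0 ((z.1 : ℝ) * z.2 * y)
      have hf1 := hφ1 ((z.1 : ℝ) * z.2 * y)
      have hfθ : -1 ≤ φ ((z.1 : ℝ) * z.2 * y) * θ := by nlinarith
      have h1 := hb₁0 z
      have h3 := hb₃0 z
      by_cases hc3 : Sq Q' δ' ((z.1 : ℝ) * z.2 * y)
      swap
      · have : b₃ z = 1 := by rw [hb₃]; beta_reduce; rw [if_neg hc3]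
        linarith
      by_cases hc1 : 2 * η ≤ cc a n H y ∧ z ∈ badpp P P' (ph y) a η (cc a n H y) n H
      · have : b₁ z = 1 := by rw [hb₁]; beta_reduce; rw [if_pos hc1]
        linarith
      obtain ⟨hHz1, hHz0⟩ := hHz z hz'
      have hH'r : (0 : ℝ) < ((H / z.1 / z.2 : ℕ) : ℝ) := by exact_mod_cast hHz0
      -- single bound
      have hsing : gb a T (n / z.1 / z.2) (H / z.1 / z.2) ≤ M₁ := by
        apply gb_le a T _ _ hHz0 M₁ hM₁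
        intro α hα
        have := hS (n / z.1 / z.2) (H / z.1 / z.2) hHz1 α (hT' α hα)
        rw [cc, div_le_iff₀ hH'r]
        exact this
      by_cases hφz : φ ((z.1 : ℝ) * z.2 * y) = 0
      · rw [hφz, zero_mul]; linarith
      -- pair bound
      have hchild : m ≤ cc a (n / z.1 / z.2) (H / z.1 / z.2) ((z.1 : ℝ) * z.2 * y) := by
        refine max_le (cc_nonneg _ _ _ _) ?_
        by_cases hxy : 2 * η ≤ cc a n H y
        · have h1 : z ∉ badpp P P' (ph y) a η (cc a n H y) n H := fun h => hc1 ⟨hxy, h⟩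
          rw [badpp, mem_filter, not_and, not_not] at h1
          have h2 := h1 hz'
          have hdn : ((z.1 * z.2 : ℕ) : ℝ) = (z.1 : ℝ) * z.2 := by push_cast; ring
          rw [ph_mul, hdn] at h2
          have e : cc a (n / z.1 / z.2) (H / z.1 / z.2) ((z.1 : ℝ) * z.2 * y) =
            ws (ph ((z.1 : ℝ) * z.2 * y)) a (n / z.1 / z.2) (H / z.1 / z.2) /
              ((H / z.1 / z.2 : ℕ) : ℝ) := rfl
          rw [e, le_div_iff₀ hH'r]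
          exact h2
        · push Not at hxy
          have := cc_nonneg a (n / z.1 / z.2) (H / z.1 / z.2) ((z.1 : ℝ) * z.2 * y)
          linarith
      have hmM : m ≤ M₁ := by
        refine hchild.trans ?_
        rw [cc, div_le_iff₀ hH'r]
        exact hS _ _ hHz1 _ hc3
      have hpair : gb a T (n / z.1 / z.2) (H / z.1 / z.2) ≤ P₁ - m := by
        apply gb_le a T _ _ hHz0 _ (by linarith)
        intro α hα
        obtain ⟨hr1, hr2⟩ := hφT _ hφz α hα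
        have h5 := hPr (n / z.1 / z.2) (H / z.1 / z.2) hHz1 ((z.1 : ℝ) * z.2 * y) α hc3
          (hT' α hα) hr1 hr2
        have h6 : cc a (n / z.1 / z.2) (H / z.1 / z.2) ((z.1 : ℝ) * z.2 * y) +
            cc a (n / z.1 / z.2) (H / z.1 / z.2) α ≤ P₁ := by
          unfold cc
          rw [← add_div, div_le_iff₀ hH'r]
          exact h5
        linarith
      have h7 : gb a T (n / z.1 / z.2) (H / z.1 / z.2) ≤ M₁ + θ := by
        rw [hθ]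
        rcases le_total (P₁ - M₁ - m) 0 with h9 | h9
        · rw [min_eq_left h9]; linarith
        · rw [min_eq_right h9]; linarith
      have h8 : θ ≤ φ ((z.1 : ℝ) * z.2 * y) * θ := by nlinarith
      linarith
    -- the sum over the pairs of primes
    have hsum : S ≤ ∑ z ∈ P ×ˢ P', 1 / ((z.1 : ℝ) * z.2) *
        (M₁ + φ ((z.1 : ℝ) * z.2 * y) * θ + 2 * (b₁ z + b₃ z)) := by
      rw [hS']
      exact sum_le_sum fun z hz => mul_le_mul_of_nonneg_left (hpt z hz) (hw z)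
    have e1 : ∑ z ∈ P ×ˢ P', 1 / ((z.1 : ℝ) * z.2) *
        (M₁ + φ ((z.1 : ℝ) * z.2 * y) * θ + 2 * (b₁ z + b₃ z)) =
        M₁ * W + (∑ z ∈ P ×ˢ P', 1 / ((z.1 : ℝ) * z.2) * φ ((z.1 : ℝ) * z.2 * y)) * θ +
        2 * (∑ z ∈ P ×ˢ P', 1 / ((z.1 : ℝ) * z.2) * b₁ z +
          ∑ z ∈ P ×ˢ P', 1 / ((z.1 : ℝ) * z.2) * b₃ z) := by
      rw [← hWW, mul_sum, sum_mul, ← sum_add_distrib, ← sum_add_distrib, mul_sum,
        ← sum_add_distrib]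
      exact sum_congr rfl fun z _ => by ring
    have hB1 : ∑ z ∈ P ×ˢ P', 1 / ((z.1 : ℝ) * z.2) * b₁ z ≤ 8 / η ^ 2 * (WW P + WW P') := by
      have h0 : 0 ≤ 8 / η ^ 2 * (WW P + WW P') := by positivity
      by_cases hxy : 2 * η ≤ cc a n H y
      · have h1 := badpp_weight P P' hP hP' P₀ hP₀ hP₀' η (cc a n H y) hη hxy hη8 (ph y) a
          (norm_ph y) ha hmul n H hH (cc_mul a n H hH0 y).ge
        refine le_trans (le_of_eq ?_) h1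
        have hsub : badpp P P' (ph y) a η (cc a n H y) n H ⊆ P ×ˢ P' := filter_subset _ _
        rw [← sum_subset hsub (f := fun z : ℕ × ℕ => 1 / ((z.1 : ℝ) * z.2) * b₁ z)
          (fun z _ hz => by
            simp only [hb₁]
            rw [if_neg (fun h => hz h.2), mul_zero])]
        refine sum_congr rfl fun z hz => ?_
        simp only [hb₁]
        rw [if_pos ⟨hxy, hz⟩, mul_one]
      · refine le_trans (le_of_eq ?_) h0
        refine sum_eq_zero fun z _ => ?_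
        simp only [hb₁]
        rw [if_neg (fun h => hxy h.1), mul_zero]
    have hB3 : ∑ z ∈ P ×ˢ P', 1 / ((z.1 : ℝ) * z.2) * b₃ z ≤
        Q' * (2 / P₀ * (WW P + WW P')) :=
      few_sq P P' hP hP' P₀ hP₀0 hP₀ hP₀' Z hZ hZ' Q' δ δ' y hQ'0
        ((hT y hy).mono hQQ le_rfl) hδδ
    have hΦ := hφy y (hT y hy)
    have h10 : (∑ z ∈ P ×ˢ P', 1 / ((z.1 : ℝ) * z.2) * φ ((z.1 : ℝ) * z.2 * y)) * θ ≤
        (1 - v - η) * W * θ := mul_le_mul_of_nonpos_right hΦ hθ0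
    have h11 : (1 - v) * W * θ ≤ (1 - v) * W * (P₁ - M₁ - m) :=
      mul_le_mul_of_nonneg_left hθ2 (mul_nonneg (by linarith) hW0)
    have h12 : - (η * W * θ) ≤ η * W := by
      have : 0 ≤ η * W := by positivity
      nlinarith
    have h13 : (1 - v) * W * (cc a n H y - 2 * η) ≤ (1 - v) * W * m :=
      mul_le_mul_of_nonneg_left hmc (mul_nonneg (by linarith) hW0)
    have h14 : (1 - v) * W * (2 * η) ≤ 2 * η * W := by
      have : 0 ≤ η * W := by positivity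
      nlinarith
    rw [e1] at hsum
    have h15 : (1 - v - η) * W * θ = (1 - v) * W * θ - η * W * θ := by ring
    nlinarith
  -- the supremum
  have hc : 0 ≤ (1 - v) * W := mul_nonneg (by linarith) hW0
  rcases T.eq_empty_or_nonempty with hTe | ⟨y₀, hy₀⟩
  · have h0 : ∀ m L : ℕ, gb a T m L = 0 := by
      intro m L
      rw [gb, GS, GG, hTe, Real.iSup_of_isEmpty, zero_div]
    have h1 : S = 0 := by
      rw [hS']
      exact sum_eq_zero fun z _ => by rw [h0, mul_zero]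
    rw [h0, h1, mul_zero, add_zero]
    have : 0 ≤ (v * M₁ + (1 - v) * P₁ + 3 * η) * W := by
      apply mul_nonneg _ hW0
      have a1 : 0 ≤ v * M₁ := mul_nonneg hv0 hM₁
      have a2 : 0 ≤ (1 - v) * P₁ := mul_nonneg (by linarith) (by linarith)
      linarith
    linarith
  · rcases hc.eq_or_lt with h0 | h0
    · have := key y₀ hy₀
      rw [← h0] at this ⊢
      linarith
    · have h1 : gb a T n H ≤ ((v * M₁ + (1 - v) * P₁ + 3 * η) * W +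
          2 * (8 / η ^ 2 * (WW P + WW P') + Q' * (2 / P₀ * (WW P + WW P'))) - S) /
            ((1 - v) * W) := by
        apply gb_le a T n H hH0
        · have h2 := key y₀ hy₀
          have h3 : 0 ≤ (1 - v) * W * cc a n H y₀ := mul_nonneg hc (cc_nonneg _ _ _ _)
          apply div_nonneg _ hc
          linarith
        · intro y hy
          have h2 := key y hy
          rw [le_div_iff₀ h0]
          linarith
      rw [le_div_iff₀ h0] at h1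
      linarith

/-- logarithmic average of the largest correlation -/
noncomputable def Xg (a : ℕ → ℂ) (T : Set ℝ) (N L : ℕ) : ℝ :=
  ∑ n ∈ Icc 1 N, (1 / (n : ℝ)) * gb a T n L

/-- **The average over the windows.** -/
theorem avgB (a : ℕ → ℂ) (ha : ∀ n, ‖a n‖ ≤ 1) (hmul : Mult a)
    (P P' : Finset ℕ) (hP : ∀ p ∈ P, p.Prime) (hP' : ∀ p ∈ P', p.Prime) (P₀ : ℕ)
    (hP₀0 : 0 < P₀) (hP₀ : ∀ p ∈ P, P₀ ≤ p) (hP₀' : ∀ p ∈ P', P₀ ≤ p) (Z : ℝ)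
    (hZ : ∀ p ∈ P, (p : ℝ) ≤ Z) (hZ' : ∀ p ∈ P', (p : ℝ) ≤ Z) (W₀ : ℝ) (hW₀ : 0 < W₀)
    (hW : W₀ ≤ WW P) (hW' : W₀ ≤ WW P') (η : ℝ) (hη : 0 < η)
    (hη8 : 8 / η ≤ P₀) (Q δ Q' δ' ρ M₁ P₁ : ℝ) (hQ'0 : 0 ≤ Q') (hQQ : Q' ≤ Q)
    (hδδ : 2 * Z ^ 2 * δ' < δ) (hM₁ : 0 ≤ M₁) (hMP : M₁ ≤ P₁)
    (T : Set ℝ) (hT : ∀ y ∈ T, Sq Q δ y) (hT' : ∀ y ∈ T, Sq Q' δ' y)
    (φ : ℝ → ℝ) (hφ0 : ∀ x, 0 ≤ φ x) (hφ1 : ∀ x, φ x ≤ 1)
    (hφT : ∀ x, φ x ≠ 0 → ∀ α ∈ T, ρ ≤ nd (x - α) ∧ ρ ≤ nd (x + α))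
    (v : ℝ) (hv0 : 0 ≤ v) (hv1 : v ≤ 1)
    (hφy : ∀ y, Sq Q δ y → (1 - v - η) * (WW P * WW P') ≤
      ∑ z ∈ P ×ˢ P', 1 / ((z.1 : ℝ) * z.2) * φ ((z.1 : ℝ) * z.2 * y))
    (L : ℕ) (hL : LongH P P' η L) (H₁ : ℕ) (hLz : ∀ z ∈ P ×ˢ P', H₁ ≤ L / z.1 / z.2 ∧
      0 < L / z.1 / z.2)
    (hS : ∀ m L : ℕ, H₁ ≤ L → ∀ y, Sq Q' δ' y → ws (ph y) a m L ≤ M₁ * L)
    (hPr : ∀ m L : ℕ, H₁ ≤ L → ∀ y₁ y₂, Sq Q' δ' y₁ → Sq Q' δ' y₂ → ρ ≤ nd (y₁ - y₂) →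
      ρ ≤ nd (y₁ + y₂) → ws (ph y₁) a m L + ws (ph y₂) a m L ≤ P₁ * L)
    (N : ℕ) (hN : Z ^ 2 ≤ N) :
    ∃ z ∈ P ×ˢ P', (1 - v) * Xg a T N L + Xg a T N (L / z.1 / z.2) ≤
      (1 + Real.log N) * (v * M₁ + (1 - v) * P₁ + 3 * η +
        4 / W₀ * (8 / η ^ 2 + Q' * (2 / P₀))) + (Real.log (Z ^ 2) + 3) := by
  classical
  by_contra hcon
  push Not at hcon
  have hWP : 0 < WW P := hW₀.trans_le hW
  have hWP' : 0 < WW P' := hW₀.trans_le hW'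
  obtain ⟨W, hWd⟩ : ∃ W : ℝ, W = WW P * WW P' := ⟨_, rfl⟩
  have hW0 : 0 < W := by rw [hWd]; exact mul_pos hWP hWP'
  have hP₀r : (0 : ℝ) < P₀ := by exact_mod_cast hP₀0
  have hw : ∀ z : ℕ × ℕ, 0 ≤ 1 / ((z.1 : ℝ) * z.2) := fun z => by positivity
  have hWW : ∑ z ∈ P ×ˢ P', 1 / ((z.1 : ℝ) * z.2) = W := by
    rw [sum_product, hWd, WW, WW, sum_mul_sum]
    exact sum_congr rfl fun p _ => sum_congr rfl fun q _ => by rw [one_div_mul_one_div]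
  have hsumW : WW P + WW P' ≤ 2 / W₀ * W := by
    have h1 : W₀ * WW P ≤ W := by rw [hWd, mul_comm]; exact mul_le_mul_of_nonneg_left hW' hWP.le
    have h2 : W₀ * WW P' ≤ W := by rw [hWd]; exact mul_le_mul_of_nonneg_right hW hWP'.le
    rw [div_mul_eq_mul_div, le_div_iff₀ hW₀]
    linarith
  have hpne : (P ×ˢ P').Nonempty := by
    rw [nonempty_iff_ne_empty]
    intro h
    rw [h, sum_empty] at hWW
    linarith
  obtain ⟨err, herr⟩ : ∃ err : ℝ, err = v * M₁ + (1 - v) * P₁ + 3 * η +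
        4 / W₀ * (8 / η ^ 2 + Q' * (2 / P₀)) := ⟨_, rfl⟩
  have herr0 : 0 ≤ err := by
    rw [herr]
    have a1 : 0 ≤ v * M₁ := mul_nonneg hv0 hM₁
    have a2 : 0 ≤ (1 - v) * P₁ := mul_nonneg (by linarith) (by linarith)
    positivity
  obtain ⟨E, hE⟩ : ∃ E : ℝ, E = (1 + Real.log N) * err + (Real.log (Z ^ 2) + 3) := ⟨_, rfl⟩
  rw [← herr, ← hE] at hcon
  -- sum of the inequality for windows
  have h1 : ∀ n ∈ Icc 1 N, (1 / (n : ℝ)) * ((1 - v) * W * gb a T n L +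
      ∑ z ∈ P ×ˢ P', 1 / ((z.1 : ℝ) * z.2) * gb a T (n / z.1 / z.2) (L / z.1 / z.2)) ≤
      (1 / (n : ℝ)) * (W * err) := by
    intro n _
    refine mul_le_mul_of_nonneg_left ?_ (by positivity)
    have h2 := winB a ha hmul P P' hP hP' P₀ hP₀0 hP₀ hP₀' Z hZ hZ' η hη hη8 Q δ Q' δ' ρ M₁ P₁
      hQ'0 hQQ hδδ hM₁ hMP T hT hT' φ hφ0 hφ1 hφT v hv0 hv1 hφy n L hL H₁ hLz hS hPr
    rw [← hWd] at h2
    refine h2.trans ?_
    have h3 : 2 * (8 / η ^ 2 * (WW P + WW P') + Q' * (2 / P₀ * (WW P + WW P'))) ≤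
        2 * (8 / η ^ 2 * (2 / W₀ * W) + Q' * (2 / P₀ * (2 / W₀ * W))) := by
      gcongr
    have h4 : W * err = (v * M₁ + (1 - v) * P₁ + 3 * η) * W +
        2 * (8 / η ^ 2 * (2 / W₀ * W) + Q' * (2 / P₀ * (2 / W₀ * W))) := by
      rw [herr]; ring
    linarith
  have h2 := sum_le_sum h1
  have e1 : ∑ n ∈ Icc 1 N, (1 / (n : ℝ)) * ((1 - v) * W * gb a T n L +
      ∑ z ∈ P ×ˢ P', 1 / ((z.1 : ℝ) * z.2) * gb a T (n / z.1 / z.2) (L / z.1 / z.2)) =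
      W * ((1 - v) * Xg a T N L) + ∑ z ∈ P ×ˢ P', 1 / ((z.1 : ℝ) * z.2) *
        ∑ n ∈ Icc 1 N, (1 / (n : ℝ)) * gb a T (n / z.1 / z.2) (L / z.1 / z.2) := by
    have c1 : ∑ z ∈ P ×ˢ P', 1 / ((z.1 : ℝ) * z.2) *
        ∑ n ∈ Icc 1 N, (1 / (n : ℝ)) * gb a T (n / z.1 / z.2) (L / z.1 / z.2) =
        ∑ n ∈ Icc 1 N, (1 / (n : ℝ)) *
          ∑ z ∈ P ×ˢ P', 1 / ((z.1 : ℝ) * z.2) * gb a T (n / z.1 / z.2) (L / z.1 / z.2) := by
      simp only [mul_sum]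
      rw [sum_comm]
      exact sum_congr rfl fun n _ => sum_congr rfl fun z _ => by ring
    rw [c1, Xg, mul_sum, mul_sum, ← sum_add_distrib]
    exact sum_congr rfl fun n _ => by ring
  rw [e1, ← sum_mul] at h2
  -- transfer
  have hz0 : ∀ z ∈ P ×ˢ P', 0 < z.1 * z.2 := fun z hz => by
    rw [mem_product] at hz
    exact Nat.mul_pos (hP _ hz.1).pos (hP' _ hz.2).pos
  have hzZ : ∀ z ∈ P ×ˢ P', ((z.1 * z.2 : ℕ) : ℝ) ≤ Z ^ 2 := fun z hz => by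
    rw [mem_product] at hz
    have a1 := hZ _ hz.1
    have a2 := hZ' _ hz.2
    have a3 : (0 : ℝ) ≤ z.1 := Nat.cast_nonneg _
    push_cast
    calc (z.1 : ℝ) * z.2 ≤ Z * Z := mul_le_mul a1 a2 (Nat.cast_nonneg _) (by linarith)
      _ = Z ^ 2 := by ring
  have hzN : ∀ z ∈ P ×ˢ P', z.1 * z.2 ≤ N := fun z hz => by
    have := (hzZ z hz).trans hN
    exact_mod_cast this
  have hlogz : ∀ z ∈ P ×ˢ P', Real.log ((z.1 * z.2 : ℕ) : ℝ) ≤ Real.log (Z ^ 2) := fun z hz =>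
    Real.log_le_log (by exact_mod_cast hz0 z hz) (hzZ z hz)
  have hwpos : ∀ z ∈ P ×ˢ P', 0 < 1 / ((z.1 : ℝ) * z.2) := fun z hz => by
    have := hz0 z hz
    have h1 : (0 : ℝ) < ((z.1 * z.2 : ℕ) : ℝ) := by exact_mod_cast this
    push_cast at h1
    positivity
  have h3 : ∀ z ∈ P ×ˢ P', 1 / ((z.1 : ℝ) * z.2) * E <
      1 / ((z.1 : ℝ) * z.2) * ((1 - v) * Xg a T N L + Xg a T N (L / z.1 / z.2)) := fun z hz =>
    mul_lt_mul_of_pos_left (hcon z hz) (hwpos z hz)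
  have h4 := sum_lt_sum_of_nonempty hpne h3
  have h6 : ∑ z ∈ P ×ˢ P', 1 / ((z.1 : ℝ) * z.2) *
      ((1 - v) * Xg a T N L + Xg a T N (L / z.1 / z.2)) =
      W * ((1 - v) * Xg a T N L) +
      ∑ z ∈ P ×ˢ P', 1 / ((z.1 : ℝ) * z.2) * Xg a T N (L / z.1 / z.2) := by
    rw [← hWW, sum_mul, ← sum_add_distrib]
    exact sum_congr rfl fun z _ => by ring
  rw [h6, ← sum_mul, hWW] at h4
  have h7 : ∑ z ∈ P ×ˢ P', 1 / ((z.1 : ℝ) * z.2) * Xg a T N (L / z.1 / z.2) ≤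
      ∑ z ∈ P ×ˢ P', 1 / ((z.1 : ℝ) * z.2) *
        ∑ n ∈ Icc 1 N, (1 / (n : ℝ)) * gb a T (n / z.1 / z.2) (L / z.1 / z.2) +
      W * (Real.log (Z ^ 2) + 3) := by
    rw [← hWW, sum_mul, ← sum_add_distrib]
    refine sum_le_sum fun z hz => ?_
    have h8 := log_lower (z.1 * z.2) (hz0 z hz) (fun n => gb a T n (L / z.1 / z.2)) 1
      (fun n => gb_nonneg _ _ _ _) (fun n => gb_le_one a ha _ _ _) N (hzN z hz)
    have h9 : Xg a T N (L / z.1 / z.2) ≤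
        ∑ n ∈ Icc 1 N, (1 / (n : ℝ)) * gb a T (n / z.1 / z.2) (L / z.1 / z.2) +
          (Real.log (Z ^ 2) + 3) := by
      have := hlogz z hz
      rw [Xg]
      simp only [← Nat.div_div_eq_div_mul] at h8
      linarith
    calc _ ≤ _ := mul_le_mul_of_nonneg_left h9 (hw z)
      _ = _ := by ring
  have h13 : (∑ n ∈ Icc 1 N, (1 / (n : ℝ))) * (W * err) ≤ (1 + Real.log N) * (W * err) :=
    mul_le_mul_of_nonneg_right (sum_inv_le_log N) (by positivity)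
  have h14 : W * E = (1 + Real.log N) * (W * err) + W * (Real.log (Z ^ 2) + 3) := by
    rw [hE]; ring
  linarith

end Pool.Agent.Lib.MP_663568_dch
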